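import Pool.Agent.FCC.Stmts

/-!
# The maximum principle in the complement of a compact set
-/

namespace Pool.Agent.FCC.MAXP

open MeasureTheory Set Filter Topology Metric

/-- `z - c` tends to infinity at infinity. -/
lemma sub_tendsto (c : ℂ) : Tendsto (fun z : ℂ => z - c) (cocompact ℂ) (cocompact ℂ) := by
  have h := (Homeomorph.subRight c).isClosedEmbedding.tendsto_cocompact
  exact h

/-- `1 / (z - c)` tends to zero at infinity. -/
lemma inv_tendsto (c : ℂ) : Tendsto (fun z : ℂ => (z - c)⁻¹) (cocompact ℂ) (𝓝 0) := by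
  have h : Tendsto (fun z : ℂ => z⁻¹) (cocompact ℂ) (𝓝 0) := by
    rw [← Metric.cobounded_eq_cocompact]
    exact tendsto_inv₀_cobounded
  exact h.comp (sub_tendsto c)

/-- The function tends to zero at infinity. -/
lemma g_tendsto {ι : Type} [Fintype ι] (a c : ι → ℂ) :
    Tendsto (fun z : ℂ => ∑ i, a i / (z - c i)) (cocompact ℂ) (𝓝 0) := by
  have h : Tendsto (fun z : ℂ => ∑ i, a i / (z - c i)) (cocompact ℂ) (𝓝 (∑ i : ι, (0 : ℂ))) := by
    apply tendsto_finsetSum
    intro i _
    have := (inv_tendsto (c i)).const_mul (a i)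
    simpa [div_eq_mul_inv] using this
  simpa using h

/-- `z` times the function tends to the sum of the coefficients. -/
lemma zg_tendsto {ι : Type} [Fintype ι] (a c : ι → ℂ) :
    Tendsto (fun z : ℂ => z * ∑ i, a i / (z - c i)) (cocompact ℂ) (𝓝 (∑ i, a i)) := by
  have h : Tendsto (fun z : ℂ => ∑ i, z * (a i / (z - c i))) (cocompact ℂ)
      (𝓝 (∑ i : ι, a i)) := by
    apply tendsto_finsetSum
    intro i _
    have h1 : Tendsto (fun z : ℂ => a i + a i * c i * (z - c i)⁻¹) (cocompact ℂ)
        (𝓝 (a i + a i * c i * 0)) := ((inv_tendsto (c i)).const_mul _).const_add _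
    rw [mul_zero, add_zero] at h1
    refine h1.congr' ?_
    have hev : ∀ᶠ z in cocompact ℂ, z ≠ c i := by
      have : ({c i} : Set ℂ)ᶜ ∈ cocompact ℂ := isCompact_singleton.compl_mem_cocompact
      filter_upwards [this] with z hz
      simpa using hz
    filter_upwards [hev] with z hz
    have : z - c i ≠ 0 := sub_ne_zero.mpr hz
    field_simp
    ring
  refine h.congr fun z => ?_
  rw [Finset.mul_sum]

/-- The function is holomorphic away from the poles. -/
lemma g_diff {ι : Type} [Fintype ι] (a c : ι → ℂ) {z : ℂ} (hz : ∀ i, z ≠ c i) :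
    DifferentiableAt ℂ (fun z : ℂ => ∑ i, a i / (z - c i)) z := by
  apply DifferentiableAt.fun_sum
  intro i _
  have : z - c i ≠ 0 := sub_ne_zero.mpr (hz i)
  exact (differentiableAt_const _).div (differentiableAt_id.sub_const _) this

/-- The bound in the complement. -/
lemma bound (K : Set ℂ) (ι : Type) [Fintype ι] (a c : ι → ℂ) (Λ : ℝ) (hK : IsCompact K)
    (hΛ : 0 < Λ) (hc : ∀ i, c i ∈ interior K)
    (hfr : ∀ z ∈ frontier K, ‖∑ i, a i / (z - c i)‖ ≤ Λ) {z : ℂ} (hz : z ∈ Kᶜ) :
    ‖∑ i, a i / (z - c i)‖ ≤ Λ := by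
  -- a large ball
  have h1 : ∀ᶠ w in cocompact ℂ, ‖∑ i, a i / (w - c i)‖ ≤ Λ := by
    have := (g_tendsto a c).norm
    rw [norm_zero] at this
    exact (this.eventually (gt_mem_nhds hΛ)).mono fun w hw => hw.le
  rw [← Metric.cobounded_eq_cocompact, ← comap_norm_atTop, eventually_comap,
    eventually_atTop] at h1
  obtain ⟨R₁, hR₁⟩ := h1
  obtain ⟨R₂, hR₂⟩ := hK.isBounded.subset_ball (0 : ℂ)
  set R : ℝ := max (max R₁ R₂) (‖z‖ + 1) with hR
  have hR1 : R₁ ≤ R := (le_max_left _ _).trans (le_max_left _ _)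
  have hR2 : R₂ ≤ R := (le_max_right _ _).trans (le_max_left _ _)
  have hR3 : ‖z‖ < R := lt_of_lt_of_le (by linarith) (le_max_right _ _)
  set U : Set ℂ := ball 0 R \ K with hU
  have hUo : IsOpen U := isOpen_ball.sdiff hK.isClosed
  have hUb : Bornology.IsBounded U := isBounded_ball.subset sdiff_subset
  have hcl : closure U ⊆ (interior K)ᶜ := by
    apply closure_minimal
    · intro w hw hw'
      exact hw.2 (interior_subset hw')
    · exact isOpen_interior.isClosed_compl
  have hpole : ∀ w ∈ closure U, ∀ i, w ≠ c i := by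
    intro w hw i he
    exact hcl hw (he ▸ hc i)
  have hd : DiffContOnCl ℂ (fun z : ℂ => ∑ i, a i / (z - c i)) U := by
    refine ⟨fun w hw => ?_, fun w hw => ?_⟩
    · exact (g_diff a c (hpole w (subset_closure hw))).differentiableWithinAt
    · exact (g_diff a c (hpole w hw)).continuousAt.continuousWithinAt
  have hzU : z ∈ closure U := by
    apply subset_closure
    exact ⟨by simpa using hR3, hz⟩
  refine Complex.norm_le_of_forall_mem_frontier_norm_le hUb hd ?_ hzU
  intro w hw
  by_cases hwK : w ∈ K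
  · -- a frontier point of `K`
    apply hfr
    rw [frontier_eq_closure_inter_closure]
    refine ⟨subset_closure hwK, ?_⟩
    have : w ∈ closure U := frontier_subset_closure hw
    exact closure_mono (fun x hx => hx.2) this
  · -- a point of the sphere
    have hwc : w ∈ closure U := frontier_subset_closure hw
    have hwb : ‖w‖ ≤ R := by
      have : w ∈ closure (ball (0 : ℂ) R) := closure_mono sdiff_subset hwc
      have := closure_ball_subset_closedBall this
      simpa using this
    have hwn : ¬ ‖w‖ < R := by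
      intro hlt
      have hwU : w ∈ U := ⟨by simpa using hlt, hwK⟩
      rw [hUo.frontier_eq] at hw
      exact hw.2 hwU
    have : ‖w‖ = R := le_antisymm hwb (not_lt.mp hwn)
    exact hR₁ ‖w‖ (by rw [this]; exact hR1) w rfl

/-- The set in the definition of the capacity is bounded. -/
lemma bdd (K : Set ℂ) (hK : IsCompact K) :
    BddAbove {r : ℝ | ∃ f : ℂ → ℂ, ∃ a : ℂ, DifferentiableOn ℂ f Kᶜ ∧ (∀ z ∈ Kᶜ, ‖f z‖ ≤ 1) ∧
      Tendsto f (cocompact ℂ) (𝓝 0) ∧ Tendsto (fun z => z * f z) (cocompact ℂ) (𝓝 a) ∧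
      r = ‖a‖} := by
  obtain ⟨R₀, hR₀⟩ := hK.isBounded.subset_ball (0 : ℂ)
  set R : ℝ := max R₀ 0 + 1 with hR
  have hRpos : 0 < R := by positivity
  have hKR : ∀ z : ℂ, R ≤ ‖z‖ → z ∈ Kᶜ := by
    intro z hz hzK
    have := hR₀ hzK
    rw [mem_ball_zero_iff] at this
    have h2 : R₀ ≤ max R₀ 0 := le_max_left _ _
    linarith
  refine ⟨R, ?_⟩
  rintro r ⟨f, a, hf, hf1, -, hfa, rfl⟩
  -- the circle integrals
  have hKo : IsOpen Kᶜ := hK.isClosed.isOpen_compl
  have hdiff : ∀ z : ℂ, R ≤ ‖z‖ → DifferentiableAt ℂ f z := fun z hz =>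
    hf.differentiableAt (hKo.mem_nhds (hKR z hz))
  have hint : ∀ S : ℝ, R ≤ S → (∮ z in C(0, S), f z) = ∮ z in C(0, R), f z := by
    intro S hS
    refine Complex.circleIntegral_eq_of_differentiable_on_annulus_off_countable hRpos hS
      (s := ∅) countable_empty ?_ ?_
    · intro z hz
      have h1 : R ≤ ‖z‖ := by
        have := hz.2
        rw [mem_ball_zero_iff] at this
        exact not_lt.mp this
      exact (hdiff z h1).continuousAt.continuousWithinAt
    · intro z hz
      have h1 : R < ‖z‖ := by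
        have := hz.1.2
        rw [mem_closedBall_zero_iff] at this
        exact not_le.mp this
      exact hdiff z h1.le
  have hbR : ‖∮ z in C(0, R), f z‖ ≤ 2 * Real.pi * R * 1 := by
    apply circleIntegral.norm_integral_le_of_norm_le_const hRpos.le
    intro z hz
    apply hf1
    apply hKR
    rw [mem_sphere_zero_iff_norm] at hz
    exact hz.ge
  -- the limit
  have hlim : ∀ ε : ℝ, 0 < ε → ‖(∮ z in C(0, R), f z) - 2 * Real.pi * Complex.I * a‖ ≤
      2 * Real.pi * ε := by
    intro ε hε
    have h1 : ∀ᶠ w in cocompact ℂ, ‖w * f w - a‖ ≤ ε := by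
      have := (tendsto_iff_norm_sub_tendsto_zero.mp hfa)
      exact (this.eventually (gt_mem_nhds hε)).mono fun w hw => hw.le
    rw [← Metric.cobounded_eq_cocompact, ← comap_norm_atTop, eventually_comap,
      eventually_atTop] at h1
    obtain ⟨R₁, hR₁⟩ := h1
    set S : ℝ := max R R₁ with hS
    have hSR : R ≤ S := le_max_left _ _
    have hSpos : 0 < S := hRpos.trans_le hSR
    have hS1 : R₁ ≤ S := le_max_right _ _
    rw [← hint S hSR]
    have h2 : (∮ z in C((0 : ℂ), S), (z - 0)⁻¹) = 2 * Real.pi * Complex.I :=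
      circleIntegral.integral_sub_center_inv 0 hSpos.ne'
    have hci1 : CircleIntegrable f 0 S := by
      apply ContinuousOn.circleIntegrable hSpos.le
      intro z hz
      rw [mem_sphere_zero_iff_norm] at hz
      exact (hdiff z (by rw [hz]; exact hSR)).continuousAt.continuousWithinAt
    have hci2 : CircleIntegrable (fun z : ℂ => (z - 0)⁻¹ * a) 0 S := by
      apply ContinuousOn.circleIntegrable hSpos.le
      intro z hz
      rw [mem_sphere_zero_iff_norm] at hz
      have hz0 : z ≠ 0 := by
        rintro rfl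
        rw [norm_zero] at hz
        linarith
      apply ContinuousAt.continuousWithinAt
      refine ContinuousAt.mul (ContinuousAt.inv₀ (by fun_prop) (by simpa using hz0)) ?_
      exact continuousAt_const
    have h3 : (∮ z in C((0 : ℂ), S), (z - 0)⁻¹ * a) = 2 * Real.pi * Complex.I * a := by
      have := circleIntegral.integral_smul_const (fun z : ℂ => (z - 0)⁻¹) a 0 S
      simp only [smul_eq_mul] at this
      rw [this, h2]
    rw [← h3, ← circleIntegral.integral_sub hci1 hci2]
    have h4 : ∀ z ∈ sphere (0 : ℂ) S, ‖f z - (z - 0)⁻¹ * a‖ ≤ ε / S := by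
      intro z hz
      rw [mem_sphere_zero_iff_norm] at hz
      have hz0 : z ≠ 0 := by
        rintro rfl
        rw [norm_zero] at hz
        linarith
      have e1 : f z - (z - 0)⁻¹ * a = z⁻¹ * (z * f z - a) := by
        rw [sub_zero]
        field_simp
      rw [e1, norm_mul, norm_inv, hz, div_eq_inv_mul]
      have := hR₁ ‖z‖ (by rw [hz]; exact hS1) z rfl
      exact mul_le_mul_of_nonneg_left this (inv_nonneg.mpr hSpos.le)
    calc ‖∮ z in C((0 : ℂ), S), (f z - (z - 0)⁻¹ * a)‖ ≤ 2 * Real.pi * S * (ε / S) :=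
          circleIntegral.norm_integral_le_of_norm_le_const hSpos.le h4
      _ = 2 * Real.pi * ε := by field_simp
  have hzero : (∮ z in C(0, R), f z) = 2 * Real.pi * Complex.I * a := by
    have : ‖(∮ z in C(0, R), f z) - 2 * Real.pi * Complex.I * a‖ ≤ 0 := by
      apply le_of_forall_pos_le_add
      intro δ hδ
      have h2 : 0 < δ / (2 * Real.pi) := by positivity
      have := hlim _ h2
      have e : 2 * Real.pi * (δ / (2 * Real.pi)) = δ := by field_simp
      rw [e] at this
      linarith
    have := norm_le_zero_iff.mp this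
    exact sub_eq_zero.mp this
  rw [hzero, norm_mul, norm_mul, norm_mul, Complex.norm_I, mul_one, mul_one] at hbR
  have e2 : ‖(2 : ℂ)‖ * ‖(Real.pi : ℂ)‖ = 2 * Real.pi := by
    rw [Complex.norm_real, Complex.norm_ofNat, Real.norm_of_nonneg Real.pi_pos.le]
  rw [e2] at hbR
  exact le_of_mul_le_mul_left hbR (by positivity)

end Pool.Agent.FCC.MAXP

namespace Pool.Agent.FCC

open MeasureTheory Set

/-- The maximum principle. -/
theorem MAXP_thm : Stmt_MAXP := by
  intro K ι _ a c Λ hK hΛ hc hfr
  unfold gam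
  apply le_csSup (MAXP.bdd K hK)
  have hpole : ∀ z ∈ Kᶜ, ∀ i, z ≠ c i := by
    intro z hz i he
    exact hz (he ▸ interior_subset (hc i))
  have hΛ' : (Λ : ℂ) ≠ 0 := by exact_mod_cast hΛ.ne'
  refine ⟨fun z => (∑ i, a i / (z - c i)) / Λ, (∑ i, a i) / Λ, ?_, ?_, ?_, ?_, ?_⟩
  · intro z hz
    exact ((MAXP.g_diff a c (hpole z hz)).div_const _).differentiableWithinAt
  · intro z hz
    rw [norm_div, Complex.norm_real, Real.norm_of_nonneg hΛ.le, div_le_one hΛ]
    exact MAXP.bound K ι a c Λ hK hΛ hc hfr hz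
  · have := (MAXP.g_tendsto a c).div_const (Λ : ℂ)
    simpa using this
  · have := (MAXP.zg_tendsto a c).div_const (Λ : ℂ)
    refine this.congr fun z => ?_
    ring
  · rw [norm_div, Complex.norm_real, Real.norm_of_nonneg hΛ.le]

end Pool.Agent.FCC
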