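import Pool.Agent.FCC.Stmts

/-!
# Four corner Cantor sets: the average over the directions
-/

namespace Pool.Agent.FCC

open MeasureTheory Set

namespace AVG

theorem measurable_Q (a b : ℕ) : Measurable (Q a b) := by
  unfold Q
  exact Finset.measurable_prod _ fun j _ => by fun_prop

theorem measurable_wt (q : ℝ) (l m : ℕ) : Measurable (wt q l m) := by
  unfold wt
  exact (ENNReal.measurable_ofReal.comp (measurable_Q l m)).mul
    ((ENNReal.measurable_ofReal.comp (measurable_Q 0 l)).pow_const _)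

theorem Q_nonneg (a b : ℕ) (x : ℝ) : 0 ≤ Q a b x :=
  Finset.prod_nonneg fun _ _ => sq_nonneg _

/-- change of variables -/
theorem scale {F : ℝ → ENNReal} (hF : Measurable F) {a : ℝ} (ha : 0 < a) {s t : Set ℝ}
    (hs : MeasurableSet s) (ht : MeasurableSet t) (h : ∀ x, x ∈ s ↔ a * x ∈ t) :
    ∫⁻ x in s, F (a * x) = ENNReal.ofReal a⁻¹ * ∫⁻ x in t, F x := by
  rw [← lintegral_indicator hs, ← lintegral_indicator ht]
  have h1 : s.indicator (fun x => F (a * x)) = fun x => (t.indicator F) (a * x) := by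
    funext x
    by_cases hx : x ∈ s
    · rw [indicator_of_mem hx, indicator_of_mem ((h x).1 hx)]
    · rw [indicator_of_notMem hx, indicator_of_notMem (fun h' => hx ((h x).2 h'))]
  rw [h1, ← lintegral_map (hF.indicator ht) (measurable_const_mul a),
    Real.map_volume_mul_left ha.ne', lintegral_smul_measure, abs_of_pos (inv_pos.2 ha),
    smul_eq_mul]

/-- The reindexed product. -/
theorem Q_scale {i a b : ℕ} (h : i ≤ a) (y : ℝ) :
    Q a b (1 / 4 ^ i * y) = Q (a - i) (b - i) y := by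
  unfold Q
  refine Finset.prod_bij' (fun j _ => j - i) (fun j _ => j + i) ?_ ?_ ?_ ?_ ?_
  · intro j hj
    rw [Finset.mem_Ico] at hj ⊢
    omega
  · intro j hj
    rw [Finset.mem_Ico] at hj ⊢
    omega
  · intro j hj
    rw [Finset.mem_Ico] at hj
    show j - i + i = j
    omega
  · intro j hj
    show j + i - i = j
    omega
  · intro j hj
    rw [Finset.mem_Ico] at hj
    obtain ⟨k, rfl⟩ := Nat.exists_eq_add_of_le (h.trans hj.1)
    congr 2
    rw [Nat.add_sub_cancel_left, pow_add]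
    field_simp

theorem cos_sq_ge (x : ℝ) : 1 - x ^ 2 ≤ Real.cos x ^ 2 := by
  have h := Real.one_sub_sq_div_two_le_cos (x := x)
  have h2 := Real.sin_sq_add_cos_sq x
  have h3 : Real.sin x ^ 2 ≤ x ^ 2 := by
    have := Real.abs_sin_le_abs (x := x)
    exact sq_le_sq.2 this
  linarith

/-- The product over the small scales. -/
theorem prod_small (i : ℕ) {y : ℝ} (hy0 : 0 ≤ y) (hy1 : y ≤ 1) :
    1 / 2 ≤ ∏ j ∈ Finset.range i, Real.cos (4 ^ j * (1 / 4 ^ i * y)) ^ 2 := by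
  -- stronger: the product is at least `1 - (1/15) (1 - 1/16^i)`
  have key : ∀ n : ℕ, ∀ z : ℝ, 0 ≤ z → z ≤ 1 / 4 →
      1 - (16 / 15) * z ^ 2 ≤ ∏ j ∈ Finset.range n, Real.cos (z / 4 ^ j) ^ 2 := by
    intro n
    induction n with
    | zero =>
      intro z h0 h1
      simp only [Finset.range_zero, Finset.prod_empty]
      nlinarith [sq_nonneg z]
    | succ n ih =>
      intro z h0 h1
      rw [Finset.prod_range_succ']
      have e : ∀ k ∈ Finset.range n, Real.cos (z / 4 ^ (k + 1)) ^ 2 =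
          Real.cos ((z / 4) / 4 ^ k) ^ 2 := by
        intro k _
        have e1 : z / 4 ^ (k + 1) = (z / 4) / 4 ^ k := by
          rw [pow_succ]
          field_simp
        rw [e1]
      rw [Finset.prod_congr rfl e]
      have h2 := ih (z / 4) (by linarith) (by linarith)
      have h3 : 1 - z ^ 2 ≤ Real.cos (z / 4 ^ 0) ^ 2 := by
        rw [pow_zero, div_one]
        exact cos_sq_ge z
      have hz : z ^ 2 ≤ 1 / 16 := by nlinarith
      have h4 : 0 ≤ 1 - 16 / 15 * (z / 4) ^ 2 := by nlinarith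
      calc 1 - 16 / 15 * z ^ 2 ≤ (1 - 16 / 15 * (z / 4) ^ 2) * (1 - z ^ 2) := by nlinarith [sq_nonneg z, sq_nonneg (z ^ 2)]
        _ ≤ _ := mul_le_mul h2 h3 (by linarith) (h4.trans h2)
  have e : ∏ j ∈ Finset.range i, Real.cos (4 ^ j * (1 / 4 ^ i * y)) ^ 2 =
      ∏ j ∈ Finset.range i, Real.cos ((y / 4) / 4 ^ j) ^ 2 := by
    rw [← Finset.prod_range_reflect]
    refine Finset.prod_congr rfl fun j hj => ?_
    rw [Finset.mem_range] at hj
    congr 2
    obtain ⟨k, hk⟩ := Nat.exists_eq_add_of_lt hj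
    have h1 : i - 1 - j = k := by omega
    rw [h1, hk, pow_add, pow_add]
    field_simp
  rw [e]
  have := key i (y / 4) (by linarith) (by linarith)
  nlinarith

theorem wt_scale {q : ℝ} (hq0 : 0 < q) {i l m : ℕ} (hi : i ≤ l) {y : ℝ} (hy0 : 0 ≤ y)
    (hy1 : y ≤ 1) :
    wt q l m (1 / 4 ^ i * y) ≤ ENNReal.ofReal (2 ^ q) * wt q (l - i) (m - i) y := by
  unfold wt
  rw [Q_scale hi]
  have h1 : (1 / 2) * Q 0 (l - i) y ≤ Q 0 l (1 / 4 ^ i * y) := by
    have h2 : Q 0 l (1 / 4 ^ i * y) =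
        (∏ j ∈ Finset.range i, Real.cos (4 ^ j * (1 / 4 ^ i * y)) ^ 2) * Q 0 (l - i) y := by
      have h3 := Q_scale (le_refl i) (b := l) y
      rw [Nat.sub_self] at h3
      rw [← h3]
      unfold Q
      rw [Finset.range_eq_Ico, Finset.prod_Ico_consecutive _ (Nat.zero_le i) hi]
    rw [h2]
    exact mul_le_mul_of_nonneg_right (prod_small i hy0 hy1) (Q_nonneg _ _ _)
  have h4 : (ENNReal.ofReal (Q 0 l (1 / 4 ^ i * y))) ^ (-q) ≤
      ENNReal.ofReal (2 ^ q) * (ENNReal.ofReal (Q 0 (l - i) y)) ^ (-q) := by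
    have h5 : ENNReal.ofReal (2 ^ q) = (ENNReal.ofReal (1 / 2)) ^ (-q) := by
      rw [ENNReal.ofReal_rpow_of_pos (by norm_num)]
      congr 1
      rw [one_div, Real.inv_rpow (by norm_num), Real.rpow_neg (by norm_num), inv_inv]
    rw [h5, ← ENNReal.mul_rpow_of_ne_top ENNReal.ofReal_ne_top ENNReal.ofReal_ne_top,
      ← ENNReal.ofReal_mul (by norm_num), ENNReal.rpow_neg, ENNReal.rpow_neg]
    exact ENNReal.inv_le_inv.2 (ENNReal.rpow_le_rpow (ENNReal.ofReal_le_ofReal h1) hq0.le)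
  calc ENNReal.ofReal (Q (l - i) (m - i) y) * (ENNReal.ofReal (Q 0 l (1 / 4 ^ i * y))) ^ (-q) ≤
      ENNReal.ofReal (Q (l - i) (m - i) y) *
        (ENNReal.ofReal (2 ^ q) * (ENNReal.ofReal (Q 0 (l - i) y)) ^ (-q)) :=
        mul_le_mul_right h4 _
    _ = _ := by ring

/-- The integral over `[0, 4 ^ (-i)]`. -/
theorem W_le {q C : ℝ} (hq0 : 0 < q) (hq1 : q < 1 / 4) (hT : Stmt_TRA) (hC : 0 < C)
    (hS : ∀ r : ℕ, ∫⁻ x in Icc 0 Real.pi,
      ENNReal.ofReal (Q 0 r x) * (ENNReal.ofReal |Real.sin x|) ^ (-(2 * q)) ≤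
        ENNReal.ofReal (C / 2 ^ r)) {i l m : ℕ} (hi : i ≤ l) (hlm : l ≤ m) :
    ∫⁻ x in Icc 0 (1 / 4 ^ i : ℝ), wt q l m x ≤
      ENNReal.ofReal (2 * C * 8 ^ (q * l) / 2 ^ (m - l) / 4 ^ i) := by
  have h4 : (0 : ℝ) < 1 / 4 ^ i := by positivity
  have h1 := scale (measurable_wt q l m) h4 (s := Icc 0 1) (t := Icc 0 (1 / 4 ^ i : ℝ))
    measurableSet_Icc measurableSet_Icc (by
      intro x
      rw [mem_Icc, mem_Icc]
      constructor
      · rintro ⟨h1, h2⟩
        exact ⟨mul_nonneg h4.le h1, by nlinarith⟩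
      · rintro ⟨h1, h2⟩
        refine ⟨nonneg_of_mul_nonneg_right h1 h4, ?_⟩
        by_contra h
        push Not at h
        nlinarith)
  have h2 : ∫⁻ x in Icc 0 (1 / 4 ^ i : ℝ), wt q l m x =
      ENNReal.ofReal (1 / 4 ^ i) * ∫⁻ x in Icc (0 : ℝ) 1, wt q l m (1 / 4 ^ i * x) := by
    rw [h1, ← mul_assoc, ← ENNReal.ofReal_mul h4.le, mul_inv_cancel₀ h4.ne', ENNReal.ofReal_one,
      one_mul]
  have h3 : ∫⁻ x in Icc (0 : ℝ) 1, wt q l m (1 / 4 ^ i * x) ≤
      ENNReal.ofReal (2 ^ q) * ∫⁻ x in Icc 0 Real.pi, wt q (l - i) (m - i) x := by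
    calc ∫⁻ x in Icc (0 : ℝ) 1, wt q l m (1 / 4 ^ i * x) ≤
        ∫⁻ x in Icc (0 : ℝ) 1, ENNReal.ofReal (2 ^ q) * wt q (l - i) (m - i) x :=
          setLIntegral_mono ((measurable_wt q _ _).const_mul _) fun x hx =>
            wt_scale hq0 hi hx.1 hx.2
      _ = ENNReal.ofReal (2 ^ q) * ∫⁻ x in Icc (0 : ℝ) 1, wt q (l - i) (m - i) x :=
          lintegral_const_mul _ (measurable_wt q _ _)
      _ ≤ _ := mul_le_mul_right (lintegral_mono_set (Icc_subset_Icc le_rfl
          (by linarith [Real.pi_gt_three]))) _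
  have h5 := hT q (l - i) (m - i) hq0 hq1 (Nat.sub_le_sub_right hlm i)
  have h6 : m - i - (l - i) = m - l := by omega
  rw [h6] at h5
  have h7 := hS (m - l)
  have h8 : (8 : ℝ) ^ (q * ((l - i : ℕ) : ℝ)) ≤ 8 ^ (q * (l : ℝ)) :=
    Real.rpow_le_rpow_of_exponent_le (by norm_num)
      (mul_le_mul_of_nonneg_left (by exact_mod_cast Nat.sub_le l i) hq0.le)
  have h9 : (2 : ℝ) ^ q ≤ 2 := by
    calc (2 : ℝ) ^ q ≤ 2 ^ (1 : ℝ) :=
          Real.rpow_le_rpow_of_exponent_le (by norm_num) (by linarith)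
      _ = 2 := Real.rpow_one _
  rw [h2]
  calc ENNReal.ofReal (1 / 4 ^ i) * ∫⁻ x in Icc (0 : ℝ) 1, wt q l m (1 / 4 ^ i * x) ≤
      ENNReal.ofReal (1 / 4 ^ i) * (ENNReal.ofReal 2 *
        (ENNReal.ofReal (8 ^ (q * (l : ℝ))) * ENNReal.ofReal (C / 2 ^ (m - l)))) := by
        refine mul_le_mul_right (h3.trans ?_) _
        refine mul_le_mul' (ENNReal.ofReal_le_ofReal h9) (h5.trans ?_)
        exact mul_le_mul' (ENNReal.ofReal_le_ofReal h8) h7
    _ = _ := by
        rw [← ENNReal.ofReal_mul (by positivity), ← ENNReal.ofReal_mul (by positivity),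
          ← ENNReal.ofReal_mul (by positivity)]
        congr 1
        field_simp

/-- The inner integral over the directions. -/
theorem inner_le (q : ℝ) {i l m : ℕ} {x : ℝ} (h0 : 1 / 4 ^ (i + 1) ≤ x) (h1 : x ≤ 1 / 4 ^ i) :
    ∫⁻ t in Icc (1 / 4 : ℝ) 1, wt q l m (t * x) ≤
      ENNReal.ofReal (4 ^ (i + 1)) * ∫⁻ u in Icc 0 (1 / 4 ^ i : ℝ), wt q l m u := by
  have h4 : (0 : ℝ) < 1 / 4 ^ (i + 1) := by positivity
  have hx : 0 < x := h4.trans_le h0
  have h2 := scale (measurable_wt q l m) hx (s := Icc (1 / 4) 1) (t := Icc (x / 4) x)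
    measurableSet_Icc measurableSet_Icc (by
      intro t
      rw [mem_Icc, mem_Icc]
      constructor
      · rintro ⟨h1, h2⟩
        constructor <;> nlinarith
      · rintro ⟨h1, h2⟩
        constructor
        · by_contra h
          push Not at h
          nlinarith
        · by_contra h
          push Not at h
          nlinarith)
  have h3 : ∀ t : ℝ, t * x = x * t := fun t => mul_comm t x
  simp only [h3]
  rw [h2]
  refine mul_le_mul' (ENNReal.ofReal_le_ofReal ?_) (lintegral_mono_set ?_)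
  · have : x⁻¹ ≤ (1 / 4 ^ (i + 1) : ℝ)⁻¹ := inv_anti₀ h4 h0
    calc x⁻¹ ≤ (1 / 4 ^ (i + 1) : ℝ)⁻¹ := this
      _ = _ := by rw [one_div, inv_inv]
  · exact Icc_subset_Icc (by linarith) h1

/-- Every point of the range lies in one of the intervals. -/
theorem cover (l : ℕ) : Icc (1 / 4 ^ l : ℝ) 1 ⊆
    ⋃ i ∈ Finset.range (l + 1), Icc (1 / 4 ^ (i + 1) : ℝ) (1 / 4 ^ i) := by
  induction l with
  | zero =>
    intro x hx
    rw [pow_zero, div_one] at hx
    simp only [mem_iUnion]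
    refine ⟨0, by simp, ?_, ?_⟩
    · norm_num
      linarith [hx.1]
    · norm_num
      exact hx.2
  | succ l ih =>
    intro x hx
    simp only [mem_iUnion]
    by_cases h : 1 / 4 ^ l ≤ x
    · have := ih ⟨h, hx.2⟩
      simp only [mem_iUnion] at this
      obtain ⟨i, hi, h1⟩ := this
      exact ⟨i, Finset.mem_range.2 ((Finset.mem_range.1 hi).trans (Nat.lt_succ_self _)), h1⟩
    · push Not at h
      exact ⟨l, Finset.mem_range.2 (by omega), hx.1, h.le⟩

/-- Subadditivity of the integral in the domain. -/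
theorem lintegral_biUnion_le (s : Finset ℕ) (B : ℕ → Set ℝ) (F : ℝ → ENNReal) :
    ∫⁻ x in ⋃ i ∈ s, B i, F x ≤ ∑ i ∈ s, ∫⁻ x in B i, F x := by
  classical
  induction s using Finset.induction_on with
  | empty => simp
  | insert a s ha ih =>
    rw [Finset.set_biUnion_insert, Finset.sum_insert ha]
    exact (lintegral_union_le F _ _).trans (by gcongr)

end AVG

/-- The average over the directions. -/
theorem AVG_thm : Stmt_TRA → Stmt_SIN → Stmt_AVG := by
  intro hT hSIN q hq0 hq1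
  obtain ⟨C, hC, hS⟩ := hSIN q hq0 hq1
  refine ⟨32 * C ^ 2, by positivity, fun l m hlm => ?_⟩
  set w : ℝ → ENNReal := wt q l m with hw
  have hwm : Measurable w := AVG.measurable_wt q l m
  set d : ℝ := 2 * C * 8 ^ (q * l) / 2 ^ (m - l) with hd
  have hd0 : 0 ≤ d := by positivity
  have hswap : ∫⁻ t in Icc (1 / 4 : ℝ) 1, ∫⁻ x in Icc (1 / 4 ^ l : ℝ) 1, w x * w (t * x) =
      ∫⁻ x in Icc (1 / 4 ^ l : ℝ) 1, ∫⁻ t in Icc (1 / 4 : ℝ) 1, w x * w (t * x) := by
    refine lintegral_lintegral_swap ?_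
    refine Measurable.aemeasurable ?_
    exact (hwm.comp measurable_snd).mul (hwm.comp (measurable_fst.mul measurable_snd))
  rw [hswap]
  have h1 : ∀ i ∈ Finset.range (l + 1), ∫⁻ x in Icc (1 / 4 ^ (i + 1) : ℝ) (1 / 4 ^ i),
      ∫⁻ t in Icc (1 / 4 : ℝ) 1, w x * w (t * x) ≤ ENNReal.ofReal (4 * d ^ 2 / 4 ^ i) := by
    intro i hi
    have hi' : i ≤ l := Nat.lt_succ_iff.1 (Finset.mem_range.1 hi)
    have hW := AVG.W_le hq0 hq1 hT hC hS hi' hlm
    calc ∫⁻ x in Icc (1 / 4 ^ (i + 1) : ℝ) (1 / 4 ^ i),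
        ∫⁻ t in Icc (1 / 4 : ℝ) 1, w x * w (t * x) ≤
        ∫⁻ x in Icc (1 / 4 ^ (i + 1) : ℝ) (1 / 4 ^ i),
          w x * ENNReal.ofReal (4 ^ (i + 1) * (d / 4 ^ i)) := by
          refine setLIntegral_mono (hwm.mul_const _) fun x hx => ?_
          have e : ∫⁻ t in Icc (1 / 4 : ℝ) 1, w x * w (t * x) =
              w x * ∫⁻ t in Icc (1 / 4 : ℝ) 1, w (t * x) :=
            lintegral_const_mul _ (hwm.comp (measurable_id.mul_const x))
          rw [e]
          refine mul_le_mul_right ?_ _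
          refine (AVG.inner_le q hx.1 hx.2).trans ?_
          rw [ENNReal.ofReal_mul (by positivity)]
          exact mul_le_mul_right hW _
      _ = (∫⁻ x in Icc (1 / 4 ^ (i + 1) : ℝ) (1 / 4 ^ i), w x) *
          ENNReal.ofReal (4 ^ (i + 1) * (d / 4 ^ i)) := lintegral_mul_const _ hwm
      _ ≤ ENNReal.ofReal (d / 4 ^ i) * ENNReal.ofReal (4 ^ (i + 1) * (d / 4 ^ i)) := by
          refine mul_le_mul_left ((lintegral_mono_set ?_).trans hW) _
          exact Icc_subset_Icc (by positivity) le_rfl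
      _ = _ := by
          rw [← ENNReal.ofReal_mul (by positivity)]
          congr 1
          rw [pow_succ]
          field_simp
  calc ∫⁻ x in Icc (1 / 4 ^ l : ℝ) 1, ∫⁻ t in Icc (1 / 4 : ℝ) 1, w x * w (t * x) ≤
      ∫⁻ x in ⋃ i ∈ Finset.range (l + 1), Icc (1 / 4 ^ (i + 1) : ℝ) (1 / 4 ^ i),
        ∫⁻ t in Icc (1 / 4 : ℝ) 1, w x * w (t * x) := lintegral_mono_set (AVG.cover l)
    _ ≤ ∑ i ∈ Finset.range (l + 1), ∫⁻ x in Icc (1 / 4 ^ (i + 1) : ℝ) (1 / 4 ^ i),
        ∫⁻ t in Icc (1 / 4 : ℝ) 1, w x * w (t * x) :=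
        AVG.lintegral_biUnion_le _ _ _
    _ ≤ ∑ i ∈ Finset.range (l + 1), ENNReal.ofReal (4 * d ^ 2 / 4 ^ i) :=
        Finset.sum_le_sum h1
    _ = ENNReal.ofReal (∑ i ∈ Finset.range (l + 1), 4 * d ^ 2 / 4 ^ i) :=
        (ENNReal.ofReal_sum_of_nonneg fun i _ => by positivity).symm
    _ ≤ _ := by
        refine ENNReal.ofReal_le_ofReal ?_
        have h2 : ∀ n : ℕ, ∑ i ∈ Finset.range n, 4 * d ^ 2 / 4 ^ i ≤
            8 * d ^ 2 - 8 * (d ^ 2 / 4 ^ n) := by
          intro n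
          induction n with
          | zero =>
            simp
          | succ n ih =>
            rw [Finset.sum_range_succ]
            have h3 : d ^ 2 / 4 ^ (n + 1) = (d ^ 2 / 4 ^ n) / 4 := by
              rw [pow_succ (4 : ℝ) n]
              field_simp
            have h4 : 0 ≤ d ^ 2 / 4 ^ n := by positivity
            have h5 : 4 * d ^ 2 / 4 ^ n = 4 * (d ^ 2 / 4 ^ n) := by ring
            rw [h3, h5]
            linarith
        have h6 : 0 ≤ d ^ 2 / 4 ^ (l + 1) := by positivity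
        have h7 : d ^ 2 = 4 * C ^ 2 * (64 ^ (q * l) / 4 ^ (m - l)) := by
          have e1 : ((8 : ℝ) ^ (q * l)) ^ 2 = 64 ^ (q * l) := by
            rw [← Real.rpow_natCast, ← Real.rpow_mul (by norm_num), mul_comm,
              Real.rpow_mul (by norm_num)]
            norm_num
          have e2 : ((2 : ℝ) ^ (m - l)) ^ 2 = 4 ^ (m - l) := by
            rw [← pow_mul, mul_comm, pow_mul]
            norm_num
          rw [hd, div_pow, mul_pow, mul_pow, e1, e2]
          ring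
        calc ∑ i ∈ Finset.range (l + 1), 4 * d ^ 2 / 4 ^ i ≤ 8 * d ^ 2 := by
              have := h2 (l + 1)
              linarith
          _ = _ := by
              rw [h7]
              ring

end Pool.Agent.FCC
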