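import Pool.Agent.FCC.Stmts

/-!
# Averages over words (AVP)
-/

namespace Pool.Agent.FCC

open MeasureTheory Set

namespace AVP

open Classical in
theorem av_def (k : ℕ) {n : ℕ} (g : Wd n → ℂ) (w : Wd n) :
    av k g w = (∑ v ∈ Finset.univ.filter (fun v : Wd n => agr k w v), g v) / 4 ^ (n - k) := by
  unfold av
  congr! 2

open Classical in
theorem filter_eq {k n : ℕ} {v w : Wd n} (h : agr k v w) :
    Finset.univ.filter (fun u : Wd n => agr k v u) =
      Finset.univ.filter (fun u : Wd n => agr k w u) := by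
  ext u
  simp only [Finset.mem_filter, Finset.mem_univ, true_and]
  exact ⟨fun h' => agr_trans (agr_symm h) h', fun h' => agr_trans h h'⟩

theorem av_congr_class {k n : ℕ} (g : Wd n → ℂ) {v w : Wd n} (h : agr k v w) :
    av k g v = av k g w := by
  rw [av_def, av_def, filter_eq h]

theorem four_ne (m : ℕ) : (4 : ℂ) ^ m ≠ 0 := pow_ne_zero _ (by norm_num)

open Classical in
/-- the average of a function which is constant on the class -/
theorem av_const {k n : ℕ} (hk : k ≤ n) (g : Wd n → ℂ) (w : Wd n) (c : ℂ)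
    (h : ∀ v, agr k w v → g v = c) : av k g w = c := by
  rw [av_def, Finset.sum_congr rfl (fun v hv => h v (Finset.mem_filter.1 hv).2),
    Finset.sum_const, card_agr hk w, nsmul_eq_mul]
  push_cast
  rw [mul_comm, mul_div_assoc, div_self (four_ne _), mul_one]

theorem av_full {k n : ℕ} (hk : k = n) (g : Wd n → ℂ) (w : Wd n) : av k g w = g w := by
  subst hk
  exact av_const le_rfl g w (g w) fun v hv => by rw [(agr_full le_rfl).1 hv]

open Classical in
theorem av_av {k l n : ℕ} (hkl : k ≤ l) (hl : l ≤ n) (g : Wd n → ℂ) (w : Wd n) :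
    av k (av l g) w = av k g w := by
  rw [av_def, av_def]
  congr 1
  have h1 : ∀ v ∈ Finset.univ.filter (fun v : Wd n => agr k w v), av l g v =
      ∑ u ∈ Finset.univ.filter (fun u : Wd n => agr k w u),
        if agr l v u then g u / 4 ^ (n - l) else 0 := by
    intro v hv
    have hv' := (Finset.mem_filter.1 hv).2
    rw [av_def, Finset.sum_div, ← Finset.sum_filter, Finset.filter_filter]
    refine Finset.sum_congr ?_ fun _ _ => rfl
    ext u
    simp only [Finset.mem_filter, Finset.mem_univ, true_and]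
    exact ⟨fun h => ⟨agr_trans hv' (agr_mono hkl h), h⟩, fun h => h.2⟩
  rw [Finset.sum_congr rfl h1, Finset.sum_comm]
  refine Finset.sum_congr rfl fun u hu => ?_
  have hu' := (Finset.mem_filter.1 hu).2
  rw [← Finset.sum_filter, Finset.sum_const, Finset.filter_filter]
  have h2 : Finset.univ.filter (fun v : Wd n => agr k w v ∧ agr l v u) =
      Finset.univ.filter (fun v : Wd n => agr l u v) := by
    ext v
    simp only [Finset.mem_filter, Finset.mem_univ, true_and]
    exact ⟨fun h => agr_symm h.2, fun h => ⟨agr_trans hu' (agr_mono hkl h), agr_symm h⟩⟩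
  rw [h2, card_agr hl u, nsmul_eq_mul]
  push_cast
  rw [mul_div_assoc', mul_comm, mul_div_assoc, div_self (four_ne _), mul_one]

theorem av_av' {k l n : ℕ} (hkl : k ≤ l) (hl : l ≤ n) (g : Wd n → ℂ) (w : Wd n) :
    av l (av k g) w = av k g w :=
  av_const hl _ w _ fun _ hv => (av_congr_class g (agr_mono hkl hv)).symm

open Classical in
theorem av_mul {k n : ℕ} (g h : Wd n → ℂ) (w : Wd n) (hh : ∀ u v, agr k u v → h u = h v) :
    av k (fun v => h v * g v) w = h w * av k g w := by
  rw [av_def, av_def, mul_div_assoc', Finset.mul_sum]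
  congr 1
  exact Finset.sum_congr rfl fun v hv => by rw [hh w v (Finset.mem_filter.1 hv).2]

open Classical in
theorem av_close {k n : ℕ} (hk : k ≤ n) (g : Wd n → ℂ) (w : Wd n) (z : ℂ) (r : ℝ)
    (h : ∀ v, agr k w v → ‖g v - z‖ ≤ r) : ‖av k g w - z‖ ≤ r := by
  have h1 : av k g w - z =
      (∑ v ∈ Finset.univ.filter (fun v : Wd n => agr k w v), (g v - z)) / 4 ^ (n - k) := by
    rw [av_def, Finset.sum_sub_distrib, Finset.sum_const, card_agr hk w, nsmul_eq_mul, sub_div]
    push_cast
    rw [mul_comm ((4 : ℂ) ^ (n - k)) z, mul_div_assoc z, div_self (four_ne _), mul_one]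
  rw [h1, norm_div, norm_pow]
  have h4 : ‖(4 : ℂ)‖ = 4 := by norm_num
  rw [h4, div_le_iff₀ (by positivity)]
  calc ‖∑ v ∈ Finset.univ.filter (fun v : Wd n => agr k w v), (g v - z)‖
      ≤ ∑ v ∈ Finset.univ.filter (fun v : Wd n => agr k w v), ‖g v - z‖ := norm_sum_le _ _
    _ ≤ ∑ _v ∈ Finset.univ.filter (fun v : Wd n => agr k w v), r :=
        Finset.sum_le_sum fun v hv => h v (Finset.mem_filter.1 hv).2
    _ = r * 4 ^ (n - k) := by
        rw [Finset.sum_const, card_agr hk w, nsmul_eq_mul]
        push_cast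
        ring

open Classical in
theorem av_add {k n : ℕ} (g h : Wd n → ℂ) (w : Wd n) :
    av k (fun v => g v + h v) w = av k g w + av k h w := by
  rw [av_def, av_def, av_def, Finset.sum_add_distrib, add_div]

open Classical in
theorem av_re {k n : ℕ} (g : Wd n → ℂ) (w : Wd n) :
    av k (fun v => ((g v).re : ℂ)) w = ((av k g w).re : ℂ) := by
  rw [av_def, av_def]
  have h4 : ((4 : ℂ) ^ (n - k)) = (((4 : ℝ) ^ (n - k) : ℝ) : ℂ) := by push_cast; rfl
  rw [h4, Complex.div_ofReal_re, Complex.re_sum]
  push_cast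
  rfl

end AVP

theorem AVP_thm : Stmt_AVP := by
  intro n k hk
  refine ⟨fun g v w h => AVP.av_congr_class g h, fun g v w h => AVP.av_full h g w,
    fun g l w hkl hl => AVP.av_av hkl hl g w, fun g l w hkl hl => AVP.av_av' hkl hl g w,
    fun g h w hh => AVP.av_mul g h w hh, fun g w z r h => AVP.av_close hk g w z r h,
    fun g h w => AVP.av_add g h w, fun g w => AVP.av_re g w⟩

end Pool.Agent.FCC
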