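import Pool.Agent.FCC.Stmts

/-!
# Four corner Cantor sets: energy in blocks
-/

namespace Pool.Agent.FCC.BLK

open MeasureTheory Set

theorem Psi_zero (z : ℝ) : Psi 0 z = 1 := by
  unfold Psi
  simp

theorem Psi_succ (N : ℕ) (z : ℝ) : Psi (N + 1) z = Psi N z * Real.cos (z / 4 ^ (N + 1)) ^ 2 := by
  unfold Psi
  rw [Finset.prod_Icc_succ_top (by omega)]

theorem Psi_nonneg (N : ℕ) (z : ℝ) : 0 ≤ Psi N z :=
  Finset.prod_nonneg fun _ _ => sq_nonneg _

theorem Psi_le_one (N : ℕ) (z : ℝ) : Psi N z ≤ 1 :=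
  Finset.prod_le_one (fun _ _ => sq_nonneg _) fun _ _ => Real.cos_sq_le_one _

theorem Q_nonneg (a b : ℕ) (x : ℝ) : 0 ≤ Q a b x :=
  Finset.prod_nonneg fun _ _ => sq_nonneg _

theorem Q_zero (x : ℝ) : Q 0 0 x = 1 := by
  unfold Q
  simp

theorem Q_succ (m : ℕ) (x : ℝ) : Q 0 (m + 1) x = Q 0 m x * Real.cos (4 ^ m * x) ^ 2 := by
  unfold Q
  rw [Finset.prod_Ico_succ_top (Nat.zero_le m)]

theorem Psi_four (N : ℕ) (z : ℝ) : Psi (N + 1) (4 * z) = Real.cos z ^ 2 * Psi N z := by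
  induction N with
  | zero =>
    rw [Psi_succ, Psi_zero, Psi_zero, one_mul, mul_one]
    congr 2
    ring
  | succ N ih =>
    rw [Psi_succ, ih, Psi_succ N z, mul_assoc]
    congr 4
    rw [pow_succ 4 (N + 1)]
    field_simp

theorem Psi_scale (m M : ℕ) (x : ℝ) : Psi (m + M) (4 ^ m * x) = Q 0 m x * Psi M x := by
  induction m with
  | zero => rw [Q_zero, Nat.zero_add, pow_zero, one_mul, one_mul]
  | succ m ih =>
    have e1 : m + 1 + M = (m + M) + 1 := by omega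
    have e2 : (4 : ℝ) ^ (m + 1) * x = 4 * (4 ^ m * x) := by ring
    rw [e1, e2, Psi_four, ih, Q_succ]
    ring

theorem cos_sq_ge (y : ℝ) : 1 - y ^ 2 ≤ Real.cos y ^ 2 := by
  have h := Real.sin_sq_le_sq (x := y)
  have h2 := Real.sin_sq_add_cos_sq y
  linarith

theorem Psi_ge_aux (M : ℕ) {x : ℝ} (h0 : 0 ≤ x) (h1 : x ≤ 1) :
    14 / 15 + 1 / 15 / 16 ^ M ≤ Psi M x := by
  induction M with
  | zero => rw [Psi_zero]; norm_num
  | succ M ih =>
    rw [Psi_succ]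
    have h3 := cos_sq_ge (x / 4 ^ (M + 1))
    have h4 : (x / 4 ^ (M + 1)) ^ 2 ≤ 1 / 16 ^ (M + 1) := by
      rw [div_pow, ← pow_mul, mul_comm (M + 1) 2, pow_mul]
      have h5 : x ^ 2 ≤ 1 := by nlinarith
      have h6 : ((4 : ℝ) ^ 2) ^ (M + 1) = 16 ^ (M + 1) := by norm_num
      rw [h6]
      exact div_le_div_of_nonneg_right h5 (by positivity)
    have h7 := Psi_le_one M x
    have h8 := Psi_nonneg M x
    have h9 : Psi M x * (1 - 1 / 16 ^ (M + 1)) ≤ Psi M x * Real.cos (x / 4 ^ (M + 1)) ^ 2 :=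
      mul_le_mul_of_nonneg_left (by linarith) h8
    have h10 : (0 : ℝ) < 1 / 16 ^ (M + 1) := by positivity
    have h11 : Psi M x * (1 / 16 ^ (M + 1)) ≤ 1 * (1 / 16 ^ (M + 1)) :=
      mul_le_mul_of_nonneg_right h7 h10.le
    have h12 : (1 : ℝ) / 15 / 16 ^ M = 16 / 15 * (1 / 16 ^ (M + 1)) := by
      rw [pow_succ]
      field_simp
    have h13 : (1 : ℝ) / 15 / 16 ^ (M + 1) = 1 / 15 * (1 / 16 ^ (M + 1)) := by
      ring
    rw [h13]
    rw [h12] at ih
    nlinarith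

theorem Psi_ge (M : ℕ) {x : ℝ} (h0 : 0 ≤ x) (h1 : x ≤ 1) : 14 / 15 ≤ Psi M x := by
  have h := Psi_ge_aux M h0 h1
  have h2 : (0 : ℝ) < 1 / 15 / 16 ^ M := by positivity
  linarith

theorem point {N m : ℕ} (hm : m ≤ N) {t x : ℝ} (ht0 : 0 ≤ t) (ht1 : t ≤ 1) (h0 : 0 ≤ x)
    (h1 : x ≤ 1) :
    Q 0 m x * Q 0 m (t * x) ≤ 2 * (Psi N (4 ^ m * x) * Psi N (t * (4 ^ m * x))) := by
  obtain ⟨M, rfl⟩ := Nat.exists_eq_add_of_le hm
  have e : t * (4 ^ m * x) = 4 ^ m * (t * x) := by ring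
  rw [e, Psi_scale, Psi_scale]
  have h2 := Psi_ge M h0 h1
  have h3 := Psi_ge M (mul_nonneg ht0 h0) (mul_le_one₀ ht1 h0 h1)
  have h4 : (14 / 15 : ℝ) * (14 / 15) ≤ Psi M x * Psi M (t * x) :=
    mul_le_mul h2 h3 (by norm_num) (by linarith)
  have h5 : 0 ≤ Q 0 m x * Q 0 m (t * x) := mul_nonneg (Q_nonneg _ _ _) (Q_nonneg _ _ _)
  calc Q 0 m x * Q 0 m (t * x) = Q 0 m x * Q 0 m (t * x) * 1 := (mul_one _).symm
    _ ≤ Q 0 m x * Q 0 m (t * x) * (2 * (Psi M x * Psi M (t * x))) :=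
        mul_le_mul_of_nonneg_left (by linarith) h5
    _ = _ := by ring

theorem continuous_Psi (N : ℕ) : Continuous (Psi N) := by
  unfold Psi
  fun_prop

theorem continuous_Q (a b : ℕ) : Continuous (Q a b) := by
  unfold Q
  fun_prop

theorem continuous_g (N : ℕ) (t : ℝ) : Continuous fun z => Psi N z * Psi N (t * z) :=
  (continuous_Psi N).mul ((continuous_Psi N).comp (continuous_const.mul continuous_id))

theorem continuous_q (m : ℕ) (t : ℝ) : Continuous fun x => Q 0 m x * Q 0 m (t * x) :=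
  (continuous_Q 0 m).mul ((continuous_Q 0 m).comp (continuous_const.mul continuous_id))

theorem block {N m : ℕ} (hm : m ≤ N) {t a : ℝ} (ht0 : 0 ≤ t) (ht1 : t ≤ 1) (h0 : 0 ≤ a)
    (h1 : a ≤ 1) :
    4 ^ m * ∫ x in a..1, Q 0 m x * Q 0 m (t * x) ≤
      2 * ∫ z in (4 ^ m * a)..4 ^ m, Psi N z * Psi N (t * z) := by
  have hs := intervalIntegral.mul_integral_comp_mul_left (a := a) (b := 1)
    (f := fun z => Psi N z * Psi N (t * z)) ((4 : ℝ) ^ m)
  rw [mul_one] at hs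
  rw [← hs, ← mul_assoc, mul_comm (2 : ℝ), mul_assoc]
  refine mul_le_mul_of_nonneg_left ?_ (by positivity)
  rw [← intervalIntegral.integral_const_mul]
  refine intervalIntegral.integral_mono_on h1 ((continuous_q m t).intervalIntegrable _ _) ?_ ?_
  · refine Continuous.intervalIntegrable ?_ _ _
    exact continuous_const.mul
      ((continuous_g N t).comp (continuous_const.mul continuous_id))
  · intro x hx
    exact point hm ht0 ht1 (h0.trans hx.1) hx.2

theorem mono_int {N : ℕ} {t a b c : ℝ} (h0 : 0 ≤ a) (_hab : a ≤ b) (hbc : b ≤ c) :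
    ∫ z in a..b, Psi N z * Psi N (t * z) ≤ ∫ z in (0 : ℝ)..c, Psi N z * Psi N (t * z) := by
  have hi : ∀ u v : ℝ, IntervalIntegrable (fun z => Psi N z * Psi N (t * z)) volume u v :=
    fun u v => (continuous_g N t).intervalIntegrable u v
  have hn : ∀ u v : ℝ, u ≤ v → 0 ≤ ∫ z in u..v, Psi N z * Psi N (t * z) := fun u v huv =>
    intervalIntegral.integral_nonneg huv fun z _ => mul_nonneg (Psi_nonneg _ _) (Psi_nonneg _ _)
  have h1 := intervalIntegral.integral_add_adjacent_intervals (hi 0 a) (hi a b)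
  have h2 := intervalIntegral.integral_add_adjacent_intervals (hi 0 b) (hi b c)
  have h3 := hn 0 a h0
  have h4 := hn b c hbc
  linarith

theorem telescope (N l R : ℕ) (t : ℝ) :
    ∑ r ∈ Finset.Icc 1 R, ∫ z in (4 ^ ((r - 1) * l) : ℝ)..4 ^ (r * l), Psi N z * Psi N (t * z) =
      ∫ z in (1 : ℝ)..4 ^ (R * l), Psi N z * Psi N (t * z) := by
  have hi : ∀ u v : ℝ, IntervalIntegrable (fun z => Psi N z * Psi N (t * z)) volume u v :=
    fun u v => (continuous_g N t).intervalIntegrable u v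
  induction R with
  | zero => simp
  | succ R ih =>
    rw [Finset.sum_Icc_succ_top (by omega), ih, Nat.add_sub_cancel]
    exact intervalIntegral.integral_add_adjacent_intervals (hi _ _) (hi _ _)

end Pool.Agent.FCC.BLK

namespace Pool.Agent.FCC

open MeasureTheory Set

theorem BLK_thm : Stmt_FOU → Stmt_BLK := by
  intro hF N t ht0 ht1
  have hF' := hF N t ht0 ht1
  constructor
  · intro m hm
    have h1 := BLK.block hm ht0 ht1 (le_refl (0 : ℝ)) zero_le_one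
    rw [mul_zero] at h1
    have h2 : (4 : ℝ) ^ m ≤ 4 ^ N := pow_le_pow_right₀ (by norm_num) hm
    have h3 := BLK.mono_int (N := N) (t := t) (le_refl (0 : ℝ))
      (by positivity : (0 : ℝ) ≤ 4 ^ m) h2
    linarith
  · intro l R hl hR
    have h1 : ∀ r ∈ Finset.Icc 1 R, 4 ^ (r * l) *
        ∫ x in (1 / 4 ^ l : ℝ)..1, Q 0 (r * l) x * Q 0 (r * l) (t * x) ≤
        2 * ∫ z in (4 ^ ((r - 1) * l) : ℝ)..4 ^ (r * l), Psi N z * Psi N (t * z) := by
      intro r hr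
      rw [Finset.mem_Icc] at hr
      have hrN : r * l ≤ N := (Nat.mul_le_mul_right l hr.2).trans hR
      have hp : (1 : ℝ) ≤ 4 ^ l := one_le_pow₀ (by norm_num)
      have h2 := BLK.block hrN ht0 ht1 (by positivity : (0 : ℝ) ≤ 1 / 4 ^ l)
        (by rw [div_le_one (by positivity)]; exact hp)
      have h3 : (4 : ℝ) ^ (r * l) * (1 / 4 ^ l) = 4 ^ ((r - 1) * l) := by
        obtain ⟨s, rfl⟩ := Nat.exists_eq_add_of_le hr.1
        rw [Nat.add_sub_cancel_left, Nat.add_mul, one_mul, pow_add]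
        field_simp
      rwa [h3] at h2
    refine (Finset.sum_le_sum h1).trans ?_
    rw [← Finset.mul_sum, BLK.telescope]
    have h2 : (4 : ℝ) ^ (R * l) ≤ 4 ^ N := pow_le_pow_right₀ (by norm_num) hR
    have h3 := BLK.mono_int (N := N) (t := t) (zero_le_one : (0 : ℝ) ≤ 1)
      (one_le_pow₀ (by norm_num) : (1 : ℝ) ≤ 4 ^ (R * l)) h2
    linarith

end Pool.Agent.FCC
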