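import Pool.Agent.FCC.Defs

/-!
# Four corner Cantor sets: basic facts
-/

namespace Pool.Agent.FCC

open MeasureTheory Set

theorem bv_nonneg (b : Bool) : 0 ≤ bv b := by unfold bv; split <;> norm_num
theorem bv_le (b : Bool) : bv b ≤ 3 := by unfold bv; split <;> norm_num

/-- A sum over the words of length `n + m` is a double sum. -/
theorem sum_append {M : Type*} [AddCommMonoid M] (n m : ℕ) (g : Wd (n + m) → M) :
    ∑ w : Wd (n + m), g w = ∑ u : Wd n, ∑ v : Wd m, g (Fin.append u v) := by
  rw [← Fintype.sum_prod_type']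
  exact (Fintype.sum_equiv (Fin.appendEquiv n m) (fun p : Wd n × Wd m => g (Fin.append p.1 p.2)) g
    (fun p => rfl)).symm

theorem px_append {n m : ℕ} (u : Wd n) (v : Wd m) :
    px (Fin.append u v : Wd (n + m)) = px u + px v / 4 ^ n := by
  unfold px
  rw [Fin.sum_univ_add, Finset.sum_div]
  congr 1
  · exact Finset.sum_congr rfl fun i _ => by rw [Fin.append_left]; rfl
  · refine Finset.sum_congr rfl fun i _ => ?_
    rw [Fin.append_right, Fin.val_natAdd, div_div]
    congr 1
    ring

theorem py_append {n m : ℕ} (u : Wd n) (v : Wd m) :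
    py (Fin.append u v : Wd (n + m)) = py u + py v / 4 ^ n := by
  unfold py
  rw [Fin.sum_univ_add, Finset.sum_div]
  congr 1
  · exact Finset.sum_congr rfl fun i _ => by rw [Fin.append_left]; rfl
  · refine Finset.sum_congr rfl fun i _ => ?_
    rw [Fin.append_right, Fin.val_natAdd, div_div]
    congr 1
    ring

theorem pr_append (t : ℝ) {n m : ℕ} (u : Wd n) (v : Wd m) :
    pr t (Fin.append u v : Wd (n + m)) = pr t u + pr t v / 4 ^ n := by
  unfold pr
  rw [px_append, py_append]
  ring

theorem px_nonneg {n : ℕ} (w : Wd n) : 0 ≤ px w :=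
  Finset.sum_nonneg fun i _ => div_nonneg (bv_nonneg _) (by positivity)

theorem py_nonneg {n : ℕ} (w : Wd n) : 0 ≤ py w :=
  Finset.sum_nonneg fun i _ => div_nonneg (bv_nonneg _) (by positivity)

theorem geo (n : ℕ) : ∑ i : Fin n, (3 : ℝ) / 4 ^ (i.val + 1) = 1 - 1 / 4 ^ n := by
  rw [Fin.sum_univ_eq_sum_range (fun i => (3 : ℝ) / 4 ^ (i + 1)) n]
  induction n with
  | zero => simp
  | succ n ih =>
    rw [Finset.sum_range_succ, ih]
    field_simp
    ring

theorem px_le {n : ℕ} (w : Wd n) : px w ≤ 1 - 1 / 4 ^ n := by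
  rw [← geo]
  exact Finset.sum_le_sum fun i _ => div_le_div_of_nonneg_right (bv_le _) (by positivity)

theorem py_le {n : ℕ} (w : Wd n) : py w ≤ 1 - 1 / 4 ^ n := by
  rw [← geo]
  exact Finset.sum_le_sum fun i _ => div_le_div_of_nonneg_right (bv_le _) (by positivity)

theorem pr_nonneg {t : ℝ} (ht : 0 ≤ t) {n : ℕ} (w : Wd n) : 0 ≤ pr t w :=
  add_nonneg (px_nonneg w) (mul_nonneg ht (py_nonneg w))

theorem pr_le {t : ℝ} (ht : 0 ≤ t) {n : ℕ} (w : Wd n) : pr t w + (1 + t) / 4 ^ n ≤ 1 + t := by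
  unfold pr
  have h1 := px_le w
  have h2 := mul_le_mul_of_nonneg_left (py_le w) ht
  have h3 : (1 + t) / 4 ^ n = 1 / 4 ^ n + t * (1 / 4 ^ n) := by ring
  rw [h3]
  linarith

/-- The projection of a square is contained in the projection of its ancestors. -/
theorem psq_append_subset {t : ℝ} (ht : 0 ≤ t) {n m : ℕ} (u : Wd n) (v : Wd m) :
    psq t (Fin.append u v : Wd (n + m)) ⊆ psq t u := by
  unfold psq
  rw [pr_append]
  have h4 : (0 : ℝ) < 4 ^ n := by positivity
  have h1 : 0 ≤ pr t v / 4 ^ n := div_nonneg (pr_nonneg ht v) h4.le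
  have h2 : pr t v / 4 ^ n + (1 + t) / 4 ^ (n + m) ≤ (1 + t) / 4 ^ n := by
    have := div_le_div_of_nonneg_right (pr_le ht v) h4.le
    calc pr t v / 4 ^ n + (1 + t) / 4 ^ (n + m) = (pr t v + (1 + t) / 4 ^ m) / 4 ^ n := by
          rw [pow_add]; field_simp
      _ ≤ _ := this
  exact Icc_subset_Icc (by linarith) (by linarith)

theorem mem_psq_append {t : ℝ} {n m : ℕ} (u : Wd n) (v : Wd m) (x : ℝ) :
    x ∈ psq t (Fin.append u v : Wd (n + m)) ↔ 4 ^ n * (x - pr t u) ∈ psq t v := by
  unfold psq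
  rw [pr_append, mem_Icc, mem_Icc]
  have h4 : (0 : ℝ) < 4 ^ n := by positivity
  have e : 4 ^ n * (pr t u + pr t v / 4 ^ n) = 4 ^ n * pr t u + pr t v := by
    field_simp
  have e2 : 4 ^ n * (pr t u + pr t v / 4 ^ n + (1 + t) / 4 ^ (n + m)) =
      4 ^ n * pr t u + pr t v + (1 + t) / 4 ^ m := by
    rw [pow_add]; field_simp
  constructor
  · rintro ⟨h1, h2⟩
    have h1' := mul_le_mul_of_nonneg_left h1 h4.le
    have h2' := mul_le_mul_of_nonneg_left h2 h4.le
    rw [e] at h1'; rw [e2] at h2'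
    constructor <;> linarith
  · rintro ⟨h1, h2⟩
    constructor
    · refine le_of_mul_le_mul_left ?_ h4
      rw [e]; linarith
    · refine le_of_mul_le_mul_left ?_ h4
      rw [e2]; linarith

/-- The multiplicity function of generation `n + m` through that of generation `m`. -/
theorem f_add (n m : ℕ) (t x : ℝ) : f (n + m) t x = ∑ u : Wd n, f m t (4 ^ n * (x - pr t u)) := by
  unfold f
  rw [sum_append]
  refine Finset.sum_congr rfl fun u _ => Finset.sum_congr rfl fun v _ => ?_
  by_cases h : x ∈ psq t (Fin.append u v : Wd (n + m))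
  · rw [indicator_of_mem h, indicator_of_mem ((mem_psq_append u v x).1 h)]
  · rw [indicator_of_notMem h, indicator_of_notMem (fun h' => h ((mem_psq_append u v x).2 h'))]

/-- The projection of generation `n + m` through that of generation `m`. -/
theorem P_add (n m : ℕ) (t : ℝ) :
    P (n + m) t = ⋃ u : Wd n, {x | 4 ^ n * (x - pr t u) ∈ P m t} := by
  ext x
  unfold P
  simp only [mem_iUnion, mem_ofPred_eq]
  constructor
  · rintro ⟨w, hw⟩
    obtain ⟨⟨u, v⟩, rfl⟩ := (Fin.appendEquiv n m).surjective w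
    exact ⟨u, v, (mem_psq_append u v x).1 hw⟩
  · rintro ⟨u, v, h⟩
    exact ⟨_, (mem_psq_append u v x).2 h⟩

theorem f_nonneg (n : ℕ) (t x : ℝ) : 0 ≤ f n t x :=
  Finset.sum_nonneg fun w _ => indicator_nonneg (fun _ _ => zero_le_one) x

theorem f_le (n : ℕ) (t x : ℝ) : f n t x ≤ 4 ^ n := by
  unfold f
  calc ∑ w : Wd n, (psq t w).indicator (fun _ => (1 : ℝ)) x ≤ ∑ _ : Wd n, (1 : ℝ) :=
        Finset.sum_le_sum fun w _ => by
          by_cases h : x ∈ psq t w
          · rw [indicator_of_mem h]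
          · rw [indicator_of_notMem h]; norm_num
    _ = 4 ^ n := by
        rw [Finset.sum_const, Finset.card_univ]
        simp

/-- `f n t x` is the number of squares over `x`. -/
theorem f_eq_card (n : ℕ) (t x : ℝ) [DecidablePred fun w : Wd n => x ∈ psq t w] :
    f n t x = ((Finset.univ.filter fun w : Wd n => x ∈ psq t w).card : ℝ) := by
  unfold f
  rw [Finset.card_filter]
  push_cast
  refine Finset.sum_congr rfl fun w _ => ?_
  by_cases h : x ∈ psq t w
  · rw [indicator_of_mem h, if_pos h]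
  · rw [indicator_of_notMem h, if_neg h]

theorem mem_Icc_of_f_ne_zero {n : ℕ} {t x : ℝ} (ht : 0 ≤ t) (h : f n t x ≠ 0) :
    x ∈ Icc 0 (1 + t) := by
  obtain ⟨w, -, hw⟩ := Finset.exists_ne_zero_of_sum_ne_zero h
  have hx : x ∈ psq t w := by
    by_contra hx
    exact hw (indicator_of_notMem hx _)
  exact ⟨(pr_nonneg ht w).trans hx.1, hx.2.trans (pr_le ht w)⟩

theorem measurable_f (n : ℕ) (t : ℝ) : Measurable (f n t) := by
  unfold f
  exact Finset.measurable_sum _ fun w _ => measurable_const.indicator measurableSet_Icc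

theorem measurableSet_psq (t : ℝ) {n : ℕ} (w : Wd n) : MeasurableSet (psq t w) := measurableSet_Icc

theorem volume_psq (t : ℝ) {n : ℕ} (w : Wd n) :
    volume (psq t w) = ENNReal.ofReal ((1 + t) / 4 ^ n) := by
  unfold psq
  rw [Real.volume_Icc]
  congr 1
  ring

theorem integrable_ind (t : ℝ) {n : ℕ} (w : Wd n) :
    Integrable ((psq t w).indicator (fun _ => (1 : ℝ))) :=
  (integrable_indicator_iff (measurableSet_psq t w)).2
    (integrableOn_const (by rw [volume_psq]; exact ENNReal.ofReal_ne_top))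

theorem integrable_f (n : ℕ) (t : ℝ) : Integrable (f n t) := by
  unfold f
  exact integrable_finsetSum _ fun w _ => integrable_ind t w

theorem integrable_f_sq (n : ℕ) (t : ℝ) : Integrable (fun x => f n t x ^ 2) := by
  have h : Integrable (fun x => 4 ^ n * f n t x) := (integrable_f n t).const_mul _
  refine h.mono' ((measurable_f n t).pow_const 2).aestronglyMeasurable ?_
  refine Filter.Eventually.of_forall fun x => ?_
  rw [Real.norm_eq_abs, abs_of_nonneg (sq_nonneg _), sq]
  exact mul_le_mul_of_nonneg_right (f_le n t x) (f_nonneg n t x)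

theorem integral_f (n : ℕ) {t : ℝ} (ht : 0 ≤ t) : ∫ x, f n t x = 1 + t := by
  unfold f
  rw [integral_finsetSum _ fun w _ => integrable_ind t w]
  have h : ∀ w : Wd n, ∫ x, (psq t w).indicator (fun _ => (1 : ℝ)) x = (1 + t) / 4 ^ n := by
    intro w
    rw [integral_indicator (measurableSet_psq t w), setIntegral_const, Measure.real, volume_psq,
      ENNReal.toReal_ofReal (by positivity), smul_eq_mul, mul_one]
  rw [Finset.sum_congr rfl fun w _ => h w, Finset.sum_const, Finset.card_univ]
  simp only [Fintype.card_pi, Fintype.card_prod, Fintype.card_bool, Finset.prod_const,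
    Finset.card_univ, Fintype.card_fin, nsmul_eq_mul]
  push_cast
  have : (4 : ℝ) ^ n ≠ 0 := by positivity
  field_simp
  try norm_num

theorem S_nonneg (n : ℕ) (t : ℝ) : 0 ≤ S n t := integral_nonneg fun _ => sq_nonneg _

/-- change of variables -/
theorem integral_scale (g : ℝ → ℝ) (n : ℕ) (a : ℝ) :
    ∫ x, g (4 ^ n * (x - a)) = (∫ x, g x) / 4 ^ n := by
  have h1 := integral_sub_right_eq_self (fun x => g (4 ^ n * x)) a (μ := volume)
  rw [h1, Measure.integral_comp_mul_left g ((4 : ℝ) ^ n), abs_of_pos (by positivity), smul_eq_mul]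
  field_simp

theorem integrable_scale {g : ℝ → ℝ} (hg : Integrable g) (n : ℕ) (a : ℝ) :
    Integrable fun x => g (4 ^ n * (x - a)) :=
  (hg.comp_mul_left' (by positivity : (4 : ℝ) ^ n ≠ 0)).comp_sub_right a

theorem sum_sq_le {ι : Type*} (s : Finset ι) (g : ι → ℝ) (hg : ∀ i ∈ s, 0 ≤ g i) :
    ∑ i ∈ s, g i ^ 2 ≤ (∑ i ∈ s, g i) ^ 2 := by
  rw [sq (∑ i ∈ s, g i), Finset.sum_mul]
  refine Finset.sum_le_sum fun i hi => ?_
  rw [sq]
  exact mul_le_mul_of_nonneg_left (Finset.single_le_sum hg hi) (hg i hi)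

/-- The second moment does not decrease. -/
theorem S_le (n m : ℕ) (t : ℝ) : S m t ≤ S (n + m) t := by
  unfold S
  have h1 : ∀ x, ∑ u : Wd n, f m t (4 ^ n * (x - pr t u)) ^ 2 ≤ f (n + m) t x ^ 2 := by
    intro x
    rw [f_add]
    exact sum_sq_le _ _ fun u _ => f_nonneg _ _ _
  have h2 : ∀ u : Wd n, Integrable fun x => f m t (4 ^ n * (x - pr t u)) ^ 2 := fun u =>
    integrable_scale (integrable_f_sq m t) n (pr t u)
  have h3 : ∫ x, ∑ u : Wd n, f m t (4 ^ n * (x - pr t u)) ^ 2 = ∫ x, f m t x ^ 2 := by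
    rw [integral_finsetSum _ fun u _ => h2 u]
    have : ∀ u : Wd n, ∫ x, f m t (4 ^ n * (x - pr t u)) ^ 2 = (∫ x, f m t x ^ 2) / 4 ^ n :=
      fun u => integral_scale (fun x => f m t x ^ 2) n (pr t u)
    rw [Finset.sum_congr rfl fun u _ => this u, Finset.sum_const, Finset.card_univ]
    simp only [Fintype.card_pi, Fintype.card_prod, Fintype.card_bool, Finset.prod_const,
      Finset.card_univ, Fintype.card_fin, nsmul_eq_mul]
    push_cast
    field_simp
    try norm_num
  rw [← h3]
  exact integral_mono (integrable_finsetSum _ fun u _ => h2 u) (integrable_f_sq _ _) h1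

theorem S_mono (t : ℝ) : Monotone fun n => S n t := by
  intro m n h
  obtain ⟨k, rfl⟩ := Nat.exists_eq_add_of_le h
  rw [Nat.add_comm]
  exact S_le k m t

theorem S_zero {t : ℝ} (ht : 0 ≤ t) : S 0 t = 1 + t := by
  rw [← integral_f 0 ht]
  unfold S
  have key : ∀ (w : Wd 0) (x : ℝ), (psq t w).indicator (fun _ => (1 : ℝ)) x ^ 2 =
      (psq t w).indicator (fun _ => (1 : ℝ)) x := by
    intro w x
    by_cases h : x ∈ psq t w
    · rw [indicator_of_mem h]; norm_num
    · rw [indicator_of_notMem h]; norm_num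
  refine integral_congr_ae (Filter.Eventually.of_forall fun x => ?_)
  unfold f
  simp only [Finset.univ_unique, Finset.sum_singleton]
  exact key _ x

theorem measurableSet_P (n : ℕ) (t : ℝ) : MeasurableSet (P n t) :=
  MeasurableSet.iUnion fun _ => measurableSet_Icc

theorem P_subset (n : ℕ) {t : ℝ} (ht : 0 ≤ t) : P n t ⊆ Icc 0 (1 + t) := by
  intro x hx
  obtain ⟨w, hw⟩ := mem_iUnion.1 hx
  exact ⟨(pr_nonneg ht w).trans hw.1, hw.2.trans (pr_le ht w)⟩

theorem volume_P_ne_top (n : ℕ) (t : ℝ) : volume (P n t) ≠ ⊤ := by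
  have : volume (P n t) ≤ ∑ w : Wd n, volume (psq t w) := by
    unfold P
    exact measure_iUnion_fintype_le _ _
  refine ne_top_of_le_ne_top ?_ this
  refine ENNReal.sum_ne_top.2 fun w _ => ?_
  unfold psq
  rw [Real.volume_Icc]
  exact ENNReal.ofReal_ne_top

theorem L_nonneg (n : ℕ) (t : ℝ) : 0 ≤ L n t := ENNReal.toReal_nonneg

theorem L_le (n : ℕ) {t : ℝ} (ht : 0 ≤ t) : L n t ≤ 1 + t := by
  unfold L
  have h := measure_mono (μ := volume) (P_subset n ht)
  rw [Real.volume_Icc, sub_zero] at h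
  calc (volume (P n t)).toReal ≤ (ENNReal.ofReal (1 + t)).toReal :=
        ENNReal.toReal_mono ENNReal.ofReal_ne_top h
    _ = 1 + t := ENNReal.toReal_ofReal (by linarith)

theorem P_anti {t : ℝ} (ht : 0 ≤ t) (n m : ℕ) : P (n + m) t ⊆ P n t := by
  intro x hx
  obtain ⟨w, hw⟩ := mem_iUnion.1 hx
  obtain ⟨⟨u, v⟩, rfl⟩ := (Fin.appendEquiv n m).surjective w
  exact mem_iUnion.2 ⟨u, psq_append_subset ht u v hw⟩

theorem L_anti {t : ℝ} (ht : 0 ≤ t) : Antitone fun n => L n t := by
  intro m n h
  obtain ⟨k, rfl⟩ := Nat.exists_eq_add_of_le h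
  exact ENNReal.toReal_mono (volume_P_ne_top m t) (measure_mono (P_anti ht m k))

theorem measurableSet_joint (n : ℕ) (w : Wd n) : MeasurableSet {p : ℝ × ℝ | p.2 ∈ psq p.1 w} := by
  have : {p : ℝ × ℝ | p.2 ∈ psq p.1 w} = {p : ℝ × ℝ | px w + p.1 * py w ≤ p.2} ∩
      {p : ℝ × ℝ | p.2 ≤ px w + p.1 * py w + (1 + p.1) / 4 ^ n} := by
    ext p; rfl
  rw [this]
  exact (measurableSet_le (by fun_prop) (by fun_prop)).inter
    (measurableSet_le (by fun_prop) (by fun_prop))

theorem measurable_f_joint (n : ℕ) : Measurable fun p : ℝ × ℝ => f n p.1 p.2 := by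
  unfold f
  refine Finset.measurable_sum _ fun w _ => ?_
  have : (fun p : ℝ × ℝ => (psq p.1 w).indicator (fun _ => (1 : ℝ)) p.2) =
      {p : ℝ × ℝ | p.2 ∈ psq p.1 w}.indicator (fun _ => (1 : ℝ)) := by
    ext p
    by_cases h : p.2 ∈ psq p.1 w
    · rw [indicator_of_mem h, indicator_of_mem (show p ∈ {p : ℝ × ℝ | p.2 ∈ psq p.1 w} from h)]
    · rw [indicator_of_notMem h,
        indicator_of_notMem (show p ∉ {p : ℝ × ℝ | p.2 ∈ psq p.1 w} from h)]
  rw [this]
  exact measurable_const.indicator (measurableSet_joint n w)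

theorem measurable_S (n : ℕ) : Measurable (S n) := by
  unfold S
  have : StronglyMeasurable fun p : ℝ × ℝ => f n p.1 p.2 ^ 2 :=
    ((measurable_f_joint n).pow_const 2).stronglyMeasurable
  exact this.integral_prod_right.measurable

theorem measurable_L (n : ℕ) : Measurable (L n) := by
  unfold L
  have h : MeasurableSet {p : ℝ × ℝ | p.2 ∈ P n p.1} := by
    have : {p : ℝ × ℝ | p.2 ∈ P n p.1} = ⋃ w : Wd n, {p : ℝ × ℝ | p.2 ∈ psq p.1 w} := by
      ext p
      simp only [P, mem_iUnion, mem_ofPred_eq]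
    rw [this]
    exact MeasurableSet.iUnion fun w => measurableSet_joint n w
  exact (measurable_measure_prodMk_left h).ennreal_toReal

theorem agr_refl (k : ℕ) {n : ℕ} (w : Wd n) : agr k w w := fun _ _ => rfl

theorem agr_symm {k n : ℕ} {v w : Wd n} (h : agr k v w) : agr k w v := fun i hi => (h i hi).symm

theorem agr_trans {k n : ℕ} {u v w : Wd n} (h : agr k u v) (h' : agr k v w) : agr k u w :=
  fun i hi => (h i hi).trans (h' i hi)

theorem agr_mono {k l n : ℕ} (hkl : k ≤ l) {v w : Wd n} (h : agr l v w) : agr k v w :=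
  fun i hi => h i (lt_of_lt_of_le hi hkl)

theorem agr_full {k n : ℕ} (hk : n ≤ k) {v w : Wd n} : agr k v w ↔ v = w :=
  ⟨fun h => funext fun i => h i (lt_of_lt_of_le i.2 hk), fun h => h ▸ agr_refl k v⟩

theorem agr_append {k m : ℕ} (u u' : Wd k) (v v' : Wd m) :
    agr k (Fin.append u v : Wd (k + m)) (Fin.append u' v' : Wd (k + m)) ↔ u = u' := by
  constructor
  · intro h
    funext i
    have := h (Fin.castAdd m i) (by rw [Fin.val_castAdd]; exact i.2)
    rwa [Fin.append_left, Fin.append_left] at this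
  · rintro rfl i hi
    have : i = Fin.castAdd m ⟨i.val, hi⟩ := Fin.ext rfl
    rw [this, Fin.append_left, Fin.append_left]

/-- The number of the words of length `n`. -/
theorem card_Wd (n : ℕ) : Fintype.card (Wd n) = 4 ^ n := by
  simp only [Fintype.card_pi, Fintype.card_prod, Fintype.card_bool, Finset.prod_const,
    Finset.card_univ, Fintype.card_fin]
  try norm_num

open Classical in
/-- The sum over the words with the first `k` letters `u`. -/
theorem sum_agr {M : Type*} [AddCommMonoid M] {k m : ℕ} (g : Wd (k + m) → M) (u : Wd k)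
    (v : Wd m) :
    ∑ x ∈ Finset.univ.filter (fun x : Wd (k + m) => agr k (Fin.append u v : Wd (k + m)) x), g x =
      ∑ v' : Wd m, g (Fin.append u v') := by
  rw [Finset.sum_filter, sum_append]
  rw [Finset.sum_eq_single u]
  · exact Finset.sum_congr rfl fun v' _ => if_pos ((agr_append u u v v').2 rfl)
  · intro u' _ hu'
    exact Finset.sum_eq_zero fun v' _ => if_neg fun h => hu' ((agr_append u u' v v').1 h).symm
  · intro h
    exact absurd (Finset.mem_univ u) h

open Classical in
/-- The number of the words with the same first `k` letters as `w`. -/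
theorem card_agr {k n : ℕ} (hk : k ≤ n) (w : Wd n) :
    (Finset.univ.filter (fun x : Wd n => agr k w x)).card = 4 ^ (n - k) := by
  obtain ⟨m, rfl⟩ := Nat.exists_eq_add_of_le hk
  obtain ⟨⟨u, v⟩, rfl⟩ := (Fin.appendEquiv k m).surjective w
  have h := sum_agr (fun _ => (1 : ℕ)) u v
  rw [Finset.sum_const, Finset.sum_const, Finset.card_univ, card_Wd, smul_eq_mul, smul_eq_mul,
    mul_one, mul_one] at h
  rw [Nat.add_sub_cancel_left]
  exact h

open Classical in
/-- The number of the words whose first difference from `w` is at the letter `j`. -/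
theorem card_first {j n : ℕ} (hj : j < n) (w : Wd n) :
    (Finset.univ.filter (fun x : Wd n => agr j w x ∧ ¬ agr (j + 1) w x)).card =
      3 * 4 ^ (n - (j + 1)) := by
  have h1 := card_agr hj.le w
  have h2 := card_agr (show j + 1 ≤ n from hj) w
  have h3 : (Finset.univ.filter (fun x : Wd n => agr j w x ∧ ¬ agr (j + 1) w x)) =
      (Finset.univ.filter (fun x : Wd n => agr j w x)) \
        (Finset.univ.filter (fun x : Wd n => agr (j + 1) w x)) := by
    ext x
    simp only [Finset.mem_filter, Finset.mem_univ, true_and, Finset.mem_sdiff]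
  have h4 : (Finset.univ.filter (fun x : Wd n => agr (j + 1) w x)) ⊆
      (Finset.univ.filter (fun x : Wd n => agr j w x)) := by
    intro x hx
    simp only [Finset.mem_filter, Finset.mem_univ, true_and] at hx ⊢
    exact agr_mono (Nat.le_succ j) hx
  rw [h3, Finset.card_sdiff_of_subset h4, h1, h2]
  have h5 : n - j = (n - (j + 1)) + 1 := by omega
  rw [h5, pow_succ]
  omega

end Pool.Agent.FCC
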