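import Pool.Agent.FCC.Stmts

/-!
# Four corner Cantor sets: the analytic capacity of the generations
-/

namespace Pool.Agent.FCC

open MeasureTheory Set

namespace CAP

/-- Two different words have a first difference. -/
theorem exists_first {n : ℕ} {v w : Wd n} (h : v ≠ w) :
    ∃ j < n, agr j w v ∧ ¬ agr (j + 1) w v := by
  classical
  have hex : ∃ k, ¬ agr k w v := ⟨n, fun hh => h ((agr_full le_rfl).1 hh).symm⟩
  have hk := Nat.find_spec hex
  obtain ⟨j, hj⟩ : ∃ j, Nat.find hex = j + 1 := by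
    apply Nat.exists_eq_succ_of_ne_zero
    intro h0
    rw [h0] at hk
    exact hk (fun i hi => absurd hi (Nat.not_lt_zero _))
  refine ⟨j, ?_, ?_, ?_⟩
  · have : Nat.find hex ≤ n := Nat.find_min' hex (fun hh => h ((agr_full le_rfl).1 hh).symm)
    omega
  · by_contra hc
    exact Nat.find_min hex (m := j) (by omega) hc
  · rw [← hj]; exact hk

theorem norm_upper {z : ℂ} {h : ℝ} (hh : 0 ≤ h) (hx : |z.re| ≤ h / 2) (hy : |z.im| ≤ h / 2) :
    ‖z‖ ≤ 3 / 4 * h := by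
  have h1 : ‖z‖ ^ 2 = z.re ^ 2 + z.im ^ 2 := by
    rw [Complex.sq_norm, Complex.normSq_apply]; ring
  have h2 : z.re ^ 2 ≤ (h / 2) ^ 2 := by
    rw [← sq_abs z.re]; exact pow_le_pow_left₀ (abs_nonneg _) hx 2
  have h3 : z.im ^ 2 ≤ (h / 2) ^ 2 := by
    rw [← sq_abs z.im]; exact pow_le_pow_left₀ (abs_nonneg _) hy 2
  refine le_of_sq_le_sq ?_ (by positivity)
  nlinarith [sq_nonneg h]

/-- The kernel at a near point. -/
theorem term_bound {z cw cv : ℂ} {h D : ℝ} (hh : 0 < h) (hD : 2 * h ≤ D)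
    (h1 : ‖z - cw‖ ≤ 3 / 4 * h) (h2 : D ≤ ‖cw - cv‖) :
    ‖1 / (z - cv) - 1 / (cw - cv)‖ ≤ 6 / 5 * h / D ^ 2 := by
  have hD0 : 0 < D := by linarith
  have hd0 : 0 < ‖cw - cv‖ := lt_of_lt_of_le hD0 h2
  have h3 : ‖cw - cv‖ ≤ ‖z - cv‖ + ‖z - cw‖ := by
    have : cw - cv = (z - cv) - (z - cw) := by ring
    rw [this]; exact norm_sub_le _ _
  have h4 : 5 / 8 * ‖cw - cv‖ ≤ ‖z - cv‖ := by linarith
  have hz0 : 0 < ‖z - cv‖ := lt_of_lt_of_le (by positivity) h4
  have e : 1 / (z - cv) - 1 / (cw - cv) = -(z - cw) / ((z - cv) * (cw - cv)) := by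
    have hA : z - cv ≠ 0 := norm_pos_iff.1 hz0
    have hB : cw - cv ≠ 0 := norm_pos_iff.1 hd0
    field_simp
    ring
  rw [e, norm_div, norm_neg, norm_mul]
  rw [div_le_div_iff₀ (by positivity) (by positivity)]
  have h5 : 5 / 8 * D * D ≤ ‖z - cv‖ * ‖cw - cv‖ := by
    apply mul_le_mul _ h2 hD0.le hz0.le
    linarith
  have h6 : ‖z - cw‖ * D ^ 2 ≤ 3 / 4 * h * D ^ 2 := mul_le_mul_of_nonneg_right h1 (sq_nonneg D)
  have h7 : 6 / 5 * h * (5 / 8 * D * D) ≤ 6 / 5 * h * (‖z - cv‖ * ‖cw - cv‖) :=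
    mul_le_mul_of_nonneg_left h5 (by positivity)
  nlinarith

theorem geom (n : ℕ) : ∑ j ∈ Finset.range n, (4 : ℝ) ^ j / 4 ^ n ≤ 1 / 3 := by
  rw [← Finset.sum_div, geom_sum_eq (by norm_num)]
  rw [div_le_iff₀ (by positivity)]
  have : (0 : ℝ) < 4 ^ n := by positivity
  norm_num
  linarith

open Classical in
/-- The sum of the kernel differences. -/
theorem sum_bound {n : ℕ} (w : Wd n) (F : Wd n → ℝ)
    (hF : ∀ j < n, ∀ v, agr j w v → ¬ agr (j + 1) w v → F v ≤ 24 / 5 * 16 ^ j / 16 ^ n) :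
    ∑ v ∈ Finset.univ.filter (fun v : Wd n => v ≠ w), F v ≤ 6 / 5 := by
  have h1 : ∀ v ∈ Finset.univ.filter (fun v : Wd n => v ≠ w), F v ≤
      ∑ j ∈ Finset.range n, if agr j w v ∧ ¬ agr (j + 1) w v then
        (24 / 5 * 16 ^ j / 16 ^ n : ℝ) else 0 := by
    intro v hv
    rw [Finset.mem_filter] at hv
    obtain ⟨j, hj, h1, h2⟩ := exists_first hv.2
    refine le_trans (hF j hj v h1 h2) ?_
    have h3 : (24 / 5 * 16 ^ j / 16 ^ n : ℝ) =
        if agr j w v ∧ ¬ agr (j + 1) w v then (24 / 5 * 16 ^ j / 16 ^ n : ℝ) else 0 :=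
      (if_pos ⟨h1, h2⟩).symm
    rw [h3]
    refine Finset.single_le_sum (f := fun j => if agr j w v ∧ ¬ agr (j + 1) w v then
        (24 / 5 * 16 ^ j / 16 ^ n : ℝ) else 0) (fun i _ => ?_) (Finset.mem_range.2 hj)
    split_ifs
    · positivity
    · exact le_rfl
  refine le_trans (Finset.sum_le_sum h1) ?_
  refine le_trans (Finset.sum_le_sum_of_subset_of_nonneg (Finset.filter_subset _ _)
    (fun i _ _ => Finset.sum_nonneg fun j _ => ?_)) ?_
  · split_ifs
    · positivity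
    · exact le_rfl
  rw [Finset.sum_comm]
  have h2 : ∀ j ∈ Finset.range n, (∑ v : Wd n, if agr j w v ∧ ¬ agr (j + 1) w v then
      (24 / 5 * 16 ^ j / 16 ^ n : ℝ) else 0) = 18 / 5 * (4 ^ j / 4 ^ n) := by
    intro j hj
    rw [Finset.mem_range] at hj
    rw [← Finset.sum_filter, Finset.sum_const, card_first hj w, nsmul_eq_mul]
    have h3 : (4 : ℝ) ^ n = 4 ^ (n - (j + 1)) * (4 * 4 ^ j) := by
      rw [← pow_succ', ← pow_add]; congr 1; omega
    have h4 : (16 : ℝ) ^ n = 4 ^ n * 4 ^ n := by rw [← mul_pow]; norm_num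
    have h5 : (16 : ℝ) ^ j = 4 ^ j * 4 ^ j := by rw [← mul_pow]; norm_num
    rw [h4, h5, h3]
    push_cast
    field_simp
    norm_num
  rw [Finset.sum_congr rfl h2, ← Finset.mul_sum]
  have := geom n
  linarith

theorem open_sq {n : ℕ} (hE : E n = ⋃ w : Wd n, {z : ℂ | z.re ∈ Icc (px w) (px w + 1 / 4 ^ n) ∧
    z.im ∈ Icc (py w) (py w + 1 / 4 ^ n)}) (w : Wd n) (z : ℂ)
    (h1 : z.re ∈ Ioo (px w) (px w + 1 / 4 ^ n)) (h2 : z.im ∈ Ioo (py w) (py w + 1 / 4 ^ n)) :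
    z ∈ interior (E n) := by
  have ho : IsOpen (Complex.re ⁻¹' Ioo (px w) (px w + 1 / 4 ^ n) ∩
      Complex.im ⁻¹' Ioo (py w) (py w + 1 / 4 ^ n)) :=
    (isOpen_Ioo.preimage Complex.continuous_re).inter (isOpen_Ioo.preimage Complex.continuous_im)
  refine interior_mono (s := Complex.re ⁻¹' Ioo (px w) (px w + 1 / 4 ^ n) ∩
      Complex.im ⁻¹' Ioo (py w) (py w + 1 / 4 ^ n)) ?_ ?_
  · intro y hy
    rw [hE, mem_iUnion]
    exact ⟨w, Ioo_subset_Icc_self hy.1, Ioo_subset_Icc_self hy.2⟩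
  · rw [ho.interior_eq]
    exact ⟨h1, h2⟩

end CAP

open CAP in
theorem CAP_thm : Stmt_SUMM → Stmt_GEO → Stmt_DIST → Stmt_MAXP → Stmt_CAP := by
  intro hSUMM hGEO hDIST hMAXP n hn
  classical
  obtain ⟨b, hb01, hbsum, hT⟩ := hSUMM n hn
  obtain ⟨hE, -, -, hEc, -⟩ := hGEO n
  have hN : (0 : ℝ) < 4 ^ n := by positivity
  have hh : (0 : ℝ) < 1 / 4 ^ n := by positivity
  have hcc : ∀ w : Wd n, (cc w).re = px w + 1 / 4 ^ n / 2 ∧ (cc w).im = py w + 1 / 4 ^ n / 2 := by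
    intro w
    unfold cc
    constructor <;> simp only <;> ring
  have hs1 : 1 ≤ √(n : ℝ) := by
    rw [Real.one_le_sqrt]; exact_mod_cast hn
  have hint : ∀ w : Wd n, cc w ∈ interior (E n) := by
    intro w
    obtain ⟨h1, h2⟩ := hcc w
    refine open_sq hE w _ ?_ ?_
    · rw [h1]; constructor <;> linarith
    · rw [h2]; constructor <;> linarith
  have hfr : ∀ z ∈ frontier (E n), ‖∑ w, ((b w : ℂ) / 4 ^ n) / (z - cc w)‖ ≤ 31 * √n := by
    intro z hz
    have hzE : z ∈ E n := hEc.isClosed.frontier_subset hz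
    have hzi : z ∉ interior (E n) := hz.2
    rw [hE, mem_iUnion] at hzE
    obtain ⟨w, hw1, hw2⟩ := hzE
    obtain ⟨hc1, hc2⟩ := hcc w
    have hup : ‖z - cc w‖ ≤ 3 / 4 * (1 / 4 ^ n) := by
      refine norm_upper hh.le ?_ ?_
      · rw [Complex.sub_re, hc1, abs_le]
        constructor <;> linarith [hw1.1, hw1.2]
      · rw [Complex.sub_im, hc2, abs_le]
        constructor <;> linarith [hw2.1, hw2.2]
    have hlow : 1 / 4 ^ n / 2 ≤ ‖z - cc w‖ := by
      by_contra hcon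
      push Not at hcon
      refine hzi (open_sq hE w z ?_ ?_)
      · have h1 := lt_of_le_of_lt (Complex.abs_re_le_norm (z - cc w)) hcon
        rw [Complex.sub_re, hc1, abs_lt] at h1
        constructor <;> linarith [h1.1, h1.2]
      · have h1 := lt_of_le_of_lt (Complex.abs_im_le_norm (z - cc w)) hcon
        rw [Complex.sub_im, hc2, abs_lt] at h1
        constructor <;> linarith [h1.1, h1.2]
    have hsplit : ∑ v, ((b v : ℂ) / 4 ^ n) / (z - cc v) =
        ((b w : ℂ) / 4 ^ n) / (z - cc w) + T (fun v => (b v : ℂ)) w +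
          ∑ v ∈ Finset.univ.filter (fun v : Wd n => v ≠ w),
            ((b v : ℂ) / 4 ^ n) * (1 / (z - cc v) - 1 / (cc w - cc v)) := by
      unfold T
      rw [add_assoc, ← Finset.sum_add_distrib, ← Finset.add_sum_erase _ _ (Finset.mem_univ w)]
      congr 1
      rw [← Finset.filter_ne']
      refine Finset.sum_congr rfl fun v _ => ?_
      rw [← div_div]
      ring
    have hfirst : ‖((b w : ℂ) / 4 ^ n) / (z - cc w)‖ ≤ 2 := by
      have hp : 0 < ‖z - cc w‖ := lt_of_lt_of_le (by positivity) hlow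
      rw [norm_div, norm_div, Complex.norm_real, norm_pow, Real.norm_eq_abs,
        abs_of_nonneg (hb01 w).1, div_le_iff₀ hp]
      have h4 : ‖(4 : ℂ)‖ = 4 := by norm_num
      rw [h4]
      have h5 : b w / 4 ^ n ≤ 1 / 4 ^ n := by
        apply div_le_div_of_nonneg_right (hb01 w).2 hN.le
      linarith
    have hthird : ‖∑ v ∈ Finset.univ.filter (fun v : Wd n => v ≠ w),
            ((b v : ℂ) / 4 ^ n) * (1 / (z - cc v) - 1 / (cc w - cc v))‖ ≤ 6 / 5 := by
      refine le_trans (norm_sum_le _ _) (sum_bound w _ ?_)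
      intro j hj v h1 h2
      have hd := (hDIST n j w v).2 h2
      have hD : 2 * (1 / 4 ^ n : ℝ) ≤ 1 / (2 * 4 ^ j) := by
        rw [mul_one_div, div_le_div_iff₀ hN (by positivity)]
        have : (4 : ℝ) ^ (j + 1) ≤ 4 ^ n := pow_le_pow_right₀ (by norm_num) hj
        rw [pow_succ] at this
        linarith
      have ht := term_bound hh hD hup hd
      rw [norm_mul, norm_div, Complex.norm_real, norm_pow, Real.norm_eq_abs,
        abs_of_nonneg (hb01 v).1]
      have h4 : ‖(4 : ℂ)‖ = 4 := by norm_num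
      rw [h4]
      have h5 : b v / 4 ^ n ≤ 1 / 4 ^ n := by
        apply div_le_div_of_nonneg_right (hb01 v).2 hN.le
      have h6 : b v / 4 ^ n * ‖1 / (z - cc v) - 1 / (cc w - cc v)‖ ≤
          1 / 4 ^ n * (6 / 5 * (1 / 4 ^ n) / (1 / (2 * 4 ^ j)) ^ 2) :=
        mul_le_mul h5 ht (norm_nonneg _) hh.le
      refine le_trans h6 (le_of_eq ?_)
      have h7 : (16 : ℝ) ^ n = 4 ^ n * 4 ^ n := by rw [← mul_pow]; norm_num
      have h8 : (16 : ℝ) ^ j = 4 ^ j * 4 ^ j := by rw [← mul_pow]; norm_num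
      rw [h7, h8]
      field_simp
      norm_num
    rw [hsplit]
    refine le_trans (norm_add_le _ _) ?_
    have := norm_add_le (((b w : ℂ) / 4 ^ n) / (z - cc w)) (T (fun v => (b v : ℂ)) w)
    have := hT w
    linarith
  have key := hMAXP (E n) (Wd n) (fun w => (b w : ℂ) / 4 ^ n) cc (31 * √n) hEc (by positivity)
    hint hfr
  have hsum : ∑ w : Wd n, ((b w : ℂ) / 4 ^ n) = 1 / 2 := by
    rw [← Finset.sum_div, ← Complex.ofReal_sum, hbsum]
    push_cast
    field_simp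
  rw [hsum] at key
  refine le_trans (le_of_eq ?_) key
  have h12 : ‖(1 / 2 : ℂ)‖ = 1 / 2 := by norm_num
  rw [h12]
  field_simp
  norm_num

end Pool.Agent.FCC
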