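import Pool.Agent.FCC.Stmts

/-!
# Four corner Cantor sets: a large second moment makes later projections short
-/

namespace Pool.Agent.FCC

open MeasureTheory Set

namespace DICH

/-- The real recursion. -/
theorem rec_bound (u : ℕ → ℝ) (c η : ℝ) (hη : η ≤ 1) (h0 : u 0 ≤ 2) (hc : 0 ≤ c)
    (h : ∀ j, u (j + 1) ≤ c * η + (1 - η) * u j) (j : ℕ) : u j ≤ c + 2 * (1 - η) ^ j := by
  induction j with
  | zero => rw [pow_zero]; linarith
  | succ j ih =>
    have h1 := mul_le_mul_of_nonneg_left ih (sub_nonneg.2 hη)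
    have h2 := h j
    have h3 : c * η + (1 - η) * (c + 2 * (1 - η) ^ j) = c + 2 * (1 - η) ^ (j + 1) := by
      rw [pow_succ]; ring
    linarith

end DICH

theorem DICH_thm : Stmt_STOP → Stmt_VIT → Stmt_REC → Stmt_DICH := by
  intro hstop hvit hrec N K t ht0 ht1 hK hS n hn
  have ha := hstop N K t ht0 ht1 hK hS
  obtain ⟨B, hB, hdis, hA⟩ := hvit N K t ht0 ht1 (by omega)
  obtain ⟨η, hη1, hη2, hL⟩ := hrec N K t B ht0 ht1 hB hdis
  set s : ℝ := ∑ b ∈ B, (1 : ℝ) / 4 ^ b.1 with hs
  have hK' : (2 : ℝ) ≤ K := by exact_mod_cast hK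
  have hK0 : (0 : ℝ) < K := by linarith
  have hs1 : 1 / (32 * (K : ℝ) ^ 2) ≤ 20 * s := ha.trans hA
  have hη3 : 1 / (640 * (K : ℝ)) ≤ η := by
    refine le_trans ?_ hη1
    have e : 1 / (640 * (K : ℝ)) = K * (1 / (32 * (K : ℝ) ^ 2) / 20) := by
      field_simp
      try norm_num
    rw [e]
    exact mul_le_mul_of_nonneg_left (by linarith) hK0.le
  have hstep : ∀ j : ℕ, L ((j + 1) * N) t ≤ 5 / K * η + (1 - η) * L (j * N) t := by
    intro j
    have h1 := hL (j * N)
    have e : N + j * N = (j + 1) * N := by ring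
    rw [e] at h1
    have h2 : 5 * s ≤ 5 / K * η := by
      have : s ≤ η / K := by
        rw [le_div_iff₀ hK0]
        linarith
      calc 5 * s ≤ 5 * (η / K) := by linarith
        _ = 5 / K * η := by ring
    linarith
  have h0 : L (0 * N) t ≤ 2 := by
    have := L_le (0 * N) ht0
    linarith
  have hlog : 0 ≤ Real.log K := Real.log_nonneg (by linarith)
  set j : ℕ := ⌈640 * K * Real.log K⌉₊ with hj
  have hj1 : 640 * K * Real.log K ≤ j := Nat.le_ceil _
  have hj2 : (j : ℝ) ≤ 640 * K * Real.log K + 1 := (Nat.ceil_lt_add_one (by positivity)).le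
  have hu := DICH.rec_bound (fun j => L (j * N) t) (5 / K) η hη2 h0 (by positivity) hstep j
  have hjn : j * N ≤ n := by
    have : (j : ℝ) * N ≤ n := by
      calc (j : ℝ) * N ≤ (640 * K * Real.log K + 1) * N :=
            mul_le_mul_of_nonneg_right hj2 (Nat.cast_nonneg _)
        _ = N * (640 * K * Real.log K + 1) := by ring
        _ ≤ n := hn
    exact_mod_cast this
  have hmono := L_anti ht0 hjn
  have hpow : (1 - η) ^ j ≤ 1 / K := by
    have h1 : 1 - η ≤ Real.exp (-η) := by
      have := Real.add_one_le_exp (-η)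
      linarith
    calc (1 - η) ^ j ≤ Real.exp (-η) ^ j := pow_le_pow_left₀ (sub_nonneg.2 hη2) h1 j
      _ = Real.exp (j * (-η)) := by rw [← Real.exp_nat_mul]
      _ ≤ Real.exp (-Real.log K) := by
          apply Real.exp_le_exp.2
          have h2 : Real.log K ≤ j * (1 / (640 * K)) := by
            rw [mul_one_div, le_div_iff₀ (by positivity)]
            linarith
          have h3 : (j : ℝ) * (1 / (640 * K)) ≤ j * η :=
            mul_le_mul_of_nonneg_left hη3 (Nat.cast_nonneg _)
          linarith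
      _ = 1 / K := by rw [Real.exp_neg, Real.exp_log hK0, one_div]
  have hfin : L n t ≤ 5 / K + 2 * (1 / K) := by
    have h1 : L n t ≤ L (j * N) t := hmono
    have h2 : L (j * N) t ≤ 5 / K + 2 * (1 - η) ^ j := hu
    linarith
  calc L n t ≤ 5 / K + 2 * (1 / K) := hfin
    _ = 7 / K := by ring

end Pool.Agent.FCC
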