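import Pool.Agent.FCC.Stmts

/-!
# Four corner Cantor sets: distances of the centres
-/

namespace Pool.Agent.FCC

open MeasureTheory Set

namespace DIST

/-- The value of a string of binary choices. -/
noncomputable def cx {n : ℕ} (b : Fin n → Bool) : ℝ := ∑ i : Fin n, bv (b i) / 4 ^ (i.val + 1)

theorem cx_succ {n : ℕ} (b : Fin (n + 1) → Bool) :
    cx b = bv (b 0) / 4 + cx (fun i : Fin n => b i.succ) / 4 := by
  unfold cx
  rw [Fin.sum_univ_succ, Finset.sum_div]
  congr 1
  · simp
  · refine Finset.sum_congr rfl fun i _ => ?_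
    rw [Fin.val_succ, div_div]
    congr 1

theorem cx_mem {n : ℕ} (b : Fin n → Bool) : 0 ≤ cx b ∧ cx b ≤ 1 := by
  have h1 := px_nonneg (fun i => (b i, b i) : Wd n)
  have h2 := px_le (fun i => (b i, b i) : Wd n)
  have h3 : (0 : ℝ) ≤ 1 / 4 ^ n := by positivity
  have h4 : px (fun i => (b i, b i) : Wd n) = cx b := rfl
  rw [h4] at h1 h2
  exact ⟨h1, by linarith⟩

theorem cx_zero (b : Fin 0 → Bool) : cx b = 0 := by
  unfold cx
  simp

theorem upper {n : ℕ} : ∀ (j : ℕ) (b b' : Fin n → Bool), (∀ i : Fin n, i.val < j → b i = b' i) →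
    |cx b - cx b'| ≤ 1 / 4 ^ j := by
  induction n with
  | zero =>
    intro j b b' _
    rw [cx_zero, cx_zero, sub_zero, abs_zero]
    positivity
  | succ n ih =>
    intro j b b' h
    rcases j with _ | j
    · obtain ⟨h1, h2⟩ := cx_mem b
      obtain ⟨h3, h4⟩ := cx_mem b'
      rw [pow_zero, div_one, abs_le]
      constructor <;> linarith
    · have h0 : b 0 = b' 0 := h 0 (by simp)
      have := ih j (fun i => b i.succ) (fun i => b' i.succ)
        (fun i hi => h i.succ (by rw [Fin.val_succ]; omega))
      rw [cx_succ b, cx_succ b', h0]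
      have e : bv (b' 0) / 4 + cx (fun i : Fin n => b i.succ) / 4 -
          (bv (b' 0) / 4 + cx (fun i : Fin n => b' i.succ) / 4) =
          (cx (fun i : Fin n => b i.succ) - cx (fun i : Fin n => b' i.succ)) / 4 := by ring
      rw [e, abs_div, abs_of_pos (by norm_num : (0 : ℝ) < 4), pow_succ, ← div_div]
      exact div_le_div_of_nonneg_right this (by norm_num)

theorem lower {n : ℕ} : ∀ (j : ℕ) (b b' : Fin n → Bool),
    (∃ i : Fin n, i.val ≤ j ∧ b i ≠ b' i) → 1 / (2 * 4 ^ j) ≤ |cx b - cx b'| := by
  induction n with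
  | zero =>
    rintro j b b' ⟨i, -⟩
    exact i.elim0
  | succ n ih =>
    rintro j b b' ⟨i, hi, hne⟩
    rw [cx_succ b, cx_succ b']
    by_cases h0 : b 0 = b' 0
    · have hi0 : i ≠ 0 := by
        rintro rfl
        exact hne h0
      obtain ⟨k, rfl⟩ := Fin.exists_succ_eq.2 hi0
      rw [Fin.val_succ] at hi
      rcases j with _ | j
      · omega
      have := ih j (fun i => b i.succ) (fun i => b' i.succ) ⟨k, by omega, hne⟩
      rw [h0]
      have e : bv (b' 0) / 4 + cx (fun i : Fin n => b i.succ) / 4 -
          (bv (b' 0) / 4 + cx (fun i : Fin n => b' i.succ) / 4) =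
          (cx (fun i : Fin n => b i.succ) - cx (fun i : Fin n => b' i.succ)) / 4 := by ring
      rw [e, abs_div, abs_of_pos (by norm_num : (0 : ℝ) < 4), pow_succ, ← mul_assoc, ← div_div]
      exact div_le_div_of_nonneg_right this (by norm_num)
    · have h5 : 1 / (2 * 4 ^ j) ≤ (1 : ℝ) / 2 := by
        apply one_div_le_one_div_of_le (by norm_num)
        have : (1 : ℝ) ≤ 4 ^ j := one_le_pow₀ (by norm_num)
        linarith
      refine h5.trans ?_
      obtain ⟨h1, h2⟩ := cx_mem (fun i : Fin n => b i.succ)
      obtain ⟨h3, h4⟩ := cx_mem (fun i : Fin n => b' i.succ)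
      rcases hb : b 0 with _ | _ <;> rcases hb' : b' 0 with _ | _
      · exact absurd (hb.trans hb'.symm) h0
      · rw [le_abs]
        right
        simp only [bv, if_true, Bool.false_eq_true, if_false]
        linarith
      · rw [le_abs]
        left
        simp only [bv, if_true, Bool.false_eq_true, if_false]
        linarith
      · exact absurd (hb.trans hb'.symm) h0

end DIST

theorem DIST_thm : Stmt_DIST := by
  intro n j v w
  have hre : (cc v - cc w).re = px v - px w := by
    simp only [cc, Complex.sub_re]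
    ring
  have him : (cc v - cc w).im = py v - py w := by
    simp only [cc, Complex.sub_im]
    ring
  constructor
  · intro h
    have h1 : |px v - px w| ≤ 1 / 4 ^ j :=
      DIST.upper j (fun i => (v i).1) (fun i => (w i).1) (fun i hi => by rw [h i hi])
    have h2 : |py v - py w| ≤ 1 / 4 ^ j :=
      DIST.upper j (fun i => (v i).2) (fun i => (w i).2) (fun i hi => by rw [h i hi])
    rw [← hre] at h1
    rw [← him] at h2
    have h3 := Complex.norm_le_sqrt_two_mul_max (cc v - cc w)
    refine h3.trans ?_
    rw [div_eq_mul_one_div]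
    exact mul_le_mul_of_nonneg_left (max_le h1 h2) (Real.sqrt_nonneg 2)
  · intro h
    unfold agr at h
    push Not at h
    obtain ⟨i, hi, hne⟩ := h
    by_cases h1 : (v i).1 = (w i).1
    · have h2 : (v i).2 ≠ (w i).2 := fun h2 => hne (Prod.ext h1 h2)
      have := DIST.lower j (fun i => (v i).2) (fun i => (w i).2) ⟨i, by omega, h2⟩
      refine le_trans this ?_
      have e : DIST.cx (fun i => (v i).2) - DIST.cx (fun i => (w i).2) = (cc v - cc w).im := by
        rw [him]; rfl
      rw [e]
      exact Complex.abs_im_le_norm _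
    · have := DIST.lower j (fun i => (v i).1) (fun i => (w i).1) ⟨i, by omega, h1⟩
      refine le_trans this ?_
      have e : DIST.cx (fun i => (v i).1) - DIST.cx (fun i => (w i).1) = (cc v - cc w).re := by
        rw [hre]; rfl
      rw [e]
      exact Complex.abs_re_le_norm _

end Pool.Agent.FCC
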