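import Mathlib

/-!
# Four corner Cantor sets: definitions
-/

namespace Pool.Agent.FCC

open MeasureTheory Set

/-- The `n`-th generation of the middle half Cantor set. -/
def cset : ℕ → Set ℝ
  | 0 => Icc 0 1
  | n + 1 => (fun x => x / 4) '' cset n ∪ (fun x => (x + 3) / 4) '' cset n

/-- The `n`-th generation of the four corner Cantor set: `4 ^ n` closed squares of side `4 ^ (-n)`. -/
def E (n : ℕ) : Set ℂ := {z | z.re ∈ cset n ∧ z.im ∈ cset n}

/-- Words of length `n`; a letter is a pair of binary choices. -/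
abbrev Wd (n : ℕ) : Type := Fin n → Bool × Bool

/-- The value of a binary choice. -/
def bv (b : Bool) : ℝ := if b then 3 else 0

/-- The coordinates of the lower left corner of the square of `w`. -/
noncomputable def px {n : ℕ} (w : Wd n) : ℝ := ∑ i : Fin n, bv (w i).1 / 4 ^ (i.val + 1)
noncomputable def py {n : ℕ} (w : Wd n) : ℝ := ∑ i : Fin n, bv (w i).2 / 4 ^ (i.val + 1)

/-- The projection `x + t y` of the lower left corner of the square of `w`. -/
noncomputable def pr (t : ℝ) {n : ℕ} (w : Wd n) : ℝ := px w + t * py w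

/-- The projection of the square of `w`. -/
def psq (t : ℝ) {n : ℕ} (w : Wd n) : Set ℝ := Icc (pr t w) (pr t w + (1 + t) / 4 ^ n)

/-- The number of squares of generation `n` over the point `x`. -/
noncomputable def f (n : ℕ) (t x : ℝ) : ℝ := ∑ w : Wd n, (psq t w).indicator (fun _ => (1 : ℝ)) x

/-- The second moment of the multiplicity. -/
noncomputable def S (n : ℕ) (t : ℝ) : ℝ := ∫ x, f n t x ^ 2

/-- The projection of the `n`-th generation. -/
def P (n : ℕ) (t : ℝ) : Set ℝ := ⋃ w : Wd n, psq t w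

/-- The length of the projection. -/
noncomputable def L (n : ℕ) (t : ℝ) : ℝ := (volume (P n t)).toReal

/-- The projection of the square of `w` meets the `j`-th 4-adic interval
`[j 4 ^ (-n), (j + 1) 4 ^ (-n))`. -/
def meets (t : ℝ) {n : ℕ} (w : Wd n) (j : ℤ) : Prop :=
  pr t w < (j + 1) / 4 ^ n ∧ (j : ℝ) / 4 ^ n ≤ pr t w + (1 + t) / 4 ^ n

open Classical in
/-- The number of squares of generation `n` over the `j`-th 4-adic interval of level `n`. -/
noncomputable def cnt (t : ℝ) (n : ℕ) (j : ℤ) : ℕ :=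
  (Finset.univ.filter fun w : Wd n => meets t w j).card

/-- The union of the 4-adic intervals of level at most `N` over which there are at least `K` squares
of their own generation. -/
def A (t : ℝ) (N K : ℕ) : Set ℝ := {x | ∃ n ≤ N, K ≤ cnt t n ⌊4 ^ n * x⌋}

/-- The five-fold enlargement of the 4-adic interval `b`. -/
def Jst (b : ℕ × ℤ) : Set ℝ := Icc (((b.2 : ℝ) - 2) / 4 ^ b.1) (((b.2 : ℝ) + 3) / 4 ^ b.1)

/-- `∏_{a ≤ j < b} cos² (4^j x)` -/
noncomputable def Q (a b : ℕ) (x : ℝ) : ℝ := ∏ j ∈ Finset.Ico a b, Real.cos (4 ^ j * x) ^ 2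

/-- `∏_{1 ≤ i ≤ N} cos² (z / 4^i)` -/
noncomputable def Psi (N : ℕ) (z : ℝ) : ℝ := ∏ i ∈ Finset.Icc 1 N, Real.cos (z / 4 ^ i) ^ 2

/-- The weight `Q_{l,m} A_l ^ (-q)`, `A_l = Q_{0,l}`. -/
noncomputable def wt (q : ℝ) (l m : ℕ) (x : ℝ) : ENNReal :=
  ENNReal.ofReal (Q l m x) * (ENNReal.ofReal (Q 0 l x)) ^ (-q)

/-- The centre of the square of `w`. -/
noncomputable def cc {n : ℕ} (w : Wd n) : ℂ :=
  ⟨px w + 1 / (2 * 4 ^ n), py w + 1 / (2 * 4 ^ n)⟩

/-- The words `v`, `w` have the same first `k` letters. -/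
def agr (k : ℕ) {n : ℕ} (v w : Wd n) : Prop := ∀ i : Fin n, i.val < k → v i = w i

open Classical in
/-- The average over the words with the same first `k` letters. -/
noncomputable def av (k : ℕ) {n : ℕ} (g : Wd n → ℂ) (w : Wd n) : ℂ :=
  (∑ v ∈ Finset.univ.filter (fun v : Wd n => agr k w v), g v) / 4 ^ (n - k)

open Classical in
/-- The part of the discrete Cauchy transform with first difference at the letter `j`. -/
noncomputable def Tj (j : ℕ) {n : ℕ} (g : Wd n → ℂ) (w : Wd n) : ℂ :=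
  ∑ v ∈ Finset.univ.filter (fun v : Wd n => agr j w v ∧ ¬ agr (j + 1) w v),
    g v / (4 ^ n * (cc w - cc v))

open Classical in
/-- The discrete Cauchy transform. -/
noncomputable def T {n : ℕ} (g : Wd n → ℂ) (w : Wd n) : ℂ :=
  ∑ v ∈ Finset.univ.filter (fun v : Wd n => v ≠ w), g v / (4 ^ n * (cc w - cc v))

/-- The analytic capacity of `K`. -/
noncomputable def gam (K : Set ℂ) : ℝ :=
  sSup {r : ℝ | ∃ f : ℂ → ℂ, ∃ a : ℂ,
              DifferentiableOn ℂ f Kᶜ ∧
              (∀ z ∈ Kᶜ, ‖f z‖ ≤ 1) ∧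
              Filter.Tendsto f (Filter.cocompact ℂ) (nhds 0) ∧
              Filter.Tendsto (fun z => z * f z) (Filter.cocompact ℂ) (nhds a) ∧
              r = ‖a‖}

/-- The Favard length of `K`. -/
noncomputable def Fav (K : Set ℂ) : ℝ :=
  ∫ θ in (0:ℝ)..Real.pi,
    (MeasureTheory.volume
      ((fun z : ℂ => (z * Complex.exp (-(θ : ℂ) * Complex.I)).re) '' K)).toReal

end Pool.Agent.FCC
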