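import Pool.Agent.FCC.Stmts

/-!
# FAVL: the Favard length in terms of the main range
-/

namespace Pool.Agent.FCC

open MeasureTheory Set
open scoped Pointwise

namespace FAVL

/-- The projection of the `n`-th generation to the line of direction `θ`. -/
def D (n : ℕ) (θ : ℝ) : Set ℝ :=
  {u | ∃ x ∈ cset n, ∃ y ∈ cset n, u = x * Real.cos θ + y * Real.sin θ}

/-- Its length. -/
noncomputable def G (n : ℕ) (θ : ℝ) : ℝ := (volume (D n θ)).toReal

theorem re_eq (θ : ℝ) (z : ℂ) :
    (z * Complex.exp (-(θ : ℂ) * Complex.I)).re = z.re * Real.cos θ + z.im * Real.sin θ := by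
  rw [Complex.mul_re, Complex.exp_re, Complex.exp_im]
  simp

theorem image_eq (n : ℕ) (θ : ℝ) :
    (fun z : ℂ => (z * Complex.exp (-(θ : ℂ) * Complex.I)).re) '' E n = D n θ := by
  ext u
  constructor
  · rintro ⟨z, hz, rfl⟩
    exact ⟨z.re, hz.1, z.im, hz.2, re_eq θ z⟩
  · rintro ⟨x, hx, y, hy, rfl⟩
    exact ⟨⟨x, y⟩, ⟨hx, hy⟩, re_eq θ ⟨x, y⟩⟩

theorem Fav_eq (n : ℕ) : Fav (E n) = ∫ θ in (0 : ℝ)..Real.pi, G n θ := by
  unfold Fav G
  exact intervalIntegral.integral_congr fun θ _ => by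
    show (volume ((fun z : ℂ => (z * Complex.exp (-(θ : ℂ) * Complex.I)).re) '' E n)).toReal = _
    rw [image_eq]

theorem G_nonneg (n : ℕ) (θ : ℝ) : 0 ≤ G n θ := ENNReal.toReal_nonneg

theorem G_swap (n : ℕ) (θ : ℝ) : G n (Real.pi / 2 - θ) = G n θ := by
  have h : D n (Real.pi / 2 - θ) = D n θ := by
    ext u
    unfold D
    simp only [mem_ofPred_eq, Real.cos_pi_div_two_sub, Real.sin_pi_div_two_sub]
    constructor
    · rintro ⟨x, hx, y, hy, rfl⟩
      exact ⟨y, hy, x, hx, by ring⟩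
    · rintro ⟨x, hx, y, hy, rfl⟩
      exact ⟨y, hy, x, hx, by ring⟩
  unfold G
  rw [h]

theorem G_refl {n : ℕ} (hs : ∀ x, x ∈ cset n ↔ 1 - x ∈ cset n) (θ : ℝ) :
    G n (Real.pi - θ) = G n θ := by
  have h : D n (Real.pi - θ) = (fun u => u + Real.cos θ) ⁻¹' D n θ := by
    ext u
    unfold D
    simp only [mem_ofPred_eq, mem_preimage, Real.cos_pi_sub, Real.sin_pi_sub]
    constructor
    · rintro ⟨x, hx, y, hy, rfl⟩
      exact ⟨1 - x, (hs x).1 hx, y, hy, by ring⟩
    · rintro ⟨x, hx, y, hy, h⟩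
      exact ⟨1 - x, (hs x).1 hx, y, hy, by linarith⟩
  unfold G
  rw [h, measure_preimage_add_right]

theorem G_arctan {n : ℕ}
    (hP : ∀ t, 0 ≤ t → P n t = {u | ∃ x ∈ cset n, ∃ y ∈ cset n, u = x + t * y})
    {t : ℝ} (ht : 0 ≤ t) : G n (Real.arctan t) = Real.cos (Real.arctan t) * L n t := by
  have hc : 0 < Real.cos (Real.arctan t) := Real.cos_arctan_pos t
  have hsin : Real.sin (Real.arctan t) = Real.cos (Real.arctan t) * t := by
    have h1 := Real.tan_arctan t
    rw [Real.tan_eq_sin_div_cos, div_eq_iff hc.ne'] at h1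
    rw [h1, mul_comm]
  have h : D n (Real.arctan t) = Real.cos (Real.arctan t) • P n t := by
    rw [hP t ht]
    ext u
    unfold D
    rw [hsin, mem_smul_set]
    simp only [mem_ofPred_eq, smul_eq_mul]
    constructor
    · rintro ⟨x, hx, y, hy, rfl⟩
      exact ⟨x + t * y, ⟨x, hx, y, hy, rfl⟩, by ring⟩
    · rintro ⟨v, ⟨x, hx, y, hy, rfl⟩, rfl⟩
      exact ⟨x, hx, y, hy, by ring⟩
  unfold G L
  rw [h, Measure.addHaar_smul, ENNReal.toReal_mul]
  congr 1
  rw [Module.finrank_self, pow_one, abs_of_pos hc, ENNReal.toReal_ofReal hc.le]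

theorem image_arctan : Real.arctan '' Ioo 0 1 = Ioo 0 (Real.pi / 4) := by
  ext θ
  constructor
  · rintro ⟨t, ⟨h0, h1⟩, rfl⟩
    refine ⟨?_, ?_⟩
    · have := Real.arctan_strictMono h0
      rwa [Real.arctan_zero] at this
    · have := Real.arctan_strictMono h1
      rwa [Real.arctan_one] at this
  · rintro ⟨h0, h1⟩
    have hpi := Real.pi_pos
    have e : Real.arctan (Real.tan θ) = θ :=
      Real.arctan_tan (by linarith) (by linarith)
    refine ⟨Real.tan θ, ⟨?_, ?_⟩, e⟩
    · rw [← Real.arctan_strictMono.lt_iff_lt, e, Real.arctan_zero]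
      exact h0
    · rw [← Real.arctan_strictMono.lt_iff_lt, e, Real.arctan_one]
      exact h1

theorem integrableOn_L (n : ℕ) : IntegrableOn (L n) (Ioo 0 1) := by
  refine Measure.integrableOn_of_bounded (M := 2) ?_ (measurable_L n).aestronglyMeasurable ?_
  · rw [Real.volume_Ioo]
    exact ENNReal.ofReal_ne_top
  · filter_upwards [ae_restrict_mem measurableSet_Ioo] with t ht
    rw [Real.norm_eq_abs, abs_of_nonneg (L_nonneg n t)]
    have h1 := L_le n ht.1.le
    have h2 := ht.2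
    linarith

theorem hderiv (x : ℝ) :
    HasDerivWithinAt Real.arctan (1 / (1 + x ^ 2)) (Ioo 0 1) x :=
  (Real.hasDerivAt_arctan x).hasDerivWithinAt

/-- The integrand after the substitution. -/
theorem integrand_bounds {n : ℕ}
    (hP : ∀ t, 0 ≤ t → P n t = {u | ∃ x ∈ cset n, ∃ y ∈ cset n, u = x + t * y})
    {t : ℝ} (ht : 0 ≤ t) :
    |1 / (1 + t ^ 2)| • G n (Real.arctan t) =
      (1 / (1 + t ^ 2)) * (Real.cos (Real.arctan t) * L n t) := by
  rw [G_arctan hP ht, smul_eq_mul, abs_of_nonneg (by positivity)]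

theorem le_L (n : ℕ) (t : ℝ) :
    (1 / (1 + t ^ 2)) * (Real.cos (Real.arctan t) * L n t) ≤ L n t := by
  have h1 : 1 / (1 + t ^ 2) ≤ 1 := by
    rw [div_le_one (by positivity)]
    nlinarith [sq_nonneg t]
  have h2 : Real.cos (Real.arctan t) * L n t ≤ L n t :=
    mul_le_of_le_one_left (L_nonneg n t) (Real.cos_le_one _)
  have h3 : 0 ≤ Real.cos (Real.arctan t) * L n t :=
    mul_nonneg (Real.cos_arctan_pos t).le (L_nonneg n t)
  exact (mul_le_of_le_one_left h3 h1).trans h2

theorem nonneg_L (n : ℕ) (t : ℝ) :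
    0 ≤ (1 / (1 + t ^ 2)) * (Real.cos (Real.arctan t) * L n t) :=
  mul_nonneg (by positivity) (mul_nonneg (Real.cos_arctan_pos t).le (L_nonneg n t))

theorem integrableOn_sub (n : ℕ) :
    IntegrableOn (fun t => (1 / (1 + t ^ 2)) * (Real.cos (Real.arctan t) * L n t)) (Ioo 0 1) := by
  refine Integrable.mono' (integrableOn_L n) ?_ ?_
  · refine Measurable.aestronglyMeasurable ?_
    have h1 : Measurable fun t : ℝ => 1 / (1 + t ^ 2) := by fun_prop
    have h2 : Measurable fun t : ℝ => Real.cos (Real.arctan t) :=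
      Real.measurable_cos.comp Real.measurable_arctan
    exact h1.mul (h2.mul (measurable_L n))
  · refine Filter.Eventually.of_forall fun t => ?_
    rw [Real.norm_eq_abs, abs_of_nonneg (nonneg_L n t)]
    exact le_L n t

variable {n : ℕ}

theorem integrableOn_G
    (hP : ∀ t, 0 ≤ t → P n t = {u | ∃ x ∈ cset n, ∃ y ∈ cset n, u = x + t * y}) :
    IntegrableOn (G n) (Ioo 0 (Real.pi / 4)) := by
  rw [← image_arctan]
  rw [integrableOn_image_iff_integrableOn_abs_deriv_smul measurableSet_Ioo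
    (fun x _ => hderiv x) Real.arctan_injective.injOn]
  refine (integrableOn_sub n).congr_fun ?_ measurableSet_Ioo
  intro t ht
  exact (integrand_bounds hP ht.1.le).symm

theorem integral_G_le
    (hP : ∀ t, 0 ≤ t → P n t = {u | ∃ x ∈ cset n, ∃ y ∈ cset n, u = x + t * y}) :
    ∫ θ in Ioo 0 (Real.pi / 4), G n θ ≤ ∫ t in Ioo (0 : ℝ) 1, L n t := by
  rw [← image_arctan]
  rw [integral_image_eq_integral_abs_deriv_smul measurableSet_Ioo
    (fun x _ => hderiv x) Real.arctan_injective.injOn]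
  rw [setIntegral_congr_fun (g := fun t => (1 / (1 + t ^ 2)) * (Real.cos (Real.arctan t) * L n t))
    measurableSet_Ioo (fun t ht => integrand_bounds hP ht.1.le)]
  exact setIntegral_mono (integrableOn_sub n) (integrableOn_L n) (fun t => le_L n t)

theorem ii_G
    (hP : ∀ t, 0 ≤ t → P n t = {u | ∃ x ∈ cset n, ∃ y ∈ cset n, u = x + t * y}) :
    IntervalIntegrable (G n) volume 0 (Real.pi / 4) := by
  rw [intervalIntegrable_iff_integrableOn_Ioo_of_le (by positivity)]
  exact integrableOn_G hP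

end FAVL

open FAVL in
theorem FAVL_thm : Stmt_GEO → Stmt_FAVL := by
  intro hG n
  obtain ⟨-, hs, -, -, hP⟩ := hG n
  have hpi := Real.pi_pos
  have i1 : IntervalIntegrable (G n) volume 0 (Real.pi / 4) := ii_G hP
  -- the second eighth
  have i2 : IntervalIntegrable (G n) volume (Real.pi / 4) (Real.pi / 2) := by
    have h := i1.comp_sub_left (Real.pi / 2)
    have e : (fun x => G n (Real.pi / 2 - x)) = G n := funext fun x => G_swap n x
    rw [e] at h
    have e1 : Real.pi / 2 - 0 = Real.pi / 2 := by ring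
    have e2 : Real.pi / 2 - Real.pi / 4 = Real.pi / 4 := by ring
    rw [e1, e2] at h
    exact h.symm
  have j2 : ∫ θ in (Real.pi / 4)..(Real.pi / 2), G n θ = ∫ θ in (0 : ℝ)..(Real.pi / 4), G n θ := by
    have h := intervalIntegral.integral_comp_sub_left (a := Real.pi / 4) (b := Real.pi / 2)
      (G n) (Real.pi / 2)
    have e : (fun x => G n (Real.pi / 2 - x)) = G n := funext fun x => G_swap n x
    rw [e] at h
    have e1 : Real.pi / 2 - Real.pi / 2 = 0 := by ring
    have e2 : Real.pi / 2 - Real.pi / 4 = Real.pi / 4 := by ring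
    rw [e1, e2] at h
    exact h
  have i3 : IntervalIntegrable (G n) volume 0 (Real.pi / 2) := i1.trans i2
  have j3 : ∫ θ in (0 : ℝ)..(Real.pi / 2), G n θ = 2 * ∫ θ in (0 : ℝ)..(Real.pi / 4), G n θ := by
    rw [← intervalIntegral.integral_add_adjacent_intervals i1 i2, j2]
    ring
  -- the second half
  have e : (fun x => G n (Real.pi - x)) = G n := funext fun x => G_refl hs x
  have e1 : Real.pi - 0 = Real.pi := by ring
  have e2 : Real.pi - Real.pi / 2 = Real.pi / 2 := by ring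
  have i4 : IntervalIntegrable (G n) volume (Real.pi / 2) Real.pi := by
    have h := i3.comp_sub_left Real.pi
    rw [e, e1, e2] at h
    exact h.symm
  have j4 : ∫ θ in (Real.pi / 2)..Real.pi, G n θ = ∫ θ in (0 : ℝ)..(Real.pi / 2), G n θ := by
    have h := intervalIntegral.integral_comp_sub_left (a := Real.pi / 2) (b := Real.pi)
      (G n) Real.pi
    rw [e, sub_self, e2] at h
    exact h
  have j5 : ∫ θ in (0 : ℝ)..Real.pi, G n θ = 4 * ∫ θ in (0 : ℝ)..(Real.pi / 4), G n θ := by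
    rw [← intervalIntegral.integral_add_adjacent_intervals i3 i4, j4, j3]
    ring
  rw [Fav_eq, j5]
  have k1 : ∫ θ in (0 : ℝ)..(Real.pi / 4), G n θ = ∫ θ in Ioo 0 (Real.pi / 4), G n θ := by
    rw [intervalIntegral.integral_of_le (by positivity), integral_Ioc_eq_integral_Ioo]
  have k2 : ∫ t in (0 : ℝ)..1, L n t = ∫ t in Ioo (0 : ℝ) 1, L n t := by
    rw [intervalIntegral.integral_of_le zero_le_one, integral_Ioc_eq_integral_Ioo]
  rw [k1, k2]
  have h := integral_G_le hP
  linarith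

end Pool.Agent.FCC
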