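import Pool.Agent.FCC.Stmts

/-!
# Four corner Cantor sets: the final combination
-/

namespace Pool.Agent.FCC

open MeasureTheory Set

namespace FINAL

theorem Fav_nonneg (K : Set ℂ) : 0 ≤ Fav K := by
  unfold Fav
  exact intervalIntegral.integral_nonneg Real.pi_pos.le fun _ _ => ENNReal.toReal_nonneg

end FINAL

/-- Both inequalities of the theorem. -/
theorem FINAL_thm (hRED : Stmt_RED) (hFAVL : Stmt_FAVL) (hCAP : Stmt_CAP) :
    ∀ ε : ℝ, 0 < ε → ∃ c : ℝ, 0 < c ∧ ∀ n : ℕ, 1 ≤ n →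
      c * Fav (E n) ^ (2 + ε) ≤ 1 / √n ∧ c * (1 / √n) ≤ gam (E n) := by
  intro ε hε
  have h2ε : 0 < 2 + ε := by linarith
  obtain ⟨C, hC, hF⟩ := hRED (1 / (2 * (2 + ε))) (by positivity) (by
    rw [div_lt_div_iff₀ (by positivity) (by norm_num)]
    linarith)
  have h4C : 0 < (4 * C) ^ (2 + ε) := Real.rpow_pos_of_pos (by positivity) _
  refine ⟨min ((4 * C) ^ (2 + ε))⁻¹ (1 / 62), lt_min (inv_pos.2 h4C) (by norm_num), ?_⟩
  intro n hn
  have hn0 : (0 : ℝ) < n := by exact_mod_cast hn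
  have hs : 0 < √(n : ℝ) := Real.sqrt_pos.2 hn0
  constructor
  · have h1 : Fav (E n) ≤ 4 * C * (n : ℝ) ^ (-(1 / (2 * (2 + ε)))) := by
      have a := hFAVL n
      have b := hF n hn
      calc Fav (E n) ≤ 4 * ∫ t in (0 : ℝ)..1, L n t := a
        _ ≤ 4 * (C * (n : ℝ) ^ (-(1 / (2 * (2 + ε))))) := by linarith
        _ = _ := by ring
    have h2 : Fav (E n) ^ (2 + ε) ≤ (4 * C) ^ (2 + ε) * (1 / √n) := by
      calc Fav (E n) ^ (2 + ε) ≤ (4 * C * (n : ℝ) ^ (-(1 / (2 * (2 + ε))))) ^ (2 + ε) :=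
            Real.rpow_le_rpow (FINAL.Fav_nonneg _) h1 h2ε.le
        _ = (4 * C) ^ (2 + ε) * ((n : ℝ) ^ (-(1 / (2 * (2 + ε))))) ^ (2 + ε) :=
            Real.mul_rpow (by positivity) (Real.rpow_nonneg hn0.le _)
        _ = (4 * C) ^ (2 + ε) * (1 / √n) := by
            rw [← Real.rpow_mul hn0.le]
            have : -(1 / (2 * (2 + ε))) * (2 + ε) = -(1 / 2) := by
              field_simp
            rw [this, Real.rpow_neg hn0.le, ← Real.sqrt_eq_rpow, one_div]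
    calc min ((4 * C) ^ (2 + ε))⁻¹ (1 / 62) * Fav (E n) ^ (2 + ε)
        ≤ ((4 * C) ^ (2 + ε))⁻¹ * Fav (E n) ^ (2 + ε) :=
          mul_le_mul_of_nonneg_right (min_le_left _ _)
            (Real.rpow_nonneg (FINAL.Fav_nonneg _) _)
      _ ≤ ((4 * C) ^ (2 + ε))⁻¹ * ((4 * C) ^ (2 + ε) * (1 / √n)) :=
          mul_le_mul_of_nonneg_left h2 (inv_nonneg.2 h4C.le)
      _ = 1 / √n := by rw [← mul_assoc, inv_mul_cancel₀ h4C.ne', one_mul]
  · calc min ((4 * C) ^ (2 + ε))⁻¹ (1 / 62) * (1 / √n) ≤ 1 / 62 * (1 / √n) :=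
          mul_le_mul_of_nonneg_right (min_le_right _ _) (by positivity)
      _ = 1 / (62 * √n) := by rw [one_div_mul_one_div]
      _ ≤ gam (E n) := hCAP n hn

end Pool.Agent.FCC
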