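import Pool.Agent.FCC.Stmts

/-!
# FOU: the second moment bounds the energy of the Fourier transform
-/

namespace Pool.Agent.FCC

open MeasureTheory Set

namespace FOU

/-- The integral of a tent against a cosine. -/
theorem tent_int {T l : ℝ} (hT : 0 < T) (hl : l ≠ 0) :
    ∫ z in (0 : ℝ)..T, 2 * (1 - z / T) * Real.cos (l * z) ≤ 4 / (l ^ 2 * T) := by
  have hT' : T ≠ 0 := hT.ne'
  have hd : ∀ z ∈ uIcc (0 : ℝ) T, HasDerivAt
      (fun z => 2 * ((1 - z / T) * Real.sin (l * z) / l - Real.cos (l * z) / (T * l ^ 2)))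
      (2 * (1 - z / T) * Real.cos (l * z)) z := by
    intro z _
    have h1 : HasDerivAt (fun z : ℝ => l * z) l z := by
      simpa using (hasDerivAt_id z).const_mul l
    have h2 : HasDerivAt (fun z : ℝ => Real.sin (l * z)) (Real.cos (l * z) * l) z := h1.sin
    have h3 : HasDerivAt (fun z : ℝ => Real.cos (l * z)) (-Real.sin (l * z) * l) z := h1.cos
    have h4 : HasDerivAt (fun z : ℝ => 1 - z / T) (-(1 / T)) z := by
      simpa using ((hasDerivAt_id z).div_const T).const_sub 1
    have h5 := (((h4.mul h2).div_const l).sub (h3.div_const (T * l ^ 2))).const_mul 2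
    refine h5.congr_deriv ?_
    field_simp
    ring
  rw [intervalIntegral.integral_eq_sub_of_hasDerivAt hd
    (Continuous.intervalIntegrable (by fun_prop) _ _)]
  have e : 2 * ((1 - T / T) * Real.sin (l * T) / l - Real.cos (l * T) / (T * l ^ 2)) -
      2 * ((1 - 0 / T) * Real.sin (l * 0) / l - Real.cos (l * 0) / (T * l ^ 2)) =
      2 * (1 - Real.cos (l * T)) / (l ^ 2 * T) := by
    rw [div_self hT', mul_zero, Real.sin_zero, Real.cos_zero]
    field_simp
    ring
  rw [e]
  have hc := Real.neg_one_le_cos (l * T)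
  exact div_le_div_of_nonneg_right (by linarith) (by positivity)

theorem tent_int' {T : ℝ} (hT : 0 < T) (l : ℝ) :
    ∫ z in (0 : ℝ)..T, 2 * (1 - z / T) * Real.cos (l * z) ≤ T := by
  have hT' : T ≠ 0 := hT.ne'
  have h1 : ∫ z in (0 : ℝ)..T, 2 * (1 - z / T) = T := by
    have hd : ∀ z ∈ uIcc (0 : ℝ) T, HasDerivAt (fun z => 2 * z - z ^ 2 / T)
        (2 * (1 - z / T)) z := by
      intro z _
      have h5 := ((hasDerivAt_id z).const_mul 2).sub ((hasDerivAt_pow 2 z).div_const T)
      refine h5.congr_deriv ?_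
      simp
      field_simp
    rw [intervalIntegral.integral_eq_sub_of_hasDerivAt hd
      (Continuous.intervalIntegrable (by fun_prop) _ _)]
    field_simp
    ring
  calc ∫ z in (0 : ℝ)..T, 2 * (1 - z / T) * Real.cos (l * z)
      ≤ ∫ z in (0 : ℝ)..T, 2 * (1 - z / T) := by
        refine intervalIntegral.integral_mono_on hT.le
          (Continuous.intervalIntegrable (by fun_prop) _ _)
          (Continuous.intervalIntegrable (by fun_prop) _ _) ?_
        intro z hz
        have h2 : 0 ≤ 2 * (1 - z / T) := by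
          have : z / T ≤ 1 := (div_le_one hT).2 hz.2
          linarith
        have h3 := Real.cos_le_one (l * z)
        nlinarith
    _ = T := h1

/-- The tent. -/
noncomputable def tau (x : ℝ) : ℝ := max 0 (1 - |x|)

theorem tau_nonneg (x : ℝ) : 0 ≤ tau x := le_max_left _ _

/-- The weights. -/
noncomputable def bb (j : ℕ) : ℝ := 48 / (((j : ℝ) + 1) * ((j : ℝ) + 2))

theorem bb_nonneg (j : ℕ) : 0 ≤ bb j := by unfold bb; positivity

theorem sum_bb (n : ℕ) : ∑ j ∈ Finset.range n, bb j ≤ 48 := by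
  have h : ∑ j ∈ Finset.range n, bb j = 48 * (1 - 1 / ((n : ℝ) + 1)) := by
    induction n with
    | zero => simp
    | succ n ih =>
      rw [Finset.sum_range_succ, ih, bb]
      push_cast
      field_simp
      ring
  rw [h]
  have : 0 ≤ 1 / ((n : ℝ) + 1) := by positivity
  linarith

/-- The main estimate of one integral. -/
theorem J_le {R D : ℝ} (hR : 0 < R) (M : ℕ) (hM : |R * D| + 1 ≤ M) :
    ∫ z in (0 : ℝ)..(2 * R), 2 * (1 - z / (2 * R)) * Real.cos (2 / 3 * z * D) ≤
      R * ∑ j ∈ Finset.range M, bb j * (tau (R * D - j) + tau (R * D + j)) := by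
  set r := R * D with hr
  set m : ℤ := round r with hm
  have hmr : |r - m| ≤ 1 / 2 := abs_sub_round r
  set j : ℕ := m.natAbs with hj
  have hjm : (j : ℝ) = |(m : ℝ)| := by
    rw [hj, Nat.cast_natAbs, Int.cast_abs]
  have hjM : j ∈ Finset.range M := by
    rw [Finset.mem_range]
    have h1 : (j : ℝ) < M := by
      rw [hjm]
      have h2 : |(m : ℝ)| ≤ |r| + 1 / 2 := by
        have h3 : |(m : ℝ)| ≤ |r| + |(m : ℝ) - r| := by
          have := abs_add_le r ((m : ℝ) - r)
          rwa [add_sub_cancel] at this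
        rw [abs_sub_comm] at h3
        linarith
      linarith
    exact_mod_cast h1
  have hterm : bb j * (tau (r - j) + tau (r + j)) ≤
      ∑ j ∈ Finset.range M, bb j * (tau (r - j) + tau (r + j)) :=
    Finset.single_le_sum (f := fun j : ℕ => bb j * (tau (r - j) + tau (r + j)))
      (fun i _ => mul_nonneg (bb_nonneg i) (add_nonneg (tau_nonneg _) (tau_nonneg _))) hjM
  have htau : 1 / 2 ≤ tau (r - j) + tau (r + j) := by
    have h1 : 1 / 2 ≤ tau (r - m) := by
      unfold tau
      exact le_max_of_le_right (by linarith)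
    rcases abs_cases (m : ℝ) with h | h
    · rw [h.1] at hjm
      rw [hjm]
      linarith [tau_nonneg (r + m)]
    · rw [h.1] at hjm
      rw [hjm, sub_neg_eq_add]
      have e : r + -(m : ℝ) = r - m := by ring
      rw [e]
      linarith [tau_nonneg (r + m)]
  -- the bound of the integral
  have hJ : ∫ z in (0 : ℝ)..(2 * R), 2 * (1 - z / (2 * R)) * Real.cos (2 / 3 * z * D) ≤
      R * (bb j / 2) := by
    have e1 : (fun z => 2 * (1 - z / (2 * R)) * Real.cos (2 / 3 * z * D)) =
        fun z => 2 * (1 - z / (2 * R)) * Real.cos (2 / 3 * D * z) := by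
      funext z
      congr 2
      ring
    rw [e1]
    by_cases hj2 : j ≤ 2
    · have h1 := tent_int' (T := 2 * R) (by linarith) (2 / 3 * D)
      have h2 : 4 ≤ bb j := by
        unfold bb
        have h3 : (j : ℝ) ≤ 2 := by exact_mod_cast hj2
        have h4 : (0 : ℝ) ≤ j := Nat.cast_nonneg j
        rw [le_div_iff₀ (by positivity)]
        nlinarith
      nlinarith
    · have hj3 : 3 ≤ j := by omega
      have hj3' : (3 : ℝ) ≤ j := by exact_mod_cast hj3
      have hr1 : (j : ℝ) - 1 / 2 ≤ |r| := by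
        rw [hjm]
        have h3 : |(m : ℝ)| ≤ |r| + |(m : ℝ) - r| := by
          have := abs_add_le r ((m : ℝ) - r)
          rwa [add_sub_cancel] at this
        rw [abs_sub_comm] at h3
        linarith
      have hr0 : r ≠ 0 := by
        intro h
        rw [h, abs_zero] at hr1
        linarith
      have hD : D ≠ 0 := by
        intro h
        apply hr0
        rw [hr, h, mul_zero]
      have h1 := tent_int (T := 2 * R) (l := 2 / 3 * D) (by linarith) (by
        intro h
        apply hD
        linarith)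
      refine h1.trans ?_
      have hr2 : ((j : ℝ) - 1 / 2) ^ 2 ≤ r ^ 2 := by
        rw [← sq_abs r]
        exact pow_le_pow_left₀ (by linarith) hr1 2
      have e2 : 4 / ((2 / 3 * D) ^ 2 * (2 * R)) = R * (9 / 2 / r ^ 2) := by
        rw [hr]
        field_simp
        ring
      rw [e2]
      refine mul_le_mul_of_nonneg_left ?_ hR.le
      have hr3 : 0 < r ^ 2 := by positivity
      unfold bb
      rw [div_div, div_div, div_le_div_iff₀ (by positivity) (by positivity)]
      nlinarith
  refine hJ.trans (mul_le_mul_of_nonneg_left ?_ hR.le)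
  refine le_trans ?_ hterm
  nlinarith [bb_nonneg j]

/-- The overlap of two intervals. -/
theorem ind_mul (p q a s x : ℝ) : (Icc p (p + a)).indicator (fun _ => (1 : ℝ)) x *
    (Icc q (q + a)).indicator (fun _ => (1 : ℝ)) (x - s) =
    (Icc (max p (q + s)) (min (p + a) (q + s + a))).indicator (fun _ => (1 : ℝ)) x := by
  by_cases h1 : x ∈ Icc p (p + a)
  · by_cases h2 : x - s ∈ Icc q (q + a)
    · rw [indicator_of_mem h1, indicator_of_mem h2, indicator_of_mem, mul_one]
      exact ⟨max_le h1.1 (by linarith [h2.1]), le_min h1.2 (by linarith [h2.2])⟩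
    · rw [indicator_of_notMem h2, mul_zero, indicator_of_notMem]
      intro h
      apply h2
      have h3 := (le_max_right _ _).trans h.1
      have h4 := h.2.trans (min_le_right _ _)
      exact ⟨by linarith, by linarith⟩
  · rw [indicator_of_notMem h1, zero_mul, indicator_of_notMem]
    intro h
    exact h1 ⟨(le_max_left _ _).trans h.1, h.2.trans (min_le_left _ _)⟩

theorem integrable_ind_mul (p q a s : ℝ) :
    Integrable (fun x => (Icc p (p + a)).indicator (fun _ => (1 : ℝ)) x *
      (Icc q (q + a)).indicator (fun _ => (1 : ℝ)) (x - s)) := by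
  have e : (fun x => (Icc p (p + a)).indicator (fun _ => (1 : ℝ)) x *
      (Icc q (q + a)).indicator (fun _ => (1 : ℝ)) (x - s)) =
      (Icc (max p (q + s)) (min (p + a) (q + s + a))).indicator (fun _ => (1 : ℝ)) := by
    funext x
    exact ind_mul p q a s x
  rw [e]
  exact (integrable_indicator_iff measurableSet_Icc).2
    (integrableOn_const (by rw [Real.volume_Icc]; exact ENNReal.ofReal_ne_top))

theorem overlap (p q a s : ℝ) : ∫ x, (Icc p (p + a)).indicator (fun _ => (1 : ℝ)) x *
    (Icc q (q + a)).indicator (fun _ => (1 : ℝ)) (x - s) = max (a - |p - q - s|) 0 := by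
  have e : (fun x => (Icc p (p + a)).indicator (fun _ => (1 : ℝ)) x *
      (Icc q (q + a)).indicator (fun _ => (1 : ℝ)) (x - s)) =
      (Icc (max p (q + s)) (min (p + a) (q + s + a))).indicator (fun _ => (1 : ℝ)) := by
    funext x
    exact ind_mul p q a s x
  rw [e, integral_indicator measurableSet_Icc, setIntegral_const, Measure.real, Real.volume_Icc,
    ENNReal.toReal_ofReal', smul_eq_mul, mul_one]
  congr 1
  rcases le_total p (q + s) with h | h
  · rw [max_eq_right h, min_eq_left (by linarith), abs_of_nonpos (by linarith)]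
    ring
  · rw [max_eq_left h, min_eq_right (by linarith), abs_of_nonneg (by linarith)]
    ring

/-- The sum over all pairs of the shifted tents. -/
theorem sum_tau_le (N : ℕ) {t : ℝ} (ht : 0 ≤ t) (s : ℝ) :
    ∑ v : Wd N, ∑ w : Wd N, tau (4 ^ N * (pr t v - pr t w) - s) ≤ 4 ^ N * S N t := by
  have h4 : (0 : ℝ) < 4 ^ N := by positivity
  set s' : ℝ := s / 4 ^ N with hs'
  have hpt : ∀ v w : Wd N, tau (4 ^ N * (pr t v - pr t w) - s) ≤
      4 ^ N * ∫ x, (psq t v).indicator (fun _ => (1 : ℝ)) x *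
        (psq t w).indicator (fun _ => (1 : ℝ)) (x - s') := by
    intro v w
    unfold psq
    rw [overlap]
    unfold tau
    have e : 4 ^ N * (pr t v - pr t w) - s = 4 ^ N * (pr t v - pr t w - s') := by
      rw [hs']
      field_simp
    rw [e, abs_mul, abs_of_pos h4]
    refine max_le (mul_nonneg h4.le (le_max_right _ _)) ?_
    have h1 : (1 + t) / 4 ^ N - |pr t v - pr t w - s'| ≤
        max ((1 + t) / 4 ^ N - |pr t v - pr t w - s'|) 0 := le_max_left _ _
    have h2 := mul_le_mul_of_nonneg_left h1 h4.le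
    refine le_trans ?_ h2
    have e2 : 4 ^ N * ((1 + t) / 4 ^ N - |pr t v - pr t w - s'|) =
        1 + t - 4 ^ N * |pr t v - pr t w - s'| := by
      field_simp
    rw [e2]
    linarith
  have hint : ∀ v w : Wd N, Integrable (fun x => (psq t v).indicator (fun _ => (1 : ℝ)) x *
        (psq t w).indicator (fun _ => (1 : ℝ)) (x - s')) := by
    intro v w
    unfold psq
    exact integrable_ind_mul _ _ _ _
  have hf : ∀ x, f N t x * f N t (x - s') = ∑ v : Wd N, ∑ w : Wd N,
      (psq t v).indicator (fun _ => (1 : ℝ)) x *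
        (psq t w).indicator (fun _ => (1 : ℝ)) (x - s') := by
    intro x
    unfold f
    rw [Finset.sum_mul_sum]
  have hfi : Integrable (fun x => f N t x * f N t (x - s')) := by
    have e : (fun x => f N t x * f N t (x - s')) = fun x => ∑ v : Wd N, ∑ w : Wd N,
        (psq t v).indicator (fun _ => (1 : ℝ)) x *
        (psq t w).indicator (fun _ => (1 : ℝ)) (x - s') := funext hf
    rw [e]
    exact integrable_finsetSum _ fun v _ => integrable_finsetSum _ fun w _ => hint v w
  have h1 : ∑ v : Wd N, ∑ w : Wd N, tau (4 ^ N * (pr t v - pr t w) - s) ≤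
      4 ^ N * ∫ x, f N t x * f N t (x - s') := by
    have e : ∫ x, f N t x * f N t (x - s') = ∑ v : Wd N, ∑ w : Wd N,
        ∫ x, (psq t v).indicator (fun _ => (1 : ℝ)) x *
        (psq t w).indicator (fun _ => (1 : ℝ)) (x - s') := by
      rw [integral_congr_ae (Filter.Eventually.of_forall hf),
        integral_finsetSum _ fun v _ => integrable_finsetSum _ fun w _ => hint v w]
      exact Finset.sum_congr rfl fun v _ => integral_finsetSum _ fun w _ => hint v w
    rw [e, Finset.mul_sum]
    refine Finset.sum_le_sum fun v _ => ?_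
    rw [Finset.mul_sum]
    exact Finset.sum_le_sum fun w _ => hpt v w
  refine h1.trans (mul_le_mul_of_nonneg_left ?_ h4.le)
  have h2 : Integrable (fun x => f N t (x - s') ^ 2) :=
    (integrable_f_sq N t).comp_sub_right s'
  have h3 : ∫ x, f N t (x - s') ^ 2 = S N t :=
    integral_sub_right_eq_self (fun x => f N t x ^ 2) s'
  calc ∫ x, f N t x * f N t (x - s')
      ≤ ∫ x, (1 / 2 * f N t x ^ 2 + 1 / 2 * f N t (x - s') ^ 2) := by
        refine integral_mono hfi (((integrable_f_sq N t).const_mul _).add (h2.const_mul _)) ?_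
        intro x
        show f N t x * f N t (x - s') ≤ 1 / 2 * f N t x ^ 2 + 1 / 2 * f N t (x - s') ^ 2
        nlinarith [sq_nonneg (f N t x - f N t (x - s'))]
    _ = S N t := by
        rw [integral_add ((integrable_f_sq N t).const_mul _) (h2.const_mul _),
          integral_const_mul, integral_const_mul, h3]
        unfold S
        ring

theorem prod_Icc (N : ℕ) (g : ℕ → ℝ) :
    ∏ i ∈ Finset.Icc 1 N, g i = ∏ i : Fin N, g (i.val + 1) := by
  rw [Fin.prod_univ_eq_prod_range (fun i => g (i + 1)) N]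
  induction N with
  | zero => simp
  | succ n ih => rw [Finset.prod_Icc_succ_top (by omega), ih, Finset.prod_range_succ]

theorem normSq_one_add (θ : ℝ) :
    Complex.normSq (1 + Complex.exp ((2 * θ : ℝ) * Complex.I)) = 4 * Real.cos θ ^ 2 := by
  rw [Complex.exp_mul_I, ← Complex.ofReal_cos, ← Complex.ofReal_sin, Complex.normSq_apply]
  simp only [Complex.add_re, Complex.one_re, Complex.ofReal_re, Complex.mul_re, Complex.I_re,
    mul_zero, Complex.ofReal_im, Complex.I_im, mul_one, sub_self, add_zero, Complex.add_im,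
    Complex.one_im, Complex.mul_im, zero_add]
  have h1 := Real.sin_sq_add_cos_sq (2 * θ)
  have h2 := Real.cos_two_mul θ
  nlinarith

/-- The product formula for the exponential sum. -/
theorem sum_exp (N : ℕ) (t z : ℝ) :
    (∑ w : Wd N, Real.cos (2 / 3 * z * pr t w)) ^ 2 +
      (∑ w : Wd N, Real.sin (2 / 3 * z * pr t w)) ^ 2 = 16 ^ N * (Psi N z * Psi N (t * z)) := by
  have h1 : ∀ w : Wd N, Complex.exp ((2 / 3 * z * pr t w : ℝ) * Complex.I) =
      ∏ i : Fin N, Complex.exp ((2 / 3 * z * ((bv (w i).1 + t * bv (w i).2) / 4 ^ (i.val + 1)) :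
        ℝ) * Complex.I) := by
    intro w
    rw [← Complex.exp_sum, ← Finset.sum_mul, ← Complex.ofReal_sum]
    congr 3
    unfold pr px py
    rw [Finset.mul_sum, ← Finset.sum_add_distrib, Finset.mul_sum]
    refine Finset.sum_congr rfl fun i _ => ?_
    ring
  have h2 : ∑ w : Wd N, Complex.exp ((2 / 3 * z * pr t w : ℝ) * Complex.I) =
      ∏ i : Fin N, ((1 + Complex.exp ((2 * (z / 4 ^ (i.val + 1)) : ℝ) * Complex.I)) *
        (1 + Complex.exp ((2 * (t * z / 4 ^ (i.val + 1)) : ℝ) * Complex.I))) := by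
    rw [Finset.sum_congr rfl fun w _ => h1 w]
    have h3 := Finset.prod_univ_sum (fun _ : Fin N => (Finset.univ : Finset (Bool × Bool)))
      (fun (i : Fin N) (b : Bool × Bool) => Complex.exp ((2 / 3 * z *
        ((bv b.1 + t * bv b.2) / 4 ^ (i.val + 1)) : ℝ) * Complex.I))
    rw [Fintype.piFinset_univ] at h3
    rw [← h3]
    refine Finset.prod_congr rfl fun i _ => ?_
    rw [Fintype.sum_prod_type]
    simp only [Fintype.sum_bool, bv, if_true, Bool.false_eq_true, if_false]
    have e1 : ((2 / 3 * z * ((3 + t * 3) / 4 ^ (i.val + 1)) : ℝ) : ℂ) * Complex.I =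
        ((2 * (z / 4 ^ (i.val + 1)) : ℝ) : ℂ) * Complex.I +
        ((2 * (t * z / 4 ^ (i.val + 1)) : ℝ) : ℂ) * Complex.I := by
      rw [← add_mul, ← Complex.ofReal_add]
      congr 2
      ring
    have e2 : ((2 / 3 * z * ((3 + t * 0) / 4 ^ (i.val + 1)) : ℝ) : ℂ) * Complex.I =
        ((2 * (z / 4 ^ (i.val + 1)) : ℝ) : ℂ) * Complex.I := by
      congr 2
      ring
    have e3 : ((2 / 3 * z * ((0 + t * 3) / 4 ^ (i.val + 1)) : ℝ) : ℂ) * Complex.I =
        ((2 * (t * z / 4 ^ (i.val + 1)) : ℝ) : ℂ) * Complex.I := by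
      congr 2
      ring
    have e4 : ((2 / 3 * z * ((0 + t * 0) / 4 ^ (i.val + 1)) : ℝ) : ℂ) * Complex.I = 0 := by
      have : (2 / 3 * z * ((0 + t * 0) / 4 ^ (i.val + 1)) : ℝ) = 0 := by ring
      rw [this, Complex.ofReal_zero, zero_mul]
    rw [e1, e2, e3, e4, Complex.exp_add, Complex.exp_zero]
    ring
  have h3 := congrArg Complex.normSq h2
  rw [map_prod] at h3
  have h4 : ∀ i ∈ (Finset.univ : Finset (Fin N)), Complex.normSq
      ((1 + Complex.exp ((2 * (z / 4 ^ (i.val + 1)) : ℝ) * Complex.I)) *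
        (1 + Complex.exp ((2 * (t * z / 4 ^ (i.val + 1)) : ℝ) * Complex.I))) =
      16 * (Real.cos (z / 4 ^ (i.val + 1)) ^ 2 * Real.cos (t * z / 4 ^ (i.val + 1)) ^ 2) := by
    intro i _
    rw [map_mul, normSq_one_add, normSq_one_add]
    ring
  rw [Finset.prod_congr rfl h4, Finset.prod_mul_distrib, Finset.prod_mul_distrib,
    Finset.prod_const, Finset.card_univ, Fintype.card_fin] at h3
  unfold Psi
  rw [prod_Icc N (fun i => Real.cos (z / 4 ^ i) ^ 2),
    prod_Icc N (fun i => Real.cos (t * z / 4 ^ i) ^ 2), ← h3, Complex.normSq_apply]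
  have hre : (∑ w : Wd N, Complex.exp ((2 / 3 * z * pr t w : ℝ) * Complex.I)).re =
      ∑ w : Wd N, Real.cos (2 / 3 * z * pr t w) := by
    rw [Complex.re_sum]
    exact Finset.sum_congr rfl fun w _ => Complex.exp_ofReal_mul_I_re _
  have him : (∑ w : Wd N, Complex.exp ((2 / 3 * z * pr t w : ℝ) * Complex.I)).im =
      ∑ w : Wd N, Real.sin (2 / 3 * z * pr t w) := by
    rw [Complex.im_sum]
    exact Finset.sum_congr rfl fun w _ => Complex.exp_ofReal_mul_I_im _
  rw [hre, him]
  ring

theorem sum_cos (N : ℕ) (t z : ℝ) :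
    16 ^ N * (Psi N z * Psi N (t * z)) =
      ∑ v : Wd N, ∑ w : Wd N, Real.cos (2 / 3 * z * (pr t v - pr t w)) := by
  rw [← sum_exp, sq, sq, Finset.sum_mul_sum, Finset.sum_mul_sum, ← Finset.sum_add_distrib]
  refine Finset.sum_congr rfl fun v _ => ?_
  rw [← Finset.sum_add_distrib]
  refine Finset.sum_congr rfl fun w _ => ?_
  rw [mul_sub, Real.cos_sub]

theorem Psi_nonneg (N : ℕ) (z : ℝ) : 0 ≤ Psi N z :=
  Finset.prod_nonneg fun _ _ => sq_nonneg _

theorem continuous_Psi (N : ℕ) : Continuous (Psi N) := by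
  unfold Psi
  fun_prop

end FOU

theorem FOU_thm : Stmt_FOU := by
  intro N t ht0 ht1
  set R : ℝ := 4 ^ N with hR
  have hR0 : 0 < R := by positivity
  have hc : Continuous fun z => Psi N z * Psi N (t * z) :=
    (FOU.continuous_Psi N).mul ((FOU.continuous_Psi N).comp (by fun_prop))
  have hc2 : Continuous fun z : ℝ => 2 * (1 - z / (2 * R)) * (Psi N z * Psi N (t * z)) :=
    (by fun_prop : Continuous fun z : ℝ => 2 * (1 - z / (2 * R))).mul hc
  have hnn : ∀ z, 0 ≤ Psi N z * Psi N (t * z) := fun z =>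
    mul_nonneg (FOU.Psi_nonneg N z) (FOU.Psi_nonneg N _)
  -- the majorant
  have h1 : ∫ z in (0 : ℝ)..R, Psi N z * Psi N (t * z) ≤
      ∫ z in (0 : ℝ)..(2 * R), 2 * (1 - z / (2 * R)) * (Psi N z * Psi N (t * z)) := by
    have e : ∫ z in (0 : ℝ)..(2 * R), 2 * (1 - z / (2 * R)) * (Psi N z * Psi N (t * z)) =
        (∫ z in (0 : ℝ)..R, 2 * (1 - z / (2 * R)) * (Psi N z * Psi N (t * z))) +
        ∫ z in R..(2 * R), 2 * (1 - z / (2 * R)) * (Psi N z * Psi N (t * z)) :=
      (intervalIntegral.integral_add_adjacent_intervals (hc2.intervalIntegrable _ _)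
        (hc2.intervalIntegrable _ _)).symm
    have e1 : ∫ z in (0 : ℝ)..R, Psi N z * Psi N (t * z) ≤
        ∫ z in (0 : ℝ)..R, 2 * (1 - z / (2 * R)) * (Psi N z * Psi N (t * z)) := by
      refine intervalIntegral.integral_mono_on hR0.le (hc.intervalIntegrable _ _)
        (hc2.intervalIntegrable _ _) ?_
      intro z hz
      have h2 : z / (2 * R) ≤ 1 / 2 := by
        rw [div_le_iff₀ (by linarith)]
        linarith [hz.2]
      nlinarith [hnn z]
    have e2 : 0 ≤ ∫ z in R..(2 * R), 2 * (1 - z / (2 * R)) * (Psi N z * Psi N (t * z)) := by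
      refine intervalIntegral.integral_nonneg (by linarith) ?_
      intro z hz
      have h2 : z / (2 * R) ≤ 1 := by
        rw [div_le_iff₀ (by linarith)]
        linarith [hz.2]
      exact mul_nonneg (by linarith) (hnn z)
    linarith
  -- the double sum
  have h2 : 16 ^ N * ∫ z in (0 : ℝ)..(2 * R), 2 * (1 - z / (2 * R)) *
      (Psi N z * Psi N (t * z)) = ∑ v : Wd N, ∑ w : Wd N, ∫ z in (0 : ℝ)..(2 * R),
        2 * (1 - z / (2 * R)) * Real.cos (2 / 3 * z * (pr t v - pr t w)) := by
    rw [← intervalIntegral.integral_const_mul]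
    have e : ∀ z : ℝ, 16 ^ N * (2 * (1 - z / (2 * R)) * (Psi N z * Psi N (t * z))) =
        ∑ v : Wd N, ∑ w : Wd N,
          2 * (1 - z / (2 * R)) * Real.cos (2 / 3 * z * (pr t v - pr t w)) := by
      intro z
      have := FOU.sum_cos N t z
      calc 16 ^ N * (2 * (1 - z / (2 * R)) * (Psi N z * Psi N (t * z)))
          = 2 * (1 - z / (2 * R)) * (16 ^ N * (Psi N z * Psi N (t * z))) := by ring
        _ = _ := by
          rw [this, Finset.mul_sum]
          refine Finset.sum_congr rfl fun v _ => ?_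
          rw [Finset.mul_sum]
    have hcc : ∀ v w : Wd N, Continuous fun z : ℝ =>
        2 * (1 - z / (2 * R)) * Real.cos (2 / 3 * z * (pr t v - pr t w)) := by
      intro v w
      fun_prop
    have hcs : ∀ v : Wd N, Continuous fun z : ℝ => ∑ w : Wd N,
        2 * (1 - z / (2 * R)) * Real.cos (2 / 3 * z * (pr t v - pr t w)) := fun v =>
      continuous_finsetSum _ fun w _ => hcc v w
    have i1 : ∀ v : Wd N, ∫ z in (0 : ℝ)..(2 * R), ∑ w : Wd N,
        2 * (1 - z / (2 * R)) * Real.cos (2 / 3 * z * (pr t v - pr t w)) =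
        ∑ w : Wd N, ∫ z in (0 : ℝ)..(2 * R),
          2 * (1 - z / (2 * R)) * Real.cos (2 / 3 * z * (pr t v - pr t w)) := fun v =>
      intervalIntegral.integral_finsetSum fun w _ => (hcc v w).intervalIntegrable _ _
    have i2 : ∫ z in (0 : ℝ)..(2 * R), ∑ v : Wd N, ∑ w : Wd N,
        2 * (1 - z / (2 * R)) * Real.cos (2 / 3 * z * (pr t v - pr t w)) =
        ∑ v : Wd N, ∫ z in (0 : ℝ)..(2 * R), ∑ w : Wd N,
          2 * (1 - z / (2 * R)) * Real.cos (2 / 3 * z * (pr t v - pr t w)) :=
      intervalIntegral.integral_finsetSum fun v _ => (hcs v).intervalIntegrable _ _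
    rw [intervalIntegral.integral_congr fun z _ => e z, i2]
    exact Finset.sum_congr rfl fun v _ => i1 v
  -- the estimate
  obtain ⟨M, hM⟩ := exists_nat_ge (2 * R + 1)
  have h3 : ∀ v w : Wd N, ∫ z in (0 : ℝ)..(2 * R),
      2 * (1 - z / (2 * R)) * Real.cos (2 / 3 * z * (pr t v - pr t w)) ≤
      R * ∑ j ∈ Finset.range M, FOU.bb j * (FOU.tau (R * (pr t v - pr t w) - j) +
        FOU.tau (R * (pr t v - pr t w) + j)) := by
    intro v w
    apply FOU.J_le hR0 M
    refine le_trans ?_ hM
    rw [abs_mul, abs_of_pos hR0]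
    have hv := pr_nonneg ht0 v
    have hw := pr_nonneg ht0 w
    have hv' := pr_le ht0 v
    have hw' := pr_le ht0 w
    have h5 : (0 : ℝ) ≤ (1 + t) / 4 ^ N := by positivity
    have h6 : |pr t v - pr t w| ≤ 2 := abs_le.2 ⟨by linarith, by linarith⟩
    nlinarith
  have h4 : ∑ v : Wd N, ∑ w : Wd N, R * ∑ j ∈ Finset.range M, FOU.bb j *
      (FOU.tau (R * (pr t v - pr t w) - j) + FOU.tau (R * (pr t v - pr t w) + j)) ≤
      R * (48 * (2 * (R * S N t))) := by
    have e : ∑ v : Wd N, ∑ w : Wd N, R * ∑ j ∈ Finset.range M, FOU.bb j *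
        (FOU.tau (R * (pr t v - pr t w) - j) + FOU.tau (R * (pr t v - pr t w) + j)) =
        R * ∑ j ∈ Finset.range M, FOU.bb j * ((∑ v : Wd N, ∑ w : Wd N,
          FOU.tau (R * (pr t v - pr t w) - j)) + ∑ v : Wd N, ∑ w : Wd N,
          FOU.tau (R * (pr t v - pr t w) - (-(j : ℝ)))) := by
      have e1 : ∀ j : ℕ, FOU.bb j * ((∑ v : Wd N, ∑ w : Wd N,
          FOU.tau (R * (pr t v - pr t w) - j)) + ∑ v : Wd N, ∑ w : Wd N,
          FOU.tau (R * (pr t v - pr t w) - (-(j : ℝ)))) = ∑ v : Wd N, ∑ w : Wd N,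
          FOU.bb j * (FOU.tau (R * (pr t v - pr t w) - j) +
            FOU.tau (R * (pr t v - pr t w) + j)) := by
        intro j
        rw [← Finset.sum_add_distrib, Finset.mul_sum]
        refine Finset.sum_congr rfl fun v _ => ?_
        rw [← Finset.sum_add_distrib, Finset.mul_sum]
        refine Finset.sum_congr rfl fun w _ => ?_
        rw [sub_neg_eq_add]
      have e2 : ∑ j ∈ Finset.range M, FOU.bb j * ((∑ v : Wd N, ∑ w : Wd N,
          FOU.tau (R * (pr t v - pr t w) - j)) + ∑ v : Wd N, ∑ w : Wd N,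
          FOU.tau (R * (pr t v - pr t w) - (-(j : ℝ)))) =
          ∑ v : Wd N, ∑ w : Wd N, ∑ j ∈ Finset.range M,
          FOU.bb j * (FOU.tau (R * (pr t v - pr t w) - j) +
            FOU.tau (R * (pr t v - pr t w) + j)) := by
        calc _ = ∑ j ∈ Finset.range M, ∑ v : Wd N, ∑ w : Wd N,
              FOU.bb j * (FOU.tau (R * (pr t v - pr t w) - j) +
                FOU.tau (R * (pr t v - pr t w) + j)) :=
              Finset.sum_congr rfl fun j _ => e1 j
          _ = ∑ v : Wd N, ∑ j ∈ Finset.range M, ∑ w : Wd N,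
              FOU.bb j * (FOU.tau (R * (pr t v - pr t w) - j) +
                FOU.tau (R * (pr t v - pr t w) + j)) := Finset.sum_comm
          _ = _ := Finset.sum_congr rfl fun v _ => Finset.sum_comm
      rw [e2, Finset.mul_sum]
      refine Finset.sum_congr rfl fun v _ => ?_
      rw [Finset.mul_sum]
    rw [e]
    refine mul_le_mul_of_nonneg_left ?_ hR0.le
    have hS := S_nonneg N t
    calc ∑ j ∈ Finset.range M, FOU.bb j * ((∑ v : Wd N, ∑ w : Wd N,
          FOU.tau (R * (pr t v - pr t w) - j)) + ∑ v : Wd N, ∑ w : Wd N,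
          FOU.tau (R * (pr t v - pr t w) - (-(j : ℝ))))
        ≤ ∑ j ∈ Finset.range M, FOU.bb j * (2 * (R * S N t)) := by
          refine Finset.sum_le_sum fun j _ => mul_le_mul_of_nonneg_left ?_ (FOU.bb_nonneg j)
          have a1 := FOU.sum_tau_le N ht0 (j : ℝ)
          have a2 := FOU.sum_tau_le N ht0 (-(j : ℝ))
          linarith
      _ = (∑ j ∈ Finset.range M, FOU.bb j) * (2 * (R * S N t)) := by
          rw [Finset.sum_mul]
      _ ≤ 48 * (2 * (R * S N t)) :=
          mul_le_mul_of_nonneg_right (FOU.sum_bb M) (by positivity)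
  have h5 : 16 ^ N * ∫ z in (0 : ℝ)..R, Psi N z * Psi N (t * z) ≤
      R * (48 * (2 * (R * S N t))) := by
    refine (mul_le_mul_of_nonneg_left h1 (by positivity)).trans ?_
    rw [h2]
    exact (Finset.sum_le_sum fun v _ => Finset.sum_le_sum fun w _ => h3 v w).trans h4
  have h6 : R * R = 16 ^ N := by
    rw [hR, ← mul_pow]
    norm_num
  have h7 : R * (48 * (2 * (R * S N t))) = 16 ^ N * (96 * S N t) := by
    rw [← h6]
    ring
  rw [h7] at h5
  have h8 := le_of_mul_le_mul_left h5 (by positivity)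
  have hS := S_nonneg N t
  linarith

end Pool.Agent.FCC
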