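import Pool.Agent.FCC.Stmts

/-!
# Four corner Cantor sets: the sets and their squares
-/

namespace Pool.Agent.FCC

open MeasureTheory Set

namespace GEO

/-- The left end point of the interval of a word of bits. -/
noncomputable def qx {n : ℕ} (a : Fin n → Bool) : ℝ := ∑ i : Fin n, bv (a i) / 4 ^ (i.val + 1)

theorem qx_succ {n : ℕ} (a : Fin (n + 1) → Bool) :
    qx a = (bv (a 0) + qx (fun i : Fin n => a i.succ)) / 4 := by
  unfold qx
  rw [Fin.sum_univ_succ, add_div, Finset.sum_div]
  congr 1
  · simp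
  · refine Finset.sum_congr rfl fun i _ => ?_
    rw [Fin.val_succ, div_div, pow_succ (4 : ℝ) (i.val + 1)]

theorem mem_succ (n : ℕ) (x : ℝ) : x ∈ cset (n + 1) ↔ 4 * x ∈ cset n ∨ 4 * x - 3 ∈ cset n := by
  constructor
  · rintro (⟨y, hy, rfl⟩ | ⟨y, hy, rfl⟩)
    · left
      have : 4 * (y / 4) = y := by ring
      show 4 * (y / 4) ∈ cset n
      rwa [this]
    · right
      have : 4 * ((y + 3) / 4) - 3 = y := by ring
      show 4 * ((y + 3) / 4) - 3 ∈ cset n
      rwa [this]
  · rintro (h | h)
    · refine Or.inl ⟨4 * x, h, ?_⟩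
      show 4 * x / 4 = x
      ring
    · refine Or.inr ⟨4 * x - 3, h, ?_⟩
      show (4 * x - 3 + 3) / 4 = x
      ring

theorem mem_cset (n : ℕ) : ∀ x : ℝ, x ∈ cset n ↔
    ∃ a : Fin n → Bool, qx a ≤ x ∧ x ≤ qx a + 1 / 4 ^ n := by
  induction n with
  | zero =>
    intro x
    have h0 : ∀ a : Fin 0 → Bool, qx a = 0 := fun a => by unfold qx; simp
    constructor
    · rintro ⟨h1, h2⟩
      refine ⟨fun i => i.elim0, ?_, ?_⟩
      · rw [h0]; exact h1
      · rw [h0]; simpa using h2
    · rintro ⟨a, h1, h2⟩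
      rw [h0] at h1 h2
      refine ⟨h1, ?_⟩
      simpa using h2
  | succ n ih =>
    intro x
    rw [mem_succ, ih, ih]
    have e : (1 : ℝ) / 4 ^ (n + 1) = (1 / 4 ^ n) / 4 := by rw [pow_succ, div_div]
    constructor
    · rintro (⟨a, h1, h2⟩ | ⟨a, h1, h2⟩)
      · refine ⟨Fin.cons false a, ?_, ?_⟩
        · rw [qx_succ]
          have hb : bv ((Fin.cons false a : Fin (n + 1) → Bool) 0) = 0 := by
            rw [Fin.cons_zero]; rfl
          have ht : (fun i : Fin n => (Fin.cons false a : Fin (n + 1) → Bool) i.succ) = a := by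
            funext i; rw [Fin.cons_succ]
          rw [hb, ht]
          linarith
        · rw [qx_succ, e]
          have hb : bv ((Fin.cons false a : Fin (n + 1) → Bool) 0) = 0 := by
            rw [Fin.cons_zero]; rfl
          have ht : (fun i : Fin n => (Fin.cons false a : Fin (n + 1) → Bool) i.succ) = a := by
            funext i; rw [Fin.cons_succ]
          rw [hb, ht]
          linarith
      · refine ⟨Fin.cons true a, ?_, ?_⟩
        · rw [qx_succ]
          have hb : bv ((Fin.cons true a : Fin (n + 1) → Bool) 0) = 3 := by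
            rw [Fin.cons_zero]; rfl
          have ht : (fun i : Fin n => (Fin.cons true a : Fin (n + 1) → Bool) i.succ) = a := by
            funext i; rw [Fin.cons_succ]
          rw [hb, ht]
          linarith
        · rw [qx_succ, e]
          have hb : bv ((Fin.cons true a : Fin (n + 1) → Bool) 0) = 3 := by
            rw [Fin.cons_zero]; rfl
          have ht : (fun i : Fin n => (Fin.cons true a : Fin (n + 1) → Bool) i.succ) = a := by
            funext i; rw [Fin.cons_succ]
          rw [hb, ht]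
          linarith
    · rintro ⟨a, h1, h2⟩
      rw [qx_succ] at h1
      rw [qx_succ, e] at h2
      cases hb : a 0 with
      | false =>
        have h3 : bv (a 0) = 0 := by rw [hb]; rfl
        rw [h3] at h1 h2
        exact Or.inl ⟨fun i : Fin n => a i.succ, by linarith, by linarith⟩
      | true =>
        have h3 : bv (a 0) = 3 := by rw [hb]; rfl
        rw [h3] at h1 h2
        exact Or.inr ⟨fun i : Fin n => a i.succ, by linarith, by linarith⟩

theorem symm_cset (n : ℕ) : ∀ x : ℝ, x ∈ cset n ↔ 1 - x ∈ cset n := by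
  induction n with
  | zero =>
    intro x
    constructor
    · rintro ⟨h1, h2⟩
      exact ⟨by linarith, by linarith⟩
    · rintro ⟨h1, h2⟩
      exact ⟨by linarith, by linarith⟩
  | succ n ih =>
    intro x
    rw [mem_succ, mem_succ, ih (4 * x), ih (4 * x - 3)]
    have e1 : 4 * (1 - x) = 1 - (4 * x - 3) := by ring
    have e2 : 4 * (1 - x) - 3 = 1 - 4 * x := by ring
    rw [e2, e1]
    exact or_comm

theorem compact_cset (n : ℕ) : IsCompact (cset n) := by
  induction n with
  | zero => exact isCompact_Icc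
  | succ n ih =>
    exact (ih.image (by fun_prop)).union (ih.image (by fun_prop))

theorem px_eq {n : ℕ} (w : Wd n) : px w = qx (fun i => (w i).1) := rfl
theorem py_eq {n : ℕ} (w : Wd n) : py w = qx (fun i => (w i).2) := rfl

theorem compact_E (n : ℕ) : IsCompact (E n) := by
  have h : E n = Complex.equivRealProdCLM.symm '' (cset n ×ˢ cset n) := by
    ext z
    constructor
    · rintro ⟨h1, h2⟩
      exact ⟨(z.re, z.im), ⟨h1, h2⟩, Complex.ext rfl rfl⟩
    · rintro ⟨p, ⟨h1, h2⟩, rfl⟩
      exact ⟨h1, h2⟩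
  rw [h]
  exact ((compact_cset n).prod (compact_cset n)).image
    Complex.equivRealProdCLM.symm.continuous

end GEO

open GEO in
theorem GEO_thm : Stmt_GEO := by
  intro n
  refine ⟨?_, symm_cset n, compact_cset n, compact_E n, ?_⟩
  · ext z
    constructor
    · rintro ⟨h1, h2⟩
      obtain ⟨a, ha1, ha2⟩ := (mem_cset n z.re).1 h1
      obtain ⟨b, hb1, hb2⟩ := (mem_cset n z.im).1 h2
      exact mem_iUnion.2 ⟨fun i => (a i, b i), ⟨ha1, ha2⟩, ⟨hb1, hb2⟩⟩
    · intro h
      obtain ⟨w, ⟨ha1, ha2⟩, ⟨hb1, hb2⟩⟩ := mem_iUnion.1 h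
      exact ⟨(mem_cset n z.re).2 ⟨fun i => (w i).1, ha1, ha2⟩,
        (mem_cset n z.im).2 ⟨fun i => (w i).2, hb1, hb2⟩⟩
  · intro t ht
    have h4 : (0 : ℝ) < 4 ^ n := by positivity
    have ht1 : 0 < 1 + t := by linarith
    ext u
    constructor
    · intro hu
      obtain ⟨w, h1, h2⟩ := mem_iUnion.1 hu
      have hs0 : 0 ≤ (u - pr t w) / (1 + t) := div_nonneg (by linarith) ht1.le
      have hs1 : (u - pr t w) / (1 + t) ≤ 1 / 4 ^ n := by
        rw [div_le_iff₀ ht1]
        have : 1 / 4 ^ n * (1 + t) = (1 + t) / 4 ^ n := by ring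
        rw [this]
        linarith
      refine ⟨px w + (u - pr t w) / (1 + t),
        (mem_cset n _).2 ⟨fun i => (w i).1, ?_, ?_⟩, py w + (u - pr t w) / (1 + t),
        (mem_cset n _).2 ⟨fun i => (w i).2, ?_, ?_⟩, ?_⟩
      · rw [← px_eq]; linarith
      · rw [← px_eq]; linarith
      · rw [← py_eq]; linarith
      · rw [← py_eq]; linarith
      · have hp : pr t w = px w + t * py w := rfl
        have : px w + (u - pr t w) / (1 + t) + t * (py w + (u - pr t w) / (1 + t)) =
            px w + t * py w + (u - pr t w) / (1 + t) * (1 + t) := by ring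
        rw [this, div_mul_cancel₀ _ ht1.ne', hp]
        ring
    · rintro ⟨x, hx, y, hy, rfl⟩
      obtain ⟨a, ha1, ha2⟩ := (mem_cset n x).1 hx
      obtain ⟨b, hb1, hb2⟩ := (mem_cset n y).1 hy
      refine mem_iUnion.2 ⟨fun i => (a i, b i), ?_, ?_⟩
      · show qx a + t * qx b ≤ x + t * y
        have := mul_le_mul_of_nonneg_left hb1 ht
        linarith
      · show x + t * y ≤ qx a + t * qx b + (1 + t) / 4 ^ n
        have := mul_le_mul_of_nonneg_left hb2 ht
        have e : (1 + t) / 4 ^ n = 1 / 4 ^ n + t * (1 / 4 ^ n) := by ring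
        rw [e]
        linarith

end Pool.Agent.FCC
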