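import Pool.Agent.FCC.Stmts

/-!
# INT: the average length of the projections in the main range
-/

namespace Pool.Agent.FCC

open MeasureTheory Set

namespace INT

/-- The level used for the size `4 ^ k`. -/
def lev (n k : ℕ) : ℕ := n / (900 * 4 ^ k * (k + 1))

/-- The bad directions. -/
def Bad (n k : ℕ) : Set ℝ := {t : ℝ | t ∈ Icc (1 / 4 : ℝ) 1 ∧ S (lev n k) t ≤ 4 * 4 ^ k}

theorem measurableSet_Bad (n k : ℕ) : MeasurableSet (Bad n k) := by
  have : Bad n k = Icc (1 / 4 : ℝ) 1 ∩ (S (lev n k)) ⁻¹' (Iic (4 * 4 ^ k)) := rfl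
  rw [this]
  exact measurableSet_Icc.inter (measurable_S _ measurableSet_Iic)

theorem vol_Bad_le (n k : ℕ) : (volume (Bad n k)).toReal ≤ 1 := by
  have h : volume (Bad n k) ≤ volume (Icc (1 / 4 : ℝ) 1) := measure_mono fun t ht => ht.1
  rw [Real.volume_Icc] at h
  calc (volume (Bad n k)).toReal ≤ (ENNReal.ofReal (1 - 1 / 4)).toReal :=
        ENNReal.toReal_mono ENNReal.ofReal_ne_top h
    _ ≤ 1 := by rw [ENNReal.toReal_ofReal (by norm_num)]; norm_num

theorem log_four : Real.log 4 ≤ 1.4 := by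
  have h : (4 : ℝ) = 2 ^ 2 := by norm_num
  rw [h, Real.log_pow]
  have := Real.log_two_lt_d9
  push_cast
  linarith

theorem good (hD : Stmt_DICH) (n k : ℕ) {t : ℝ} (ht : t ∈ Icc (1 / 4 : ℝ) 1)
    (h : t ∉ Bad n k) : L n t ≤ 7 / 4 ^ k := by
  have ht0 : 0 ≤ t := by linarith [ht.1]
  rcases Nat.eq_zero_or_pos k with rfl | hk
  · have := L_le n ht0
    rw [pow_zero]
    linarith [ht.2]
  have hS : 4 * 4 ^ k < S (lev n k) t := by
    by_contra hc
    exact h ⟨ht, not_lt.1 hc⟩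
  have h4 : (4 : ℕ) ≤ 4 ^ k := by
    calc (4 : ℕ) = 4 ^ 1 := by norm_num
      _ ≤ 4 ^ k := Nat.pow_le_pow_right (by norm_num) hk
  have h1 := hD (lev n k) (4 ^ k) t ht0 ht.2 (by omega) (by push_cast; exact hS) n
  push_cast at h1
  apply h1
  have h2 : ((lev n k : ℕ) : ℝ) * (900 * 4 ^ k * (k + 1)) ≤ n := by
    have : lev n k * (900 * 4 ^ k * (k + 1)) ≤ n := Nat.div_mul_le_self _ _
    exact_mod_cast this
  refine le_trans ?_ h2
  apply mul_le_mul_of_nonneg_left _ (Nat.cast_nonneg _)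
  rw [Real.log_pow]
  have h3 := log_four
  have h5 : (1 : ℝ) ≤ 4 ^ k := one_le_pow₀ (by norm_num)
  have h6 : (0 : ℝ) ≤ k := Nat.cast_nonneg k
  have h7 : (k : ℝ) * Real.log 4 ≤ k * 1.4 := mul_le_mul_of_nonneg_left h3 h6
  have h8 : 640 * (4 : ℝ) ^ k * (k * Real.log 4) ≤ 640 * 4 ^ k * (k * 1.4) :=
    mul_le_mul_of_nonneg_left h7 (by positivity)
  nlinarith [mul_nonneg (pow_pos (show (0 : ℝ) < 4 by norm_num) k).le h6]

theorem vol_Bad (hT : Stmt_TAIL) (q : ℝ) (hq : 0 < q) (hq4 : q < 1 / 4) :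
    ∃ C : ℝ, 0 < C ∧ ∀ n k : ℕ, 1 ≤ n →
      (volume (Bad n k)).toReal ≤ C * (256 ^ k * (k + 1) ^ 2 / n) ^ q := by
  obtain ⟨C, hC, hCT⟩ := hT q hq hq4
  refine ⟨C * 1800 + 900, by positivity, fun n k hn => ?_⟩
  have hn0 : (0 : ℝ) < n := by exact_mod_cast hn
  have hk0 : (0 : ℝ) ≤ k := Nat.cast_nonneg k
  have hX : (0 : ℝ) < 256 ^ k * (k + 1) ^ 2 / n := by positivity
  rcases Nat.eq_zero_or_pos (lev n k) with h0 | hpos
  · have h1 : n < 900 * 4 ^ k * (k + 1) := by
      rcases Nat.div_eq_zero_iff.1 h0 with h | h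
      · exfalso
        have : 0 < 900 * 4 ^ k * (k + 1) := by positivity
        omega
      · exact h
    have h2 : (n : ℝ) ≤ 900 * 4 ^ k * (k + 1) := by exact_mod_cast h1.le
    have h3 : 1 / 900 ≤ (256 : ℝ) ^ k * (k + 1) ^ 2 / n := by
      rw [div_le_div_iff₀ (by norm_num) hn0]
      have h256 : (256 : ℝ) ^ k = 4 ^ k * 64 ^ k := by rw [← mul_pow]; norm_num
      have h64 : (1 : ℝ) ≤ 64 ^ k := one_le_pow₀ (by norm_num)
      rw [h256]
      have h4 : (4 : ℝ) ^ k * (k + 1) ≤ 4 ^ k * 64 ^ k * (k + 1) ^ 2 := by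
        have h5 : (1 : ℝ) ≤ 64 ^ k * (k + 1) := by nlinarith
        have h6 : (0 : ℝ) ≤ 4 ^ k * (k + 1) := by positivity
        nlinarith
      linarith
    have h4 : (1 : ℝ) / 900 ≤ (256 ^ k * (k + 1) ^ 2 / n) ^ q := by
      calc (1 : ℝ) / 900 = (1 / 900) ^ (1 : ℝ) := (Real.rpow_one _).symm
        _ ≤ (1 / 900) ^ q := Real.rpow_le_rpow_of_exponent_ge (by norm_num) (by norm_num)
            (by linarith)
        _ ≤ _ := Real.rpow_le_rpow (by norm_num) h3 hq.le
    have h5 := vol_Bad_le n k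
    have h6 : 0 ≤ C * 1800 * (256 ^ k * (k + 1) ^ 2 / n : ℝ) ^ q := by positivity
    rw [add_mul]
    linarith
  · have h1 := hCT k (lev n k) hpos
    have hB : {t : ℝ | t ∈ Icc (1 / 4 : ℝ) 1 ∧ S (lev n k) t ≤ 4 * 4 ^ k} = Bad n k := rfl
    rw [hB] at h1
    refine h1.trans ?_
    have hD : (0 : ℝ) < 900 * 4 ^ k * (k + 1) := by positivity
    have h2 : (n : ℝ) ≤ lev n k * (1800 * 4 ^ k * (k + 1)) := by
      have h3 : n < (lev n k + 1) * (900 * 4 ^ k * (k + 1)) := by
        unfold lev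
        rw [mul_comm]
        exact Nat.lt_mul_div_succ _ (by positivity)
      have h4 : (lev n k + 1) * (900 * 4 ^ k * (k + 1)) ≤
          lev n k * (1800 * 4 ^ k * (k + 1)) := by
        have : (lev n k + 1) ≤ lev n k * 2 := by omega
        calc (lev n k + 1) * (900 * 4 ^ k * (k + 1)) ≤ (lev n k * 2) * (900 * 4 ^ k * (k + 1)) :=
              Nat.mul_le_mul_right _ this
          _ = lev n k * (1800 * 4 ^ k * (k + 1)) := by ring
      exact_mod_cast (h3.le.trans h4)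
    have hl : (0 : ℝ) < lev n k := by exact_mod_cast hpos
    have h5 : (64 : ℝ) ^ k * (k + 1) / lev n k ≤ 1800 * (256 ^ k * (k + 1) ^ 2 / n) := by
      rw [div_le_iff₀ hl]
      have h256 : (256 : ℝ) ^ k = 4 ^ k * 64 ^ k := by rw [← mul_pow]; norm_num
      have h6 : 1800 * (256 ^ k * (k + 1) ^ 2 / n) * (lev n k : ℝ) =
          64 ^ k * (k + 1) * ((lev n k * (1800 * 4 ^ k * (k + 1))) / n) := by
        rw [h256]; ring
      rw [h6]
      have h7 : 1 ≤ (lev n k * (1800 * 4 ^ k * (k + 1)) : ℝ) / n := by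
        rw [le_div_iff₀ hn0, one_mul]; exact h2
      have h8 : (0 : ℝ) ≤ 64 ^ k * (k + 1) := by positivity
      nlinarith
    have h6 : ((64 : ℝ) ^ k * (k + 1) / lev n k) ^ q ≤
        1800 * (256 ^ k * (k + 1) ^ 2 / n) ^ q := by
      calc ((64 : ℝ) ^ k * (k + 1) / lev n k) ^ q
          ≤ (1800 * (256 ^ k * (k + 1) ^ 2 / n)) ^ q :=
            Real.rpow_le_rpow (by positivity) h5 hq.le
        _ = 1800 ^ q * (256 ^ k * (k + 1) ^ 2 / n) ^ q := by
            rw [Real.mul_rpow (by norm_num) hX.le]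
        _ ≤ 1800 * (256 ^ k * (k + 1) ^ 2 / n) ^ q := by
            apply mul_le_mul_of_nonneg_right _ (by positivity)
            calc (1800 : ℝ) ^ q ≤ 1800 ^ (1 : ℝ) :=
                  Real.rpow_le_rpow_of_exponent_le (by norm_num) (by linarith)
              _ = 1800 := Real.rpow_one _
    have h7 : C * ((64 : ℝ) ^ k * (k + 1) / lev n k) ^ q ≤
        C * (1800 * (256 ^ k * (k + 1) ^ 2 / n) ^ q) := mul_le_mul_of_nonneg_left h6 hC.le
    have h8 : 0 ≤ 900 * (256 ^ k * (k + 1) ^ 2 / n : ℝ) ^ q := by positivity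
    rw [add_mul]
    linarith

theorem pointwise (hD : Stmt_DICH) (n : ℕ) {t : ℝ} (ht : t ∈ Icc (1 / 4 : ℝ) 1) :
    L n t ≤ 7 / 4 ^ n + ∑ k ∈ Finset.range (n + 1),
      28 / 4 ^ k * (Bad n k).indicator (1 : ℝ → ℝ) t := by
  classical
  have ht0 : 0 ≤ t := by linarith [ht.1]
  have hnn : ∀ k ∈ Finset.range (n + 1),
      0 ≤ 28 / 4 ^ k * (Bad n k).indicator (1 : ℝ → ℝ) t := fun k _ =>
    mul_nonneg (by positivity) (indicator_nonneg (fun _ _ => zero_le_one) _)
  by_cases h : ∃ k, k ≤ n ∧ t ∈ Bad n k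
  · have h1 := Nat.find_spec h
    have h2 : ∀ j, j < Nat.find h → ¬ (j ≤ n ∧ t ∈ Bad n j) := fun j hj => Nat.find_min h hj
    set k := Nat.find h with hk
    have h3 : 28 / 4 ^ k * (Bad n k).indicator (1 : ℝ → ℝ) t ≤
        ∑ k ∈ Finset.range (n + 1), 28 / 4 ^ k * (Bad n k).indicator (1 : ℝ → ℝ) t :=
      Finset.single_le_sum hnn (Finset.mem_range.2 (by omega))
    rw [indicator_of_mem h1.2, Pi.one_apply, mul_one] at h3
    have h4 : L n t ≤ 28 / 4 ^ k := by
      rcases Nat.eq_zero_or_pos k with h0 | hpos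
      · rw [h0, pow_zero]
        have := L_le n ht0
        linarith [ht.2]
      · have h5 : t ∉ Bad n (k - 1) := fun hc => h2 (k - 1) (by omega) ⟨by omega, hc⟩
        have h6 := good hD n (k - 1) ht h5
        have h7 : (4 : ℝ) ^ k = 4 ^ (k - 1) * 4 := by
          rw [← pow_succ]; congr 1; omega
        rw [h7]
        have h8 : (0 : ℝ) < 4 ^ (k - 1) := by positivity
        calc L n t ≤ 7 / 4 ^ (k - 1) := h6
          _ = 28 / (4 ^ (k - 1) * 4) := by field_simp; norm_num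
    have h9 : (0 : ℝ) ≤ 7 / 4 ^ n := by positivity
    linarith
  · have h1 : t ∉ Bad n n := fun hc => h ⟨n, le_refl n, hc⟩
    have h2 := good hD n n ht h1
    have h3 := Finset.sum_nonneg hnn
    linarith

theorem integrableOn_L (n : ℕ) : IntegrableOn (L n) (Icc (1 / 4 : ℝ) 1) := by
  apply Measure.integrableOn_of_bounded (M := 2)
  · rw [Real.volume_Icc]; exact ENNReal.ofReal_ne_top
  · exact (measurable_L n).aestronglyMeasurable
  · rw [ae_restrict_iff' measurableSet_Icc]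
    refine Filter.Eventually.of_forall fun t ht => ?_
    have ht0 : 0 ≤ t := by linarith [ht.1]
    rw [Real.norm_eq_abs, abs_of_nonneg (L_nonneg n t)]
    linarith [L_le n ht0, ht.2]

theorem integrableOn_ind (n k : ℕ) :
    IntegrableOn ((Bad n k).indicator (1 : ℝ → ℝ)) (Icc (1 / 4 : ℝ) 1) := by
  apply Measure.integrableOn_of_bounded (M := 1)
  · rw [Real.volume_Icc]; exact ENNReal.ofReal_ne_top
  · exact ((measurable_one).indicator (measurableSet_Bad n k)).aestronglyMeasurable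
  · refine Filter.Eventually.of_forall fun t => ?_
    by_cases h : t ∈ Bad n k
    · rw [indicator_of_mem h]; simp
    · rw [indicator_of_notMem h]; simp

theorem integral_le (hD : Stmt_DICH) (n : ℕ) :
    ∫ t in (1 / 4 : ℝ)..1, L n t ≤ 7 / 4 ^ n + ∑ k ∈ Finset.range (n + 1),
      28 / 4 ^ k * (volume (Bad n k)).toReal := by
  rw [intervalIntegral.integral_of_le (by norm_num), ← integral_Icc_eq_integral_Ioc]
  have hi : ∀ k ∈ Finset.range (n + 1), Integrable
      (fun t => 28 / 4 ^ k * (Bad n k).indicator (1 : ℝ → ℝ) t)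
      (volume.restrict (Icc (1 / 4 : ℝ) 1)) := fun k _ => (integrableOn_ind n k).const_mul _
  have hs : IntegrableOn (fun t => ∑ k ∈ Finset.range (n + 1),
      28 / 4 ^ k * (Bad n k).indicator (1 : ℝ → ℝ) t) (Icc (1 / 4 : ℝ) 1) :=
    integrable_finsetSum _ hi
  have hc : IntegrableOn (fun _ : ℝ => (7 / 4 ^ n : ℝ)) (Icc (1 / 4 : ℝ) 1) :=
    integrableOn_const (by rw [Real.volume_Icc]; exact ENNReal.ofReal_ne_top)
  calc ∫ t in Icc (1 / 4 : ℝ) 1, L n t
      ≤ ∫ t in Icc (1 / 4 : ℝ) 1, (7 / 4 ^ n + ∑ k ∈ Finset.range (n + 1),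
          28 / 4 ^ k * (Bad n k).indicator (1 : ℝ → ℝ) t) :=
        setIntegral_mono_on (integrableOn_L n) (hc.add hs) measurableSet_Icc
          fun t ht => pointwise hD n ht
    _ = (∫ _ in Icc (1 / 4 : ℝ) 1, (7 / 4 ^ n : ℝ)) + ∑ k ∈ Finset.range (n + 1),
          28 / 4 ^ k * ∫ t in Icc (1 / 4 : ℝ) 1, (Bad n k).indicator (1 : ℝ → ℝ) t := by
        rw [integral_add hc hs, integral_finsetSum _ hi]
        congr 1
        exact Finset.sum_congr rfl fun k _ => integral_const_mul _ _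
    _ ≤ _ := by
        apply add_le_add
        · rw [setIntegral_const]
          have h1 : volume.real (Icc (1 / 4 : ℝ) 1) = 3 / 4 := by
            rw [Measure.real, Real.volume_Icc, ENNReal.toReal_ofReal (by norm_num)]; norm_num
          rw [h1, smul_eq_mul]
          have h2 : (0 : ℝ) ≤ 7 / 4 ^ n := by positivity
          linarith
        · apply Finset.sum_le_sum
          intro k _
          apply mul_le_mul_of_nonneg_left _ (by positivity)
          rw [integral_indicator_one (measurableSet_Bad n k), Measure.real]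
          apply ENNReal.toReal_mono
          · exact ne_top_of_le_ne_top (b := volume (Icc (1 / 4 : ℝ) 1))
              (by rw [Real.volume_Icc]; exact ENNReal.ofReal_ne_top)
              (measure_mono fun t ht => ht.1)
          · exact Measure.restrict_apply_le _ _

end INT

open INT in
theorem INT_thm : Stmt_DICH → Stmt_TAIL → Stmt_INT := by
  intro hD hT q hq hq4
  obtain ⟨C, hC, hCB⟩ := vol_Bad hT q hq hq4
  set ρ : ℝ := 256 ^ q / 4 with hρ
  have hρ0 : 0 < ρ := by positivity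
  have hρ1 : ρ < 1 := by
    rw [hρ, div_lt_one (by norm_num)]
    calc (256 : ℝ) ^ q < 256 ^ (1 / 4 : ℝ) := Real.rpow_lt_rpow_of_exponent_lt (by norm_num) hq4
      _ = 4 := by
        have : (256 : ℝ) = 4 ^ (4 : ℝ) := by norm_num
        rw [this, ← Real.rpow_mul (by norm_num)]
        norm_num
  have hsum : Summable fun k : ℕ => ((k : ℝ) + 1) * ρ ^ k := by
    have h1 := summable_pow_mul_geometric_of_norm_lt_one 1
      (r := ρ) (by rw [Real.norm_eq_abs, abs_of_pos hρ0]; exact hρ1)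
    have h2 := summable_geometric_of_lt_one hρ0.le hρ1
    refine (h1.add h2).congr fun k => ?_
    simp only [pow_one]; ring
  set s := ∑' k : ℕ, ((k : ℝ) + 1) * ρ ^ k with hs
  have hs0 : 0 ≤ s := tsum_nonneg fun k => by positivity
  refine ⟨7 + 28 * C * s, by positivity, fun n hn => ?_⟩
  have hn0 : (0 : ℝ) < n := by exact_mod_cast hn
  have hn1 : (1 : ℝ) ≤ n := by exact_mod_cast hn
  have hnq : (0 : ℝ) < (n : ℝ) ^ (-q) := Real.rpow_pos_of_pos hn0 _
  refine (integral_le hD n).trans ?_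
  have h1 : (7 : ℝ) / 4 ^ n ≤ 7 * (n : ℝ) ^ (-q) := by
    rw [Real.rpow_neg hn0.le, div_eq_mul_inv]
    apply mul_le_mul_of_nonneg_left _ (by norm_num)
    apply inv_anti₀ (by positivity)
    calc (n : ℝ) ^ q ≤ (n : ℝ) ^ (1 : ℝ) := Real.rpow_le_rpow_of_exponent_le hn1 (by linarith)
      _ = n := Real.rpow_one _
      _ ≤ 4 ^ n := by
        have : n < 4 ^ n := Nat.lt_pow_self (by norm_num)
        exact_mod_cast this.le
  have h2 : ∀ k ∈ Finset.range (n + 1), 28 / 4 ^ k * (volume (Bad n k)).toReal ≤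
      28 * C * (n : ℝ) ^ (-q) * (((k : ℝ) + 1) * ρ ^ k) := by
    intro k _
    have hk0 : (0 : ℝ) ≤ k := Nat.cast_nonneg k
    have h3 := hCB n k hn
    have h4 : (256 ^ k * ((k : ℝ) + 1) ^ 2 / n) ^ q ≤
        (256 ^ q) ^ k * ((k : ℝ) + 1) * (n : ℝ) ^ (-q) := by
      rw [Real.div_rpow (by positivity) hn0.le, Real.mul_rpow (by positivity) (by positivity),
        Real.rpow_neg hn0.le, div_eq_mul_inv]
      apply mul_le_mul_of_nonneg_right _ (by positivity)
      have h5 : ((256 : ℝ) ^ k) ^ q = (256 ^ q) ^ k := by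
        rw [← Real.rpow_natCast, ← Real.rpow_natCast, ← Real.rpow_mul (by norm_num),
          ← Real.rpow_mul (by norm_num), mul_comm]
      rw [h5]
      apply mul_le_mul_of_nonneg_left _ (by positivity)
      calc (((k : ℝ) + 1) ^ 2) ^ q = ((k : ℝ) + 1) ^ (2 * q) := by
            rw [← Real.rpow_natCast, ← Real.rpow_mul (by positivity)]; norm_num
        _ ≤ ((k : ℝ) + 1) ^ (1 : ℝ) :=
            Real.rpow_le_rpow_of_exponent_le (by linarith) (by linarith)
        _ = (k : ℝ) + 1 := Real.rpow_one _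
    calc 28 / 4 ^ k * (volume (Bad n k)).toReal
        ≤ 28 / 4 ^ k * (C * ((256 ^ q) ^ k * ((k : ℝ) + 1) * (n : ℝ) ^ (-q))) := by
          apply mul_le_mul_of_nonneg_left _ (by positivity)
          exact h3.trans (mul_le_mul_of_nonneg_left h4 hC.le)
      _ = 28 * C * (n : ℝ) ^ (-q) * (((k : ℝ) + 1) * ρ ^ k) := by
          rw [hρ, div_pow]; ring
  have h3 : ∑ k ∈ Finset.range (n + 1), 28 / 4 ^ k * (volume (Bad n k)).toReal ≤
      28 * C * (n : ℝ) ^ (-q) * s := by
    refine (Finset.sum_le_sum h2).trans ?_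
    rw [← Finset.mul_sum]
    apply mul_le_mul_of_nonneg_left _ (by positivity)
    exact hsum.sum_le_tsum _ fun k _ => by positivity
  calc 7 / 4 ^ n + ∑ k ∈ Finset.range (n + 1), 28 / 4 ^ k * (volume (Bad n k)).toReal
      ≤ 7 * (n : ℝ) ^ (-q) + 28 * C * (n : ℝ) ^ (-q) * s := add_le_add h1 h3
    _ = (7 + 28 * C * s) * (n : ℝ) ^ (-q) := by ring

end Pool.Agent.FCC
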