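import Pool.Agent.FCC.Stmts

/-!
# Four corner Cantor sets: the kernel estimates
-/

namespace Pool.Agent.FCC.KER

open MeasureTheory Set Pool.Agent.FCC

/-- Difference of two values of the kernel. -/
theorem kd {a b : ℂ} {d e : ℝ} (n : ℕ) (hd : 0 < d) (h1 : d ≤ ‖a‖) (h2 : d ≤ ‖b‖)
    (h3 : ‖a - b‖ ≤ e) :
    ‖1 / ((4 : ℂ) ^ n * a) - 1 / ((4 : ℂ) ^ n * b)‖ ≤ e / (4 ^ n * d ^ 2) := by
  have ha : a ≠ 0 := fun h => by rw [h, norm_zero] at h1; linarith
  have hb : b ≠ 0 := fun h => by rw [h, norm_zero] at h2; linarith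
  have h4 : (4 : ℂ) ^ n ≠ 0 := pow_ne_zero _ (by norm_num)
  have e1 : 1 / ((4 : ℂ) ^ n * a) - 1 / ((4 : ℂ) ^ n * b) = (b - a) / ((4 : ℂ) ^ n * (a * b)) := by
    field_simp
  rw [e1, norm_div, norm_mul, norm_mul, norm_pow, norm_sub_rev]
  have e4 : ‖(4 : ℂ)‖ = 4 := by simp
  rw [e4]
  have h0 : 0 ≤ e := (norm_nonneg _).trans h3
  have h5 : d ^ 2 ≤ ‖a‖ * ‖b‖ := by
    rw [pow_two]
    exact mul_le_mul h1 h2 hd.le (hd.le.trans h1)
  have h6 : (4 : ℝ) ^ n * d ^ 2 ≤ 4 ^ n * (‖a‖ * ‖b‖) :=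
    mul_le_mul_of_nonneg_left h5 (by positivity)
  exact div_le_div₀ h0 h3 (by positivity) h6

/-- The size of the kernel. -/
theorem kb {a : ℂ} {d : ℝ} (n : ℕ) (hd : 0 < d) (h1 : d ≤ ‖a‖) (g : ℂ) {ε : ℝ} (hg : ‖g‖ ≤ ε) :
    ‖g / ((4 : ℂ) ^ n * a)‖ ≤ ε / (4 ^ n * d) := by
  rw [norm_div, norm_mul, norm_pow]
  have e4 : ‖(4 : ℂ)‖ = 4 := by simp
  rw [e4]
  exact div_le_div₀ ((norm_nonneg _).trans hg) hg (by positivity)
    (mul_le_mul_of_nonneg_left h1 (by positivity))

theorem sum_ker (n : ℕ) (g : Wd n → ℂ) (w : Wd n) : T g w = ∑ j ∈ Finset.range n, Tj j g w := by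
  classical
  have key : ∀ m : ℕ, ∑ v ∈ Finset.univ.filter (fun v : Wd n => ¬ agr m w v),
      g v / (4 ^ n * (cc w - cc v)) = ∑ j ∈ Finset.range m, Tj j g w := by
    intro m
    induction m with
    | zero =>
      rw [Finset.range_zero, Finset.sum_empty]
      refine Finset.sum_eq_zero fun v hv => ?_
      rw [Finset.mem_filter] at hv
      exact absurd (fun i hi => absurd hi (Nat.not_lt_zero _)) hv.2
    | succ m ih =>
      rw [Finset.sum_range_succ, ← ih]
      unfold Tj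
      rw [Finset.sum_filter, Finset.sum_filter, Finset.sum_filter, ← Finset.sum_add_distrib]
      refine Finset.sum_congr rfl fun v _ => ?_
      by_cases h1 : agr m w v
      · by_cases h2 : agr (m + 1) w v
        · simp [h1, h2]
        · simp [h1, h2]
      · have h2 : ¬ agr (m + 1) w v := fun h => h1 (agr_mono (Nat.le_succ m) h)
        simp [h1, h2]
  rw [← key n]
  unfold T
  refine Finset.sum_congr ?_ fun v _ => rfl
  ext v
  simp only [Finset.mem_filter, Finset.mem_univ, true_and]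
  rw [agr_full le_rfl]
  exact ne_comm

theorem av_self_zero {n j : ℕ} (w : Wd n) : av j (Tj j fun _ => 1) w = 0 := by
  classical
  unfold av
  have key : ∑ u ∈ Finset.univ.filter (fun v : Wd n => agr j w v), Tj j (fun _ => 1) u = 0 := by
    set S := ∑ u ∈ Finset.univ.filter (fun v : Wd n => agr j w v), Tj j (fun _ => 1) u with hS
    have e1 : S = ∑ u : Wd n, ∑ v : Wd n,
        if agr j w u ∧ agr j u v ∧ ¬ agr (j + 1) u v then
          (1 : ℂ) / (4 ^ n * (cc u - cc v)) else 0 := by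
      rw [hS, Finset.sum_filter]
      refine Finset.sum_congr rfl fun u _ => ?_
      by_cases h : agr j w u
      · rw [if_pos h]
        unfold Tj
        rw [Finset.sum_filter]
        refine Finset.sum_congr rfl fun v _ => ?_
        simp [h]
      · rw [if_neg h]
        symm
        refine Finset.sum_eq_zero fun v _ => ?_
        rw [if_neg]
        exact fun h' => h h'.1
    have e2 : S = ∑ u : Wd n, ∑ v : Wd n,
        -(if agr j w u ∧ agr j u v ∧ ¬ agr (j + 1) u v then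
          (1 : ℂ) / (4 ^ n * (cc u - cc v)) else 0) := by
      rw [e1, Finset.sum_comm]
      refine Finset.sum_congr rfl fun u _ => Finset.sum_congr rfl fun v _ => ?_
      have hiff : (agr j w v ∧ agr j v u ∧ ¬ agr (j + 1) v u) ↔
          (agr j w u ∧ agr j u v ∧ ¬ agr (j + 1) u v) := by
        constructor
        · rintro ⟨h1, h2, h3⟩
          exact ⟨agr_trans h1 h2, agr_symm h2, fun h => h3 (agr_symm h)⟩
        · rintro ⟨h1, h2, h3⟩
          exact ⟨agr_trans h1 h2, agr_symm h2, fun h => h3 (agr_symm h)⟩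
      by_cases h : agr j w u ∧ agr j u v ∧ ¬ agr (j + 1) u v
      · rw [if_pos h, if_pos (hiff.2 h)]
        rw [← neg_sub (cc u) (cc v), mul_neg, div_neg]
      · rw [if_neg h, if_neg fun h' => h (hiff.1 h'), neg_zero]
    have e3 : S = -S := by
      conv_lhs => rw [e2]
      rw [e1]
      simp only [Finset.sum_neg_distrib]
    have e4 : S + S = 0 := by
      nth_rewrite 1 [e3]
      exact neg_add_cancel S
    have e5 : (2 : ℂ) * S = 0 := by rw [two_mul]; exact e4
    exact (mul_eq_zero.1 e5).resolve_left two_ne_zero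
  rw [key, zero_div]

theorem pow_id {n j : ℕ} (hj : j < n) :
    ((3 * 4 ^ (n - (j + 1)) : ℕ) : ℝ) = 3 / 4 * (4 ^ n / 4 ^ j) := by
  obtain ⟨m, rfl⟩ := Nat.exists_eq_add_of_lt hj
  have : j + m + 1 - (j + 1) = m := by omega
  rw [this]
  push_cast
  rw [pow_succ, pow_add]
  field_simp

theorem trivial_bound (hD : Stmt_DIST) {n j : ℕ} (hj : j < n) (g : Wd n → ℂ) {ε : ℝ}
    (hg : ∀ v, ‖g v‖ ≤ ε) (w : Wd n) : ‖Tj j g w‖ ≤ 3 / 2 * ε := by
  classical
  unfold Tj
  refine (norm_sum_le_of_le _ (f := fun v => g v / (4 ^ n * (cc w - cc v)))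
    (n := fun _ => ε / (4 ^ n * (1 / (2 * 4 ^ j)))) fun v hv => ?_).trans ?_
  · rw [Finset.mem_filter] at hv
    exact kb n (by positivity) ((hD n j w v).2 hv.2.2) _ (hg v)
  · rw [Finset.sum_const, card_first hj w, nsmul_eq_mul, pow_id hj]
    apply le_of_eq
    field_simp
    ring

theorem ker_diff (hD : Stmt_DIST) {n j k : ℕ} (hjk : j + 1 ≤ k) {u w v : Wd n}
    (huw : agr k u w) (hv : ¬ agr (j + 1) w v) :
    ‖(1 : ℂ) / (4 ^ n * (cc u - cc v)) - 1 / (4 ^ n * (cc w - cc v))‖ ≤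
      (√2 / 4 ^ k) / (4 ^ n * (1 / (2 * 4 ^ j)) ^ 2) := by
  have hv' : ¬ agr (j + 1) u v := fun h =>
    hv (agr_trans (agr_symm (agr_mono hjk huw)) h)
  refine kd n (by positivity) ((hD n j u v).2 hv') ((hD n j w v).2 hv) ?_
  rw [sub_sub_sub_cancel_right]
  exact (hD n k u w).1 huw

theorem kap {n j k : ℕ} (hj : j < n) :
    ((3 * 4 ^ (n - (j + 1)) : ℕ) : ℝ) * ((√2 / 4 ^ k) / (4 ^ n * (1 / (2 * 4 ^ j)) ^ 2)) =
      3 * √2 * (4 ^ j / 4 ^ k) := by
  rw [pow_id hj]
  field_simp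
  ring

theorem Tj_diff (hD : Stmt_DIST) {n j k : ℕ} (hj : j < n) (hjk : j + 1 ≤ k) {u w : Wd n}
    (huw : agr k u w) :
    ‖Tj j (fun _ => 1) u - Tj j (fun _ => 1) w‖ ≤ 3 * √2 * (4 ^ j / 4 ^ k) := by
  classical
  have hF : Finset.univ.filter (fun v : Wd n => agr j u v ∧ ¬ agr (j + 1) u v) =
      Finset.univ.filter (fun v : Wd n => agr j w v ∧ ¬ agr (j + 1) w v) := by
    ext v
    simp only [Finset.mem_filter, Finset.mem_univ, true_and]
    have h1 : agr (j + 1) u w := agr_mono hjk huw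
    have h0 : agr j u w := agr_mono (Nat.le_succ j) h1
    constructor
    · rintro ⟨h2, h3⟩
      exact ⟨agr_trans (agr_symm h0) h2, fun h => h3 (agr_trans h1 h)⟩
    · rintro ⟨h2, h3⟩
      exact ⟨agr_trans h0 h2, fun h => h3 (agr_trans (agr_symm h1) h)⟩
  unfold Tj
  rw [hF, ← Finset.sum_sub_distrib]
  refine (norm_sum_le_of_le _
    (f := fun v => (1 : ℂ) / (4 ^ n * (cc u - cc v)) - 1 / (4 ^ n * (cc w - cc v)))
    (n := fun _ => (√2 / 4 ^ k) / (4 ^ n * (1 / (2 * 4 ^ j)) ^ 2)) fun v hv => ?_).trans ?_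
  · rw [Finset.mem_filter] at hv
    exact ker_diff hD hjk huw hv.2.2
  · rw [Finset.sum_const, card_first hj w, nsmul_eq_mul, kap hj]

theorem sqrt2_le : √(2 : ℝ) ≤ 3 / 2 := by
  rw [show (3 / 2 : ℝ) = √((3 / 2) ^ 2) from (Real.sqrt_sq (by norm_num)).symm]
  exact Real.sqrt_le_sqrt (by norm_num)

theorem pow_quot {j k : ℕ} (hjk : j ≤ k) : (4 : ℝ) ^ j / 4 ^ k = 1 / 4 ^ (k - j) := by
  obtain ⟨m, rfl⟩ := Nat.exists_eq_add_of_le hjk
  rw [Nat.add_sub_cancel_left, pow_add]
  field_simp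

theorem part3 (hD : Stmt_DIST) (hA : Stmt_AVP) {n k j : ℕ} (hjk : j ≤ k) (hk : k < n) (w : Wd n) :
    ‖av (k + 1) (Tj j fun _ => 1) w - av k (Tj j fun _ => 1) w‖ ≤ 6 / 4 ^ (k - j) := by
  rcases Nat.eq_or_lt_of_le hjk with h | h
  · subst h
    rw [av_self_zero w, sub_zero, Nat.sub_self, pow_zero, div_one]
    have h1 := (hA n (j + 1) hk).2.2.2.2.2.1 (Tj j fun _ => 1) w 0 (3 / 2 * 1) (fun v _ => by
      rw [sub_zero]
      exact trivial_bound hD hk _ (fun _ => by simp) v)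
    rw [sub_zero] at h1
    linarith
  · have hj : j < n := lt_of_le_of_lt hjk hk
    have h1 := (hA n (k + 1) hk).2.2.2.2.2.1 (Tj j fun _ => 1) w (Tj j (fun _ => 1) w)
      (3 * √2 * (4 ^ j / 4 ^ (k + 1))) (fun v hv => Tj_diff hD hj (by omega) (agr_symm hv))
    have h2 := (hA n k hk.le).2.2.2.2.2.1 (Tj j fun _ => 1) w (Tj j (fun _ => 1) w)
      (3 * √2 * (4 ^ j / 4 ^ k)) (fun v hv => Tj_diff hD hj (by omega) (agr_symm hv))
    have h3 : ‖av (k + 1) (Tj j fun _ => 1) w - av k (Tj j fun _ => 1) w‖ ≤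
        3 * √2 * (4 ^ j / 4 ^ (k + 1)) + 3 * √2 * (4 ^ j / 4 ^ k) := by
      have e : av (k + 1) (Tj j fun _ => 1) w - av k (Tj j fun _ => 1) w =
          (av (k + 1) (Tj j fun _ => 1) w - Tj j (fun _ => 1) w) -
          (av k (Tj j fun _ => 1) w - Tj j (fun _ => 1) w) := by ring
      rw [e]
      exact (norm_sub_le _ _).trans (add_le_add h1 h2)
    refine h3.trans ?_
    have e1 : (4 : ℝ) ^ j / 4 ^ (k + 1) = 1 / 4 * (4 ^ j / 4 ^ k) := by
      rw [pow_succ]
      field_simp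
    rw [e1, pow_quot hjk]
    have h5 : (0 : ℝ) < 1 / 4 ^ (k - j) := by positivity
    have h6 := mul_le_mul_of_nonneg_right sqrt2_le h5.le
    have e2 : (6 : ℝ) / 4 ^ (k - j) = 6 * (1 / 4 ^ (k - j)) := by ring
    rw [e2]
    nlinarith

theorem part4 (hD : Stmt_DIST) (hA : Stmt_AVP) {n k j : ℕ} (hjk : j ≤ k) (hk : k < n)
    (δ : Wd n → ℂ) (ε : ℝ) (hδ : ∀ v, ‖δ v‖ ≤ ε) (h0 : ∀ v, av k δ v = 0) (w : Wd n) :
    ‖Tj j δ w‖ ≤ 6 * ε / 4 ^ (k - j) := by
  classical
  have hε : 0 ≤ ε := (norm_nonneg _).trans (hδ w)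
  have hj : j < n := lt_of_le_of_lt hjk hk
  rcases Nat.eq_or_lt_of_le hjk with h | h
  · subst h
    rw [Nat.sub_self, pow_zero, div_one]
    have := trivial_bound hD hk δ hδ w
    linarith
  · set F : Wd n → Prop := fun v => agr j w v ∧ ¬ agr (j + 1) w v with hF
    set κ : ℝ := (√2 / 4 ^ k) / (4 ^ n * (1 / (2 * 4 ^ j)) ^ 2) with hκ
    have hκ0 : 0 ≤ κ := by positivity
    let hh : Wd n → ℂ := fun v => if F v then (1 : ℂ) / (4 ^ n * (cc w - cc v)) else 0
    have e1 : Tj j δ w = ∑ v : Wd n, δ v * hh v := by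
      unfold Tj
      rw [Finset.sum_filter]
      refine Finset.sum_congr rfl fun v _ => ?_
      by_cases hv : F v
      · have hv' : agr j w v ∧ ¬ agr (j + 1) w v := hv
        simp only [hh]
        rw [if_pos hv', if_pos hv, mul_one_div]
      · have hv' : ¬ (agr j w v ∧ ¬ agr (j + 1) w v) := hv
        simp only [hh]
        rw [if_neg hv', if_neg hv, mul_zero]
    have e2 : ∑ v : Wd n, δ v * av k hh v = 0 := by
      have e3 : ∑ v : Wd n, δ v * av k hh v = ∑ u : Wd n, hh u * av k δ u := by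
        unfold av
        have l1 : ∀ v : Wd n, δ v * ((∑ u ∈ Finset.univ.filter (fun u : Wd n => agr k v u), hh u) /
            4 ^ (n - k)) = ∑ u : Wd n, (if agr k v u then δ v * hh u / 4 ^ (n - k) else 0) := by
          intro v
          rw [← mul_div_assoc, Finset.mul_sum, Finset.sum_div, Finset.sum_filter]
        have l2 : ∀ u : Wd n, hh u * ((∑ v ∈ Finset.univ.filter (fun v : Wd n => agr k u v), δ v) /
            4 ^ (n - k)) = ∑ v : Wd n, (if agr k u v then hh u * δ v / 4 ^ (n - k) else 0) := by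
          intro u
          rw [← mul_div_assoc, Finset.mul_sum, Finset.sum_div, Finset.sum_filter]
        rw [Finset.sum_congr rfl fun v _ => l1 v, Finset.sum_congr rfl fun v _ => l2 v,
          Finset.sum_comm]
        refine Finset.sum_congr rfl fun u _ => Finset.sum_congr rfl fun v _ => ?_
        by_cases hv : agr k v u
        · rw [if_pos hv, if_pos (agr_symm hv), mul_comm]
        · rw [if_neg hv, if_neg fun h' => hv (agr_symm h')]
      rw [e3]
      exact Finset.sum_eq_zero fun u _ => by rw [h0 u, mul_zero]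
    have e4 : Tj j δ w = -∑ v : Wd n, δ v * (av k hh v - hh v) := by
      rw [e1, ← Finset.sum_neg_distrib]
      have : ∑ v : Wd n, -(δ v * (av k hh v - hh v)) =
          ∑ v : Wd n, δ v * hh v - ∑ v : Wd n, δ v * av k hh v := by
        rw [← Finset.sum_sub_distrib]
        refine Finset.sum_congr rfl fun v _ => ?_
        ring
      rw [this, e2, sub_zero]
    have hcls : ∀ v v' : Wd n, agr k v v' → F v → F v' := by
      intro v v' hv hF'
      exact ⟨agr_trans hF'.1 (agr_mono hjk hv), fun h' => hF'.2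
        (agr_trans h' (agr_symm (agr_mono (show j + 1 ≤ k from h) hv)))⟩
    have h5 : ∀ v : Wd n, ‖av k hh v - hh v‖ ≤ if F v then κ else 0 := by
      intro v
      refine (hA n k hk.le).2.2.2.2.2.1 hh v (hh v) _ fun v' hv' => ?_
      by_cases hv : F v
      · have hFv' : F v' := hcls v v' hv' hv
        simp only [hh]
        rw [if_pos hv, if_pos hv, if_pos hFv', hκ]
        refine kd n (by positivity) ((hD n j w v').2 hFv'.2) ((hD n j w v).2 hv.2) ?_
        rw [sub_sub_sub_cancel_left]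
        exact (hD n k v v').1 hv'
      · have hFv' : ¬ F v' := fun h' => hv (hcls v' v (agr_symm hv') h')
        simp only [hh]
        rw [if_neg hv, if_neg hv, if_neg hFv', sub_zero, norm_zero]
    have h6 : ‖Tj j δ w‖ ≤ ∑ v : Wd n, (if F v then ε * κ else 0) := by
      rw [e4, norm_neg]
      refine norm_sum_le_of_le _ fun v _ => ?_
      rw [norm_mul]
      have h7 := mul_le_mul (hδ v) (h5 v) (norm_nonneg _) hε
      by_cases hv : F v
      · rw [if_pos hv] at h7 ⊢
        exact h7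
      · rw [if_neg hv, mul_zero] at h7
        rw [if_neg hv]
        exact h7
    have h8 : ∑ v : Wd n, (if F v then ε * κ else 0) = ε * (3 * √2 * (4 ^ j / 4 ^ k)) := by
      rw [← Finset.sum_filter, Finset.sum_const, nsmul_eq_mul]
      have h9 : (Finset.univ.filter F).card = 3 * 4 ^ (n - (j + 1)) := card_first hj w
      rw [h9, ← kap (k := k) hj, ← hκ]
      ring
    rw [h8, pow_quot hjk] at h6
    refine h6.trans ?_
    have h10 : (0 : ℝ) < 1 / 4 ^ (k - j) := by positivity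
    have e5 : 6 * ε / 4 ^ (k - j) = ε * (6 * (1 / 4 ^ (k - j))) := by ring
    rw [e5]
    refine mul_le_mul_of_nonneg_left (mul_le_mul_of_nonneg_right ?_ h10.le) hε
    have := sqrt2_le
    linarith

end Pool.Agent.FCC.KER

namespace Pool.Agent.FCC

theorem KER_thm : Stmt_DIST → Stmt_AVP → Stmt_KER := by
  intro hD hA n
  refine ⟨fun g w => KER.sum_ker n g w, fun k j hkj hj w => ?_,
    fun k j hjk hk w => KER.part3 hD hA hjk hk w,
    fun k j hjk hk δ ε hδ h0 w => KER.part4 hD hA hjk hk δ ε hδ h0 w⟩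
  have h1 := (hA n k (hkj.trans hj.le)).2.2.1 (Tj j fun _ => 1) j w hkj hj.le
  rw [← h1]
  have h2 : av j (Tj j fun _ => 1) = fun _ : Wd n => (0 : ℂ) := funext fun v => KER.av_self_zero v
  rw [h2]
  unfold av
  rw [Finset.sum_const_zero, zero_div]

end Pool.Agent.FCC
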