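import Pool.Agent.FCC.Stmts

/-!
# Four corner Cantor sets: the change of measure (MAR)
-/

namespace Pool.Agent.FCC

open MeasureTheory Set

namespace MAR

/-- The recursion: the density and the sum. -/
noncomputable def st {n : ℕ} (M : ℝ) (m : ℕ → Wd n → ℂ) : ℕ → Wd n → ℝ × ℂ
  | 0, _ => (1 / 2, 0)
  | k + 1, w =>
    ((st M m k w).1 * (1 - 1 / (2 * M ^ 2) / n * ((starRingEnd ℂ) (st M m k w).2 * m k w).re),
      (st M m k w).2 + ((st M m k w).1 : ℂ) * m k w)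

theorem st_zero {n : ℕ} (M : ℝ) (m : ℕ → Wd n → ℂ) (w : Wd n) : st M m 0 w = (1 / 2, 0) := rfl

theorem st_succ_fst {n : ℕ} (M : ℝ) (m : ℕ → Wd n → ℂ) (k : ℕ) (w : Wd n) :
    (st M m (k + 1) w).1 =
      (st M m k w).1 * (1 - 1 / (2 * M ^ 2) / n * ((starRingEnd ℂ) (st M m k w).2 * m k w).re) :=
  rfl

theorem st_succ_snd {n : ℕ} (M : ℝ) (m : ℕ → Wd n → ℂ) (k : ℕ) (w : Wd n) :
    (st M m (k + 1) w).2 = (st M m k w).2 + ((st M m k w).1 : ℂ) * m k w := rfl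

theorem st_snd {n : ℕ} (M : ℝ) (m : ℕ → Wd n → ℂ) (k : ℕ) (w : Wd n) :
    (st M m k w).2 = ∑ i ∈ Finset.range k, ((st M m i w).1 : ℂ) * m i w := by
  induction k with
  | zero => simp [st_zero]
  | succ k ih => rw [Finset.sum_range_succ, st_succ_snd, ih]

theorem normSq_add (Y z : ℂ) (b : ℝ) :
    ‖Y + (b : ℂ) * z‖ ^ 2 = ‖Y‖ ^ 2 + 2 * b * ((starRingEnd ℂ) Y * z).re + b ^ 2 * ‖z‖ ^ 2 := by
  rw [Complex.sq_norm, Complex.sq_norm, Complex.sq_norm, Complex.normSq_apply, Complex.normSq_apply,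
    Complex.normSq_apply]
  simp only [Complex.add_re, Complex.add_im, Complex.mul_re, Complex.mul_im, Complex.ofReal_re,
    Complex.ofReal_im, Complex.conj_re, Complex.conj_im]
  ring

theorem abs_re_le (Y z : ℂ) : |((starRingEnd ℂ) Y * z).re| ≤ ‖Y‖ * ‖z‖ := by
  refine (Complex.abs_re_le_norm _).trans ?_
  rw [norm_mul, Complex.norm_conj]

/-- One step of the recursion. -/
theorem step {n : ℕ} (hn : 1 ≤ n) {M : ℝ} (hM : 0 < M) (Y z : ℂ) (b : ℝ) (k : ℕ) (hk : k < n)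
    (hb0 : 0 ≤ b) (hI : b + 1 / (4 * M ^ 2 * n) * ‖Y‖ ^ 2 ≤ 1 / 2 + k / (4 * n)) (hz : ‖z‖ ≤ M) :
    |1 / (2 * M ^ 2) / n * ((starRingEnd ℂ) Y * z).re| ≤ 1 / √n ∧
    0 ≤ b * (1 - 1 / (2 * M ^ 2) / n * ((starRingEnd ℂ) Y * z).re) ∧
    b * (1 - 1 / (2 * M ^ 2) / n * ((starRingEnd ℂ) Y * z).re) +
      1 / (4 * M ^ 2 * n) * ‖Y + (b : ℂ) * z‖ ^ 2 ≤ 1 / 2 + (k + 1 : ℕ) / (4 * n) ∧
    b ≤ 3 / 4 ∧ ‖Y‖ ≤ 2 * M * √n := by
  have hn0 : (0 : ℝ) < n := by exact_mod_cast hn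
  have hn1 : (1 : ℝ) ≤ n := by exact_mod_cast hn
  have hkn : (k : ℝ) ≤ n := by exact_mod_cast hk.le
  have hs0 : 0 < √(n : ℝ) := Real.sqrt_pos.mpr hn0
  have hs2 : √(n : ℝ) ^ 2 = n := Real.sq_sqrt hn0.le
  have hk4 : (k : ℝ) / (4 * n) ≤ 1 / 4 := by
    rw [div_le_div_iff₀ (by positivity) (by norm_num)]
    linarith
  have hA : 0 < 4 * M ^ 2 * n := by positivity
  have hY0 : 0 ≤ 1 / (4 * M ^ 2 * n) * ‖Y‖ ^ 2 := by positivity
  have hb1 : b ≤ 3 / 4 := by linarith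
  have hYsq : ‖Y‖ ^ 2 ≤ 3 * M ^ 2 * n := by
    have h1 : 1 / (4 * M ^ 2 * n) * ‖Y‖ ^ 2 ≤ 3 / 4 := by linarith
    have h2 : ‖Y‖ ^ 2 / (4 * M ^ 2 * n) ≤ 3 / 4 := by
      rw [div_eq_mul_one_div, mul_comm]; exact h1
    rw [div_le_iff₀ hA] at h2
    linarith
  have hY : ‖Y‖ ≤ 2 * M * √n := by
    refine abs_le_of_sq_le_sq' ?_ (by positivity) |>.2
    have : (2 * M * √(n : ℝ)) ^ 2 = 4 * M ^ 2 * n := by
      rw [mul_pow, mul_pow, hs2]; norm_num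
    rw [this]
    have : 0 ≤ M ^ 2 * n := by positivity
    linarith
  have habs : |1 / (2 * M ^ 2) / n * ((starRingEnd ℂ) Y * z).re| ≤ 1 / √n := by
    rw [abs_mul, abs_of_pos (by positivity : (0 : ℝ) < 1 / (2 * M ^ 2) / n)]
    have h1 : |((starRingEnd ℂ) Y * z).re| ≤ 2 * M * √n * M :=
      (abs_re_le Y z).trans (mul_le_mul hY hz (norm_nonneg _) (by positivity))
    calc 1 / (2 * M ^ 2) / n * |((starRingEnd ℂ) Y * z).re|
        ≤ 1 / (2 * M ^ 2) / n * (2 * M * √n * M) :=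
          mul_le_mul_of_nonneg_left h1 (by positivity)
      _ = √n / n := by field_simp
      _ = 1 / √n := by
          rw [div_eq_div_iff hn0.ne' hs0.ne', one_mul, ← sq, hs2]
  have hle1 : 1 / √(n : ℝ) ≤ 1 := by
    rw [div_le_one hs0]
    exact Real.one_le_sqrt.mpr hn1
  refine ⟨habs, mul_nonneg hb0 ?_, ?_, hb1, hY⟩
  · have := (abs_le.mp habs).2
    linarith
  · have hz2 : ‖z‖ ^ 2 ≤ M ^ 2 := pow_le_pow_left₀ (norm_nonneg _) hz 2
    have hb2 : b ^ 2 ≤ 1 := by nlinarith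
    have hbz : b ^ 2 * ‖z‖ ^ 2 ≤ M ^ 2 := by
      calc b ^ 2 * ‖z‖ ^ 2 ≤ 1 * M ^ 2 :=
            mul_le_mul hb2 hz2 (by positivity) (by norm_num)
        _ = M ^ 2 := one_mul _
    rw [normSq_add]
    have e1 : b * (1 - 1 / (2 * M ^ 2) / n * ((starRingEnd ℂ) Y * z).re) +
        1 / (4 * M ^ 2 * n) * (‖Y‖ ^ 2 + 2 * b * ((starRingEnd ℂ) Y * z).re + b ^ 2 * ‖z‖ ^ 2) =
        b + 1 / (4 * M ^ 2 * n) * ‖Y‖ ^ 2 + 1 / (4 * M ^ 2 * n) * (b ^ 2 * ‖z‖ ^ 2) := by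
      field_simp
      ring
    rw [e1]
    have e2 : 1 / (4 * M ^ 2 * n) * (b ^ 2 * ‖z‖ ^ 2) ≤ 1 / (4 * n) := by
      calc 1 / (4 * M ^ 2 * n) * (b ^ 2 * ‖z‖ ^ 2) ≤ 1 / (4 * M ^ 2 * n) * M ^ 2 :=
            mul_le_mul_of_nonneg_left hbz (by positivity)
        _ = 1 / (4 * n) := by field_simp
    have e3 : (1 : ℝ) / 2 + ((k + 1 : ℕ) : ℝ) / (4 * n) = 1 / 2 + k / (4 * n) + 1 / (4 * n) := by
      push_cast
      ring
    rw [e3]
    linarith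

theorem inv {n : ℕ} (hn : 1 ≤ n) {M : ℝ} (hM : 0 < M) (m : ℕ → Wd n → ℂ)
    (hm : ∀ k < n, ∀ w : Wd n, ‖m k w‖ ≤ M) (w : Wd n) : ∀ k ≤ n,
    0 ≤ (st M m k w).1 ∧
    (st M m k w).1 + 1 / (4 * M ^ 2 * n) * ‖(st M m k w).2‖ ^ 2 ≤ 1 / 2 + k / (4 * n) := by
  intro k
  induction k with
  | zero => intro _; simp [st_zero]
  | succ k ih =>
    intro hk
    obtain ⟨h0, h1⟩ := ih (by omega)
    obtain ⟨_, a2, a3, _, _⟩ := step hn hM (st M m k w).2 (m k w) (st M m k w).1 k (by omega) h0 h1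
      (hm k (by omega) w)
    exact ⟨a2, a3⟩

theorem meas {n : ℕ} (M : ℝ) (m : ℕ → Wd n → ℂ)
    (hm : ∀ k < n, ∀ u v : Wd n, agr (k + 1) u v → m k u = m k v) : ∀ k ≤ n,
    ∀ u v : Wd n, agr k u v → st M m k u = st M m k v := by
  intro k
  induction k with
  | zero => intro _ u v _; rfl
  | succ k ih =>
    intro hk u v huv
    have h1 := ih (by omega) u v (agr_mono (Nat.le_succ k) huv)
    have h2 := hm k (by omega) u v huv
    refine Prod.ext ?_ ?_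
    · rw [st_succ_fst, st_succ_fst, h1, h2]
    · rw [st_succ_snd, st_succ_snd, h1, h2]

end MAR

theorem MAR_thm : Stmt_AVP → Stmt_MAR := by
  intro hAVP n M m hn hM h1 h2 h3
  have hinv := MAR.inv hn hM m h3
  have hmeas := MAR.meas M m h1
  have hn0 : (0 : ℝ) < n := by exact_mod_cast hn
  have hb1 : ∀ k ≤ n, ∀ w, (MAR.st M m k w).1 ≤ 3 / 4 := by
    intro k hk w
    obtain ⟨_, a⟩ := hinv w k hk
    have hkn : (k : ℝ) ≤ n := by exact_mod_cast hk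
    have hk4 : (k : ℝ) / (4 * n) ≤ 1 / 4 := by
      rw [div_le_div_iff₀ (by positivity) (by norm_num)]
      linarith
    have : 0 ≤ 1 / (4 * M ^ 2 * n) * ‖(MAR.st M m k w).2‖ ^ 2 := by positivity
    linarith
  refine ⟨fun k w => (MAR.st M m k w).1, fun w => rfl, ?_, ?_, ?_, ?_, ?_⟩
  · intro k hk u v huv
    exact congrArg Prod.fst (hmeas k hk u v huv)
  · intro k hk w
    exact ⟨(hinv w k hk).1, by linarith [hb1 k hk w]⟩
  · intro k hk w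
    obtain ⟨h0, hI⟩ := hinv w k hk.le
    obtain ⟨a1, _, _, a4, _⟩ := MAR.step hn hM (MAR.st M m k w).2 (m k w) (MAR.st M m k w).1 k hk
      h0 hI (h3 k hk w)
    show |(MAR.st M m (k + 1) w).1 - (MAR.st M m k w).1| ≤ 1 / √n
    rw [MAR.st_succ_fst]
    have e : (MAR.st M m k w).1 *
        (1 - 1 / (2 * M ^ 2) / n * ((starRingEnd ℂ) (MAR.st M m k w).2 * m k w).re) -
        (MAR.st M m k w).1 = -((MAR.st M m k w).1 *
          (1 / (2 * M ^ 2) / n * ((starRingEnd ℂ) (MAR.st M m k w).2 * m k w).re)) := by ring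
    rw [e, abs_neg, abs_mul, abs_of_nonneg h0]
    calc (MAR.st M m k w).1 *
          |1 / (2 * M ^ 2) / n * ((starRingEnd ℂ) (MAR.st M m k w).2 * m k w).re|
        ≤ 1 * (1 / √n) := mul_le_mul (by linarith) a1 (abs_nonneg _) (by norm_num)
      _ = 1 / √n := one_mul _
  · intro k hk w
    obtain ⟨_, _, _, _, c5, _, _, c8⟩ := hAVP n k hk.le
    set h : Wd n → ℂ := fun v =>
      -((1 / (2 * M ^ 2) / n * (MAR.st M m k v).1 : ℝ) : ℂ) * (starRingEnd ℂ) (MAR.st M m k v).2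
      with hh
    have hhm : ∀ u v, agr k u v → h u = h v := by
      intro u v huv
      simp only [hh]
      rw [hmeas k hk.le u v huv]
    have e : (fun v => (((MAR.st M m (k + 1) v).1 - (MAR.st M m k v).1 : ℝ) : ℂ)) =
        fun v => (((h v * m k v).re : ℝ) : ℂ) := by
      funext v
      refine congrArg _ ?_
      rw [MAR.st_succ_fst]
      simp only [hh]
      rw [show -((1 / (2 * M ^ 2) / n * (MAR.st M m k v).1 : ℝ) : ℂ) *
          (starRingEnd ℂ) (MAR.st M m k v).2 * m k v =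
          ((-(1 / (2 * M ^ 2) / n * (MAR.st M m k v).1) : ℝ) : ℂ) *
          ((starRingEnd ℂ) (MAR.st M m k v).2 * m k v) by push_cast; ring]
      rw [Complex.re_ofReal_mul]
      ring
    show av k (fun v => (((MAR.st M m (k + 1) v).1 - (MAR.st M m k v).1 : ℝ) : ℂ)) w = 0
    rw [e, c8 (fun v => h v * m k v) w, c5 (m k) h w hhm, h2 k hk w]
    simp
  · intro w
    show ‖∑ k ∈ Finset.range n, ((MAR.st M m k w).1 : ℂ) * m k w‖ ≤ 2 * M * √n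
    rw [← MAR.st_snd M m n w]
    obtain ⟨h0, hI⟩ := hinv w n le_rfl
    have hnn : (n : ℝ) / (4 * n) = 1 / 4 := by field_simp
    rw [hnn] at hI
    have hA : 0 < 4 * M ^ 2 * n := by positivity
    have h4 : ‖(MAR.st M m n w).2‖ ^ 2 / (4 * M ^ 2 * n) ≤ 3 / 4 := by
      rw [div_eq_mul_one_div, mul_comm]; linarith
    rw [div_le_iff₀ hA] at h4
    have hs2 : √(n : ℝ) ^ 2 = n := Real.sq_sqrt hn0.le
    refine abs_le_of_sq_le_sq' ?_ (by positivity) |>.2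
    have : (2 * M * √(n : ℝ)) ^ 2 = 4 * M ^ 2 * n := by
      rw [mul_pow, mul_pow, hs2]; norm_num
    rw [this]
    have : 0 ≤ M ^ 2 * n := by positivity
    linarith

end Pool.Agent.FCC
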