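import Pool.Agent.FCC.Stmts

/-!
# Four corner Cantor sets: the recursion for the length of the projection
-/

namespace Pool.Agent.FCC

open MeasureTheory Set

namespace REC

open Classical in
/-- The words of length `N` whose prefix of length `b.1` meets `b.2`. -/
noncomputable def Gb (t : ℝ) (N : ℕ) (b : ℕ × ℤ) : Finset (Wd N) :=
  Finset.univ.filter fun w : Wd N => ∃ u : Wd b.1,
    (∀ i : Fin b.1, ∀ h : i.val < N, w ⟨i.val, h⟩ = u i) ∧ meets t u b.2

theorem prefix_append {n m : ℕ} (u u' : Wd n) (v : Wd m)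
    (h : ∀ i : Fin n, ∀ h : i.val < n + m, (Fin.append u v : Wd (n + m)) ⟨i.val, h⟩ = u' i) :
    u = u' := by
  funext i
  have h1 := h i (by omega)
  have h2 : (⟨i.val, by omega⟩ : Fin (n + m)) = Fin.castAdd m i := Fin.ext rfl
  rw [h2, Fin.append_left] at h1
  exact h1

theorem mem_Gb_append (t : ℝ) {n m : ℕ} (j : ℤ) (u : Wd n) (v : Wd m) :
    (Fin.append u v : Wd (n + m)) ∈ Gb t (n + m) (n, j) ↔ meets t u j := by
  unfold Gb
  simp only [Finset.mem_filter, Finset.mem_univ, true_and]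
  constructor
  · rintro ⟨u', h1, h2⟩
    rw [prefix_append u u' v h1]
    exact h2
  · intro h
    refine ⟨u, fun i hi => ?_, h⟩
    have h2 : (⟨i.val, hi⟩ : Fin (n + m)) = Fin.castAdd m i := Fin.ext rfl
    rw [h2, Fin.append_left]

theorem card_Gb (t : ℝ) (n m : ℕ) (j : ℤ) :
    (Gb t (n + m) (n, j)).card = cnt t n j * 4 ^ m := by
  classical
  have h1 : (Gb t (n + m) (n, j)).card =
      ∑ w : Wd (n + m), if w ∈ Gb t (n + m) (n, j) then 1 else 0 := by
    rw [← Finset.sum_filter, ← Finset.card_eq_sum_ones]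
    congr 1
    ext w
    simp
  rw [h1, sum_append]
  have h2 : ∀ u : Wd n, (∑ v : Wd m, if (Fin.append u v : Wd (n + m)) ∈ Gb t (n + m) (n, j)
      then 1 else 0) = if meets t u j then 4 ^ m else 0 := by
    intro u
    by_cases h : meets t u j
    · rw [if_pos h]
      rw [Finset.sum_congr rfl fun v _ => if_pos ((mem_Gb_append t j u v).2 h)]
      rw [Finset.sum_const, Finset.card_univ, card_Wd, smul_eq_mul, mul_one]
    · rw [if_neg h]
      exact Finset.sum_eq_zero fun v _ => if_neg fun h' => h ((mem_Gb_append t j u v).1 h')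
  rw [Finset.sum_congr rfl fun u _ => h2 u, ← Finset.sum_filter, Finset.sum_const, smul_eq_mul]
  unfold cnt
  congr 2

theorem psq_subset_Jst {t : ℝ} (h0 : 0 ≤ t) (h1 : t ≤ 1) {n m : ℕ} (j : ℤ)
    {w : Wd (n + m)} (hw : w ∈ Gb t (n + m) (n, j)) : psq t w ⊆ Jst (n, j) := by
  obtain ⟨⟨u, v⟩, rfl⟩ := (Fin.appendEquiv n m).surjective w
  have hm : meets t u j := (mem_Gb_append t j u v).1 hw
  refine (psq_append_subset h0 u v).trans ?_
  unfold psq Jst
  have h4 : (0 : ℝ) < 4 ^ n := by positivity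
  obtain ⟨ha, hb⟩ := hm
  have e1 : (1 + t) / 4 ^ n ≤ 2 / 4 ^ n := div_le_div_of_nonneg_right (by linarith) h4.le
  refine Icc_subset_Icc ?_ ?_
  · show ((j : ℝ) - 2) / 4 ^ n ≤ pr t u
    rw [sub_div]
    linarith
  · show pr t u + (1 + t) / 4 ^ n ≤ ((j : ℝ) + 3) / 4 ^ n
    have e2 : ((j : ℝ) + 3) / 4 ^ n = ((j : ℝ) + 1) / 4 ^ n + 2 / 4 ^ n := by ring
    rw [e2]
    linarith

theorem psq_subset_Jst' {t : ℝ} (h0 : 0 ≤ t) (h1 : t ≤ 1) {N : ℕ} {b : ℕ × ℤ} (hb : b.1 ≤ N)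
    {w : Wd N} (hw : w ∈ Gb t N b) : psq t w ⊆ Jst b := by
  obtain ⟨n, j⟩ := b
  obtain ⟨m, rfl⟩ := Nat.exists_eq_add_of_le hb
  exact psq_subset_Jst h0 h1 j hw

theorem card_Gb' (t : ℝ) {N : ℕ} {b : ℕ × ℤ} (hb : b.1 ≤ N) :
    ((Gb t N b).card : ℝ) / 4 ^ N = (cnt t b.1 b.2 : ℝ) / 4 ^ b.1 := by
  obtain ⟨n, j⟩ := b
  obtain ⟨m, rfl⟩ := Nat.exists_eq_add_of_le hb
  rw [card_Gb]
  push_cast
  rw [pow_add]
  field_simp

theorem psq_nonempty {t : ℝ} (h0 : 0 ≤ t) {n : ℕ} (w : Wd n) : (psq t w).Nonempty :=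
  ⟨pr t w, left_mem_Icc.2 (by have : 0 ≤ (1 + t) / 4 ^ n := by positivity
                              linarith)⟩

theorem disj {t : ℝ} (h0 : 0 ≤ t) (h1 : t ≤ 1) {N : ℕ} {B : Finset (ℕ × ℤ)}
    (hB : ∀ b ∈ B, b.1 ≤ N) (hd : (B : Set (ℕ × ℤ)).PairwiseDisjoint Jst) :
    (B : Set (ℕ × ℤ)).PairwiseDisjoint (Gb t N) := by
  intro b hb c hc hbc
  refine Finset.disjoint_left.2 fun w hw hw' => ?_
  obtain ⟨x, hx⟩ := psq_nonempty h0 w
  exact Set.disjoint_left.1 (hd hb hc hbc) (psq_subset_Jst' h0 h1 (hB b hb) hw hx)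
    (psq_subset_Jst' h0 h1 (hB c hc) hw' hx)

theorem volume_Jst (b : ℕ × ℤ) : volume (Jst b) = ENNReal.ofReal (5 / 4 ^ b.1) := by
  unfold Jst
  rw [Real.volume_Icc]
  congr 1
  ring

/-- the piece of the projection under the word `w` -/
def pc (t : ℝ) {N : ℕ} (M : ℕ) (w : Wd N) : Set ℝ := {x | 4 ^ N * (x - pr t w) ∈ P M t}

theorem volume_pc (t : ℝ) {N : ℕ} (M : ℕ) (w : Wd N) :
    volume (pc t M w) = ENNReal.ofReal (1 / 4 ^ N) * volume (P M t) := by
  have h4 : (4 : ℝ) ^ N ≠ 0 := by positivity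
  have e : pc t M w = (fun x => x + -pr t w) ⁻¹' ((fun x => (4 : ℝ) ^ N * x) ⁻¹' (P M t)) := rfl
  rw [e]
  rw [measure_preimage_add_right, Real.volume_preimage_mul_left h4, abs_of_pos (by positivity)]
  congr 2
  rw [one_div]

theorem pc_subset {t : ℝ} (h0 : 0 ≤ t) {N : ℕ} (M : ℕ) (w : Wd N) : pc t M w ⊆ psq t w := by
  intro x hx
  have h := P_subset M h0 hx
  have h4 : (0 : ℝ) < 4 ^ N := by positivity
  obtain ⟨ha, hb⟩ := h
  constructor
  · have : 0 ≤ x - pr t w := nonneg_of_mul_nonneg_right ha h4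
    linarith
  · have : x - pr t w ≤ (1 + t) / 4 ^ N := by
      rw [le_div_iff₀ h4]
      linarith
    linarith

theorem cover {t : ℝ} (h0 : 0 ≤ t) (h1 : t ≤ 1) {N : ℕ} (M : ℕ) {B : Finset (ℕ × ℤ)}
    (hB : ∀ b ∈ B, b.1 ≤ N) (G : Finset (Wd N)) (hG : ∀ w ∈ G, ∃ b ∈ B, w ∈ Gb t N b) :
    P (N + M) t ⊆ (⋃ b ∈ B, Jst b) ∪ ⋃ w ∈ (Finset.univ \ G : Finset (Wd N)), pc t M w := by
  intro x hx
  rw [P_add] at hx
  obtain ⟨w, hw⟩ := mem_iUnion.1 hx
  by_cases hwG : w ∈ G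
  · left
    obtain ⟨b, hb, hwb⟩ := hG w hwG
    exact mem_iUnion₂.2 ⟨b, hb, psq_subset_Jst' h0 h1 (hB b hb) hwb (pc_subset h0 M w hw)⟩
  · right
    exact mem_iUnion₂.2 ⟨w, Finset.mem_sdiff.2 ⟨Finset.mem_univ _, hwG⟩, hw⟩

end REC

open REC in
theorem REC_thm : Stmt_REC := by
  classical
  intro N K t B h0 h1 hB hd
  have hB1 : ∀ b ∈ B, b.1 ≤ N := fun b hb => (hB b hb).1
  set G : Finset (Wd N) := B.biUnion (Gb t N) with hGdef
  have hcard : (G.card : ℝ) = ∑ b ∈ B, ((Gb t N b).card : ℝ) := by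
    rw [hGdef, Finset.card_biUnion (disj h0 h1 hB1 hd)]
    push_cast
    rfl
  have h4N : (0 : ℝ) < 4 ^ N := by positivity
  have hGle : (G.card : ℝ) ≤ 4 ^ N := by
    have h := Finset.card_le_univ G
    rw [card_Wd] at h
    exact_mod_cast h
  refine ⟨(G.card : ℝ) / 4 ^ N, ?_, (div_le_one h4N).2 hGle, ?_⟩
  · rw [hcard, Finset.sum_div, Finset.mul_sum]
    refine Finset.sum_le_sum fun b hb => ?_
    rw [card_Gb' t (hB1 b hb), mul_one_div]
    have : (K : ℝ) ≤ (cnt t b.1 b.2 : ℝ) := by exact_mod_cast (hB b hb).2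
    exact div_le_div_of_nonneg_right this (by positivity)
  · intro M
    have hcov := cover h0 h1 M hB1 G (fun w hw => by
      obtain ⟨b, hb, hwb⟩ := Finset.mem_biUnion.1 hw
      exact ⟨b, hb, hwb⟩)
    have hv1 : volume (⋃ b ∈ B, Jst b) ≤ ∑ b ∈ B, ENNReal.ofReal (5 / 4 ^ b.1) := by
      refine (measure_biUnion_finset_le _ _).trans ?_
      exact Finset.sum_le_sum fun b _ => (volume_Jst b).le
    have hv2 : volume (⋃ w ∈ (Finset.univ \ G : Finset (Wd N)), pc t M w) ≤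
        ∑ w ∈ (Finset.univ \ G : Finset (Wd N)), ENNReal.ofReal (1 / 4 ^ N) * volume (P M t) := by
      refine (measure_biUnion_finset_le _ _).trans ?_
      exact Finset.sum_le_sum fun w _ => (volume_pc t M w).le
    have hPM : volume (P M t) = ENNReal.ofReal (L M t) := by
      unfold L
      rw [ENNReal.ofReal_toReal (volume_P_ne_top M t)]
    have hcs : ((Finset.univ \ G : Finset (Wd N)).card : ℝ) = 4 ^ N - G.card := by
      rw [Finset.card_sdiff_of_subset (Finset.subset_univ G), Finset.card_univ, card_Wd,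
        Nat.cast_sub]
      · push_cast
        ring
      · exact_mod_cast hGle
    have hL := L_nonneg M t
    have htot : volume (P (N + M) t) ≤ ENNReal.ofReal (5 * (∑ b ∈ B, (1 : ℝ) / 4 ^ b.1) +
        (1 - (G.card : ℝ) / 4 ^ N) * L M t) := by
      calc volume (P (N + M) t) ≤ _ := measure_mono hcov
        _ ≤ _ := measure_union_le _ _
        _ ≤ ∑ b ∈ B, ENNReal.ofReal (5 / 4 ^ b.1) +
            ∑ w ∈ (Finset.univ \ G : Finset (Wd N)), ENNReal.ofReal (1 / 4 ^ N) * volume (P M t) :=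
          add_le_add hv1 hv2
        _ = _ := by
          rw [Finset.sum_const, nsmul_eq_mul, hPM, ← ENNReal.ofReal_mul (by positivity),
            ← ENNReal.ofReal_natCast, ← ENNReal.ofReal_mul (by positivity),
            ← ENNReal.ofReal_sum_of_nonneg (fun b _ => by positivity),
            ← ENNReal.ofReal_add (Finset.sum_nonneg fun b _ => by positivity)
              (mul_nonneg (by positivity) (mul_nonneg (by positivity) hL))]
          congr 1
          rw [hcs, Finset.mul_sum]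
          congr 1
          · exact Finset.sum_congr rfl fun b _ => by ring
          · field_simp
    have hnn : 0 ≤ 5 * (∑ b ∈ B, (1 : ℝ) / 4 ^ b.1) + (1 - (G.card : ℝ) / 4 ^ N) * L M t := by
      refine add_nonneg (mul_nonneg (by norm_num) (Finset.sum_nonneg fun b _ => by positivity)) ?_
      refine mul_nonneg ?_ hL
      have := (div_le_one h4N).2 hGle
      linarith
    calc L (N + M) t = (volume (P (N + M) t)).toReal := rfl
      _ ≤ (ENNReal.ofReal _).toReal := ENNReal.toReal_mono ENNReal.ofReal_ne_top htot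
      _ = _ := ENNReal.toReal_ofReal hnn

end Pool.Agent.FCC
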