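import Pool.Agent.FCC.Stmts

/-!
# Four corner Cantor sets: the average length of the projections
-/

namespace Pool.Agent.FCC

open MeasureTheory Set

namespace RED

theorem L_le_two (n : ℕ) {t : ℝ} (h0 : 0 ≤ t) (h1 : t ≤ 1) : L n t ≤ 2 := by
  have := L_le n h0
  linarith

theorem intOn (n : ℕ) {a b : ℝ} (ha : 0 ≤ a) (hab : a ≤ b) (hb : b ≤ 1) :
    IntervalIntegrable (L n) volume a b := by
  rw [intervalIntegrable_iff_integrableOn_Icc_of_le hab]
  refine Measure.integrableOn_of_bounded (M := 2) ?_ ?_ ?_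
  · rw [Real.volume_Icc]; exact ENNReal.ofReal_ne_top
  · exact (measurable_L n).aestronglyMeasurable
  · refine (ae_restrict_iff' measurableSet_Icc).2 (Filter.Eventually.of_forall fun t ht => ?_)
    rw [Real.norm_eq_abs, abs_of_nonneg (L_nonneg n t)]
    exact L_le_two n (ha.trans ht.1) (ht.2.trans hb)

/-- The small directions. -/
theorem small (h : Stmt_SCL) (n : ℕ) :
    ∫ t in (0 : ℝ)..(1 / 4), L (n + 1) t ≤ (∫ t in (0 : ℝ)..1, L n t) / 8 := by
  have e := intervalIntegral.integral_comp_div (a := 0) (b := 1) (L (n + 1))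
    (by norm_num : (4 : ℝ) ≠ 0)
  have e2 : ∫ t in (0 : ℝ)..(1 / 4), L (n + 1) t =
      (1 / 4) * ∫ s in (0 : ℝ)..1, L (n + 1) (s / 4) := by
    rw [e, smul_eq_mul, zero_div]
    ring
  have hi : IntervalIntegrable (fun s => L (n + 1) (s / 4)) volume 0 1 := by
    rw [intervalIntegrable_iff_integrableOn_Icc_of_le zero_le_one]
    refine Measure.integrableOn_of_bounded (M := 2) ?_ ?_ ?_
    · rw [Real.volume_Icc]; exact ENNReal.ofReal_ne_top
    · exact ((measurable_L (n + 1)).comp (measurable_id.div_const 4)).aestronglyMeasurable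
    · refine (ae_restrict_iff' measurableSet_Icc).2 (Filter.Eventually.of_forall fun t ht => ?_)
      rw [Real.norm_eq_abs, abs_of_nonneg (L_nonneg _ _)]
      exact L_le_two _ (by linarith [ht.1]) (by linarith [ht.2])
  have hj : IntervalIntegrable (fun s => L n s / 2) volume 0 1 :=
    (intOn n le_rfl zero_le_one le_rfl).div_const 2
  have hm : ∫ s in (0 : ℝ)..1, L (n + 1) (s / 4) ≤ ∫ s in (0 : ℝ)..1, L n s / 2 := by
    refine intervalIntegral.integral_mono_on zero_le_one hi hj fun s hs => ?_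
    have := h (n + 1) 1 s hs.1 hs.2 (by omega)
    rw [pow_one, pow_one, Nat.add_sub_cancel] at this
    exact this
  rw [intervalIntegral.integral_div] at hm
  rw [e2]
  linarith

theorem pow_le {q : ℝ} (h0 : 0 < q) (h1 : q < 1 / 4) (n : ℕ) (hn : 1 ≤ n) :
    (n : ℝ) ^ (-q) ≤ 2 * ((n + 1 : ℕ) : ℝ) ^ (-q) := by
  have hn0 : (0 : ℝ) < n := by exact_mod_cast hn
  have hn1 : (0 : ℝ) < ((n + 1 : ℕ) : ℝ) := by positivity
  rw [Real.rpow_neg hn0.le, Real.rpow_neg hn1.le]
  have a1 : (0 : ℝ) < (n : ℝ) ^ q := Real.rpow_pos_of_pos hn0 q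
  have a2 : (0 : ℝ) < ((n + 1 : ℕ) : ℝ) ^ q := Real.rpow_pos_of_pos hn1 q
  have a3 : ((n + 1 : ℕ) : ℝ) ^ q ≤ 2 * (n : ℝ) ^ q := by
    calc ((n + 1 : ℕ) : ℝ) ^ q ≤ (2 * (n : ℝ)) ^ q := by
          refine Real.rpow_le_rpow hn1.le ?_ h0.le
          push_cast
          have : (1 : ℝ) ≤ n := by exact_mod_cast hn
          linarith
      _ = 2 ^ q * (n : ℝ) ^ q := Real.mul_rpow (by norm_num) hn0.le
      _ ≤ 2 * (n : ℝ) ^ q := by
          refine mul_le_mul_of_nonneg_right ?_ a1.le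
          calc (2 : ℝ) ^ q ≤ 2 ^ (1 : ℝ) :=
                Real.rpow_le_rpow_of_exponent_le (by norm_num) (by linarith)
            _ = 2 := Real.rpow_one 2
  rw [inv_eq_one_div, inv_eq_one_div, ← mul_div_assoc, mul_one, div_le_div_iff₀ a1 a2]
  linarith

end RED

open RED in
theorem RED_thm : Stmt_SCL → Stmt_INT → Stmt_RED := by
  intro hS hI q hq0 hq1
  obtain ⟨C, hC, hc⟩ := hI q hq0 hq1
  refine ⟨2 + 2 * C, by positivity, fun n hn => ?_⟩
  induction n, hn using Nat.le_induction with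
  | base =>
    have h1 : ∫ t in (0 : ℝ)..1, L 1 t ≤ ∫ _t in (0 : ℝ)..1, (2 : ℝ) := by
      refine intervalIntegral.integral_mono_on zero_le_one (intOn 1 le_rfl zero_le_one le_rfl)
        (by simp) fun s hs => L_le_two 1 hs.1 hs.2
    rw [intervalIntegral.integral_const, sub_zero, one_smul] at h1
    rw [Nat.cast_one, Real.one_rpow]
    linarith
  | succ n hn ih =>
    have h1 : ∫ t in (0 : ℝ)..1, L (n + 1) t =
        (∫ t in (0 : ℝ)..(1 / 4), L (n + 1) t) + ∫ t in (1 / 4 : ℝ)..1, L (n + 1) t :=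
      (intervalIntegral.integral_add_adjacent_intervals
        (intOn (n + 1) le_rfl (by norm_num) (by norm_num))
        (intOn (n + 1) (by norm_num) (by norm_num) le_rfl)).symm
    have h2 := small hS n
    have h3 := hc (n + 1) (by omega)
    have h4 := pow_le hq0 hq1 n hn
    have h5 : 0 ≤ ((n + 1 : ℕ) : ℝ) ^ (-q) := by positivity
    have h6 : (2 + 2 * C) * (n : ℝ) ^ (-q) ≤ (2 + 2 * C) * (2 * ((n + 1 : ℕ) : ℝ) ^ (-q)) :=
      mul_le_mul_of_nonneg_left h4 (by positivity)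
    rw [h1]
    have h7 : 0 ≤ C * ((n + 1 : ℕ) : ℝ) ^ (-q) := by positivity
    nlinarith

end Pool.Agent.FCC
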