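import Pool.Agent.FCC.Stmts

/-!
# Positive definiteness (SAL)
-/

namespace Pool.Agent.FCC

open MeasureTheory Set

namespace SAL

/-- the product over a multiset of frequencies -/
noncomputable def pm (M : Multiset ℝ) (x : ℝ) : ℝ := (M.map fun w => 1 + Real.cos (w * x)).prod

/-- the integral against a frequency -/
noncomputable def G (M : Multiset ℝ) (v : ℝ) : ℝ :=
  ∫ x in (0 : ℝ)..1, (1 - x) * pm M x * Real.cos (v * x)

theorem continuous_pm (M : Multiset ℝ) : Continuous (pm M) := by
  induction M using Multiset.induction_on with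
  | empty =>
    have : pm 0 = fun _ => 1 := by
      funext x
      simp [pm]
    rw [this]
    exact continuous_const
  | cons w M ih =>
    have : pm (w ::ₘ M) = fun x => (1 + Real.cos (w * x)) * pm M x := by
      funext x
      simp [pm]
    rw [this]
    exact Continuous.mul (by fun_prop) ih

theorem pm_nonneg (M : Multiset ℝ) (x : ℝ) : 0 ≤ pm M x := by
  unfold pm
  apply Multiset.prod_nonneg
  intro a ha
  obtain ⟨w, -, rfl⟩ := Multiset.mem_map.1 ha
  linarith [Real.neg_one_le_cos (w * x)]

theorem base (v : ℝ) (hv : v ≠ 0) :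
    ∫ x in (0 : ℝ)..1, (1 - x) * Real.cos (v * x) = (1 - Real.cos v) / v ^ 2 := by
  have h : ∀ x ∈ uIcc (0 : ℝ) 1, HasDerivAt
      (fun x => (1 - x) * (Real.sin (v * x) / v) - Real.cos (v * x) / v ^ 2)
      ((1 - x) * Real.cos (v * x)) x := by
    intro x _
    have h1 : HasDerivAt (fun x : ℝ => v * x) v x := by
      simpa using (hasDerivAt_id x).const_mul v
    have h2 := h1.sin
    have h3 := h1.cos
    have h4 : HasDerivAt (fun x : ℝ => 1 - x) (-1) x := by
      simpa using (hasDerivAt_id x).const_sub 1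
    have h5 := (h4.mul (h2.div_const v)).sub (h3.div_const (v ^ 2))
    have e : -1 * (Real.sin (v * x) / v) + (1 - x) * (Real.cos (v * x) * v / v) -
        -Real.sin (v * x) * v / v ^ 2 = (1 - x) * Real.cos (v * x) := by
      field_simp
      ring
    rw [← e]
    exact h5
  rw [intervalIntegral.integral_eq_sub_of_hasDerivAt h
    (Continuous.intervalIntegrable (by fun_prop) _ _)]
  simp
  field_simp
  ring

theorem base_zero : ∫ x in (0 : ℝ)..1, (1 - x) = 1 / 2 := by
  rw [intervalIntegral.integral_sub (by simp) (by simp)]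
  simp
  norm_num

theorem step (M : Multiset ℝ) (w v : ℝ) :
    G (w ::ₘ M) v = G M v + G M (v + w) / 2 + G M (v - w) / 2 := by
  unfold G
  have hc := continuous_pm M
  have e : ∀ x : ℝ, (1 - x) * pm (w ::ₘ M) x * Real.cos (v * x) =
      (1 - x) * pm M x * Real.cos (v * x) + ((1 - x) * pm M x * Real.cos ((v + w) * x)) / 2 +
        ((1 - x) * pm M x * Real.cos ((v - w) * x)) / 2 := by
    intro x
    have e1 : pm (w ::ₘ M) x = (1 + Real.cos (w * x)) * pm M x := by simp [pm]
    have e2 : Real.cos ((v + w) * x) =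
        Real.cos (v * x) * Real.cos (w * x) - Real.sin (v * x) * Real.sin (w * x) := by
      rw [add_mul, Real.cos_add]
    have e3 : Real.cos ((v - w) * x) =
        Real.cos (v * x) * Real.cos (w * x) + Real.sin (v * x) * Real.sin (w * x) := by
      rw [sub_mul, Real.cos_sub]
    rw [e1, e2, e3]
    ring
  simp_rw [e]
  rw [intervalIntegral.integral_add, intervalIntegral.integral_add,
    intervalIntegral.integral_div, intervalIntegral.integral_div]
  · exact Continuous.intervalIntegrable (by fun_prop) _ _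
  · exact Continuous.intervalIntegrable (by fun_prop) _ _
  · exact Continuous.intervalIntegrable (by fun_prop) _ _
  · exact Continuous.intervalIntegrable (by fun_prop) _ _

theorem main (M : Multiset ℝ) : (∀ v, 0 ≤ G M v) ∧ 1 / 2 ≤ G M 0 := by
  induction M using Multiset.induction_on with
  | empty =>
    have h0 : ∀ v, G 0 v = ∫ x in (0 : ℝ)..1, (1 - x) * Real.cos (v * x) := by
      intro v
      unfold G
      simp [pm]
    have h1 : G 0 0 = 1 / 2 := by
      rw [h0, ← base_zero]
      simp
    refine ⟨fun v => ?_, h1.ge⟩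
    by_cases hv : v = 0
    · rw [hv, h1]
      norm_num
    · rw [h0, base v hv]
      exact div_nonneg (by linarith [Real.cos_le_one v]) (by positivity)
  | cons w M ih =>
    refine ⟨fun v => ?_, ?_⟩
    · rw [step]
      have h1 := ih.1 v
      have h2 := ih.1 (v + w)
      have h3 := ih.1 (v - w)
      linarith
    · rw [step]
      have h2 := ih.1 (0 + w)
      have h3 := ih.1 (0 - w)
      linarith [ih.2]

theorem Q_eq (a b : ℕ) (t x : ℝ) :
    Q a b (t * x) = 1 / 2 ^ (b - a) *
      pm ((Finset.Ico a b).val.map fun j : ℕ => 2 * 4 ^ j * t) x := by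
  unfold Q pm
  rw [Multiset.map_map]
  have e : ((fun w : ℝ => 1 + Real.cos (w * x)) ∘ fun j : ℕ => 2 * 4 ^ j * t) =
      fun j : ℕ => 1 + Real.cos (2 * 4 ^ j * t * x) := rfl
  rw [e]
  change _ = 1 / 2 ^ (b - a) * ∏ j ∈ Finset.Ico a b, (1 + Real.cos (2 * 4 ^ j * t * x))
  have e2 : (1 / 2 ^ (b - a) : ℝ) = ∏ _j ∈ Finset.Ico a b, (1 / 2 : ℝ) := by
    rw [Finset.prod_const, Nat.card_Ico, one_div_pow]
  rw [e2, ← Finset.prod_mul_distrib]
  refine Finset.prod_congr rfl fun j _ => ?_
  rw [Real.cos_sq]
  have e3 : 2 * (4 ^ j * (t * x)) = 2 * 4 ^ j * t * x := by ring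
  rw [e3]
  ring

theorem pm_add (M N : Multiset ℝ) (x : ℝ) : pm (M + N) x = pm M x * pm N x := by
  unfold pm
  rw [Multiset.map_add, Multiset.prod_add]

end SAL

open SAL in
theorem SAL_thm : Stmt_SAL := by
  intro a b t hab
  set M : Multiset ℝ := ((Finset.Ico a b).val.map fun j : ℕ => 2 * 4 ^ j * (1 : ℝ)) +
    ((Finset.Ico a b).val.map fun j : ℕ => 2 * 4 ^ j * t) with hM
  have key : ∀ x : ℝ, Q a b x * Q a b (t * x) = 1 / 4 ^ (b - a) * pm M x := by
    intro x
    have h1 := Q_eq a b 1 x
    rw [one_mul] at h1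
    rw [h1, Q_eq a b t x, hM, pm_add]
    have e4 : (4 : ℝ) ^ (b - a) = 2 ^ (b - a) * 2 ^ (b - a) := by
      rw [← mul_pow]; norm_num
    rw [e4]
    generalize pm ((Finset.Ico a b).val.map fun j : ℕ => 2 * 4 ^ j * (1 : ℝ)) x = A
    generalize pm ((Finset.Ico a b).val.map fun j : ℕ => 2 * 4 ^ j * t) x = B
    field_simp
  simp_rw [key]
  rw [intervalIntegral.integral_const_mul]
  have h2 : G M 0 ≤ ∫ x in (0 : ℝ)..1, pm M x := by
    unfold G
    apply intervalIntegral.integral_mono_on (by norm_num)
    · exact Continuous.intervalIntegrable (by have := continuous_pm M; fun_prop) _ _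
    · exact Continuous.intervalIntegrable (continuous_pm M) _ _
    · intro x hx
      rw [zero_mul, Real.cos_zero, mul_one]
      have h3 := pm_nonneg M x
      have h4 : 0 ≤ x * pm M x := mul_nonneg hx.1 h3
      nlinarith
  have h5 : (1 : ℝ) / 2 ≤ ∫ x in (0 : ℝ)..1, pm M x := (main M).2.trans h2
  have h6 : (0 : ℝ) < 4 ^ (b - a) := by positivity
  rw [div_eq_mul_one_div, mul_comm]
  exact mul_le_mul_of_nonneg_left h5 (by positivity)

end Pool.Agent.FCC
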