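import Pool.Agent.FCC.Stmts

/-!
# Four corner Cantor sets: scaling of the direction
-/

namespace Pool.Agent.FCC

open MeasureTheory Set

namespace SCL

/-- The value of a bit word. -/
noncomputable def xa {k : ℕ} (a : Fin k → Bool) : ℝ := ∑ i : Fin k, bv (a i) / 4 ^ (i.val + 1)

theorem xa_nonneg {k : ℕ} (a : Fin k → Bool) : 0 ≤ xa a :=
  Finset.sum_nonneg fun i _ => div_nonneg (bv_nonneg _) (by positivity)

theorem xa_le {k : ℕ} (a : Fin k → Bool) : xa a ≤ 1 - 1 / 4 ^ k := by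
  rw [← geo]
  exact Finset.sum_le_sum fun i _ => div_le_div_of_nonneg_right (bv_le _) (by positivity)

theorem px_split {k m : ℕ} (w : Wd (k + m)) :
    px w = xa (fun i : Fin k => (w (Fin.castAdd m i)).1) +
      xa (fun i : Fin m => (w (Fin.natAdd k i)).1) / 4 ^ k := by
  unfold px xa
  rw [Fin.sum_univ_add, Finset.sum_div]
  refine congrArg₂ (· + ·) ?_ ?_
  · exact Finset.sum_congr rfl fun i _ => rfl
  · refine Finset.sum_congr rfl fun i _ => ?_
    rw [Fin.val_natAdd, div_div]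
    refine congrArg₂ (· / ·) rfl ?_
    ring

theorem py_split {k m : ℕ} (w : Wd (k + m)) :
    py w = xa (fun i : Fin m => (w (finCongr (Nat.add_comm m k) (Fin.castAdd k i))).2) +
      xa (fun i : Fin k => (w (finCongr (Nat.add_comm m k) (Fin.natAdd m i))).2) / 4 ^ m := by
  unfold py xa
  rw [← Equiv.sum_comp (finCongr (Nat.add_comm m k)), Fin.sum_univ_add, Finset.sum_div]
  refine congrArg₂ (· + ·) ?_ ?_
  · exact Finset.sum_congr rfl fun i _ => rfl
  · refine Finset.sum_congr rfl fun i _ => ?_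
    rw [finCongr_apply, Fin.val_cast, Fin.val_natAdd, div_div]
    refine congrArg₂ (· / ·) rfl ?_
    ring

theorem subset (k m : ℕ) (s : ℝ) (hs : 0 ≤ s) :
    P (k + m) (s / 4 ^ k) ⊆ ⋃ a : Fin k → Bool, {x | 4 ^ k * (x - xa a) ∈ P m s} := by
  intro u hu
  obtain ⟨w, hw⟩ := mem_iUnion.1 hu
  refine mem_iUnion.2 ⟨fun i : Fin k => (w (Fin.castAdd m i)).1, ?_⟩
  refine mem_iUnion.2 ⟨fun i : Fin m => ((w (Fin.natAdd k i)).1,
    (w (finCongr (Nat.add_comm m k) (Fin.castAdd k i))).2), ?_⟩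
  have h4k : (0 : ℝ) < 4 ^ k := by positivity
  have h4m : (0 : ℝ) < 4 ^ m := by positivity
  unfold psq pr at hw ⊢
  rw [px_split, py_split] at hw
  have e1 : px (fun i : Fin m => ((w (Fin.natAdd k i)).1,
    (w (finCongr (Nat.add_comm m k) (Fin.castAdd k i))).2)) =
      xa (fun i : Fin m => (w (Fin.natAdd k i)).1) := rfl
  have e2 : py (fun i : Fin m => ((w (Fin.natAdd k i)).1,
    (w (finCongr (Nat.add_comm m k) (Fin.castAdd k i))).2)) =
      xa (fun i : Fin m => (w (finCongr (Nat.add_comm m k) (Fin.castAdd k i))).2) := rfl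
  rw [e1, e2]
  have hr0 := xa_nonneg (fun i : Fin k => (w (finCongr (Nat.add_comm m k) (Fin.natAdd m i))).2)
  have hr1 := xa_le (fun i : Fin k => (w (finCongr (Nat.add_comm m k) (Fin.natAdd m i))).2)
  generalize xa (fun i : Fin k => (w (finCongr (Nat.add_comm m k) (Fin.natAdd m i))).2) = r at *
  generalize xa (fun i : Fin m => (w (finCongr (Nat.add_comm m k) (Fin.castAdd k i))).2) = y at *
  generalize xa (fun i : Fin m => (w (Fin.natAdd k i)).1) = x at *
  generalize xa (fun i : Fin k => (w (Fin.castAdd m i)).1) = a at *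
  obtain ⟨h1, h2⟩ := hw
  have h1' := mul_le_mul_of_nonneg_left h1 h4k.le
  have h2' := mul_le_mul_of_nonneg_left h2 h4k.le
  have e3 : 4 ^ k * (a + x / 4 ^ k + s / 4 ^ k * (y + r / 4 ^ m)) =
      4 ^ k * a + x + s * y + s * r / 4 ^ m := by
    field_simp
    ring
  have e4 : 4 ^ k * (a + x / 4 ^ k + s / 4 ^ k * (y + r / 4 ^ m) +
      (1 + s / 4 ^ k) / 4 ^ (k + m)) =
      4 ^ k * a + x + s * y + (s * (r + 1 / 4 ^ k) + 1) / 4 ^ m := by
    rw [pow_add]
    field_simp
    ring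
  rw [e3] at h1'
  rw [e4] at h2'
  have h3 : 0 ≤ s * r / 4 ^ m := by positivity
  have h5 : (s * (r + 1 / 4 ^ k) + 1) / 4 ^ m ≤ (1 + s) / 4 ^ m := by
    refine div_le_div_of_nonneg_right ?_ h4m.le
    nlinarith [mul_le_mul_of_nonneg_left (show r + 1 / 4 ^ k ≤ 1 by linarith) hs]
  constructor <;> linarith

theorem volume_piece (k : ℕ) (c : ℝ) (A : Set ℝ) :
    volume {x : ℝ | 4 ^ k * (x - c) ∈ A} = ENNReal.ofReal (1 / 4 ^ k) * volume A := by
  have h1 : {x : ℝ | 4 ^ k * (x - c) ∈ A} =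
      (fun x => x - c) ⁻¹' ((fun y => 4 ^ k * y) ⁻¹' A) := rfl
  have h4 : (0 : ℝ) < 4 ^ k := by positivity
  simp only [sub_eq_add_neg] at h1
  simp only [sub_eq_add_neg]
  rw [h1, measure_preimage_add_right, Real.volume_preimage_mul_left h4.ne', abs_of_pos
    (inv_pos.2 h4), one_div]

end SCL

theorem SCL_thm : Stmt_SCL := by
  intro n k s hs hs1 hk
  obtain ⟨m, rfl⟩ := Nat.exists_eq_add_of_le hk
  rw [Nat.add_sub_cancel_left]
  unfold L
  have h1 : volume (P (k + m) (s / 4 ^ k)) ≤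
      ∑ _a : Fin k → Bool, ENNReal.ofReal (1 / 4 ^ k) * volume (P m s) := by
    refine (measure_mono (SCL.subset k m s hs)).trans ?_
    refine (measure_iUnion_fintype_le _ _).trans ?_
    exact Finset.sum_le_sum fun a _ => (SCL.volume_piece k (SCL.xa a) (P m s)).le
  rw [Finset.sum_const, Finset.card_univ, Fintype.card_fun, Fintype.card_bool, Fintype.card_fin,
    nsmul_eq_mul] at h1
  have h2 : (((2 ^ k : ℕ) : ENNReal) * (ENNReal.ofReal (1 / 4 ^ k) * volume (P m s))).toReal =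
      (volume (P m s)).toReal / 2 ^ k := by
    rw [ENNReal.toReal_mul, ENNReal.toReal_mul, ENNReal.toReal_ofReal (by positivity),
      ENNReal.toReal_natCast]
    push_cast
    have h4 : (4 : ℝ) ^ k = 2 ^ k * 2 ^ k := by
      rw [← mul_pow]; norm_num
    rw [h4]
    field_simp
  rw [← h2]
  refine ENNReal.toReal_mono ?_ h1
  exact ENNReal.mul_ne_top (ENNReal.natCast_ne_top _)
    (ENNReal.mul_ne_top ENNReal.ofReal_ne_top (volume_P_ne_top m s))

end Pool.Agent.FCC
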