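import Pool.Agent.FCC.Stmts

/-!
# Four corner Cantor sets: the negative moment of the sine
-/

namespace Pool.Agent.FCC

open MeasureTheory Set

namespace SIN

theorem Q_nonneg (a b : ℕ) (x : ℝ) : 0 ≤ Q a b x := Finset.prod_nonneg fun _ _ => sq_nonneg _

theorem Q_le_one (a b : ℕ) (x : ℝ) : Q a b x ≤ 1 :=
  Finset.prod_le_one (fun _ _ => sq_nonneg _) fun _ _ => Real.cos_sq_le_one _

theorem Q_cont (a b : ℕ) : Continuous (Q a b) := by
  unfold Q
  exact continuous_finsetProd _ fun j _ => by fun_prop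

theorem Q_zero (x : ℝ) : Q 0 0 x = 1 := by
  unfold Q
  simp

theorem Q_succ (r : ℕ) (x : ℝ) : Q 0 (r + 1) x = Real.cos x ^ 2 * Q 0 r (4 * x) := by
  unfold Q
  rw [← Finset.range_eq_Ico, ← Finset.range_eq_Ico, Finset.prod_range_succ', mul_comm]
  congr 1
  · rw [pow_zero, one_mul]
  · refine Finset.prod_congr rfl fun j _ => ?_
    rw [show (4 : ℝ) ^ (j + 1) * x = 4 ^ j * (4 * x) by rw [pow_succ, mul_assoc]]

theorem Q_le (s : ℕ) : ∀ (i : ℕ) (x : ℝ), Q 0 (i + s) x ≤ Q 0 s (4 ^ i * x)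
  | 0, x => by rw [Nat.zero_add, pow_zero, one_mul]
  | i + 1, x => by
    rw [show i + 1 + s = (i + s) + 1 by omega, Q_succ]
    calc Real.cos x ^ 2 * Q 0 (i + s) (4 * x) ≤ 1 * Q 0 (i + s) (4 * x) :=
          mul_le_mul_of_nonneg_right (Real.cos_sq_le_one _) (Q_nonneg _ _ _)
      _ = Q 0 (i + s) (4 * x) := one_mul _
      _ ≤ Q 0 s (4 ^ i * (4 * x)) := Q_le s i (4 * x)
      _ = Q 0 s (4 ^ (i + 1) * x) := by rw [pow_succ, mul_assoc]

theorem Q_add_pi (r k : ℕ) (x : ℝ) : Q 0 r (x + k * Real.pi) = Q 0 r x := by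
  unfold Q
  refine Finset.prod_congr rfl fun j _ => ?_
  have h : (4 : ℝ) ^ j * (x + k * Real.pi) = 4 ^ j * x + ((4 ^ j * k : ℕ) : ℝ) * Real.pi := by
    push_cast
    ring
  rw [h, Real.cos_add_nat_mul_pi, mul_pow, ← pow_mul, mul_comm (4 ^ j * k) 2, pow_mul]
  norm_num

theorem Q_pi_sub (r : ℕ) (x : ℝ) : Q 0 r (Real.pi - x) = Q 0 r x := by
  unfold Q
  refine Finset.prod_congr rfl fun j _ => ?_
  have h : (4 : ℝ) ^ j * (Real.pi - x) = ((4 ^ j : ℕ) : ℝ) * Real.pi - 4 ^ j * x := by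
    push_cast
    ring
  rw [h, Real.cos_nat_mul_pi_sub, mul_pow, ← pow_mul, mul_comm (4 ^ j) 2, pow_mul]
  norm_num

theorem cos_sum (y : ℝ) : ∑ k ∈ Finset.range 4, Real.cos ((y + (k : ℝ) * Real.pi) / 4) ^ 2 = 2 := by
  have h : ∀ k : ℕ, Real.cos ((y + (k : ℝ) * Real.pi) / 4) ^ 2 =
      1 / 2 + Real.cos (y / 2 + (k : ℝ) * (Real.pi / 2)) / 2 := by
    intro k
    rw [Real.cos_sq]
    congr 3
    ring
  rw [Finset.sum_congr rfl fun k _ => h k]
  simp only [Finset.sum_range_succ, Finset.sum_range_zero]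
  have h0 : Real.cos (y / 2 + ((0 : ℕ) : ℝ) * (Real.pi / 2)) = Real.cos (y / 2) := by
    congr 1
    push_cast
    ring
  have h1 : Real.cos (y / 2 + ((1 : ℕ) : ℝ) * (Real.pi / 2)) = - Real.sin (y / 2) := by
    rw [show y / 2 + ((1 : ℕ) : ℝ) * (Real.pi / 2) = y / 2 + Real.pi / 2 by push_cast; ring]
    exact Real.cos_add_pi_div_two _
  have h2 : Real.cos (y / 2 + ((2 : ℕ) : ℝ) * (Real.pi / 2)) = - Real.cos (y / 2) := by
    rw [show y / 2 + ((2 : ℕ) : ℝ) * (Real.pi / 2) = y / 2 + Real.pi by push_cast; ring]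
    exact Real.cos_add_pi _
  have h3 : Real.cos (y / 2 + ((3 : ℕ) : ℝ) * (Real.pi / 2)) = Real.sin (y / 2) := by
    rw [show y / 2 + ((3 : ℕ) : ℝ) * (Real.pi / 2) = (y / 2 + Real.pi / 2) + Real.pi by
      push_cast; ring]
    rw [Real.cos_add_pi, Real.cos_add_pi_div_two, neg_neg]
  rw [h0, h1, h2, h3]
  ring

theorem int_step (h : ℝ → ℝ) (hc : Continuous h)
    (hp : ∀ (k : ℕ) (x : ℝ), h (x + k * Real.pi) = h x) :
    ∫ x in (0 : ℝ)..Real.pi, Real.cos x ^ 2 * h (4 * x) =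
      (∫ x in (0 : ℝ)..Real.pi, h x) / 2 := by
  have e1 : ∫ x in (0 : ℝ)..Real.pi, Real.cos x ^ 2 * h (4 * x) =
      (4 : ℝ)⁻¹ * ∫ y in (0 : ℝ)..4 * Real.pi, Real.cos (y / 4) ^ 2 * h y := by
    have := intervalIntegral.integral_comp_mul_left (a := 0) (b := Real.pi)
      (fun y => Real.cos (y / 4) ^ 2 * h y) (show (4 : ℝ) ≠ 0 by norm_num)
    rw [mul_zero, smul_eq_mul] at this
    rw [← this]
    refine intervalIntegral.integral_congr fun x _ => ?_
    show Real.cos x ^ 2 * h (4 * x) = Real.cos (4 * x / 4) ^ 2 * h (4 * x)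
    rw [show 4 * x / 4 = x by ring]
  have hg : Continuous fun y => Real.cos (y / 4) ^ 2 * h y := by fun_prop
  have e2 : ∫ y in (0 : ℝ)..4 * Real.pi, Real.cos (y / 4) ^ 2 * h y =
      ∑ k ∈ Finset.range 4, ∫ y in ((k : ℕ) : ℝ) * Real.pi..((k + 1 : ℕ) : ℝ) * Real.pi,
        Real.cos (y / 4) ^ 2 * h y := by
    have := intervalIntegral.sum_integral_adjacent_intervals (μ := volume)
      (f := fun y => Real.cos (y / 4) ^ 2 * h y) (a := fun k : ℕ => (k : ℝ) * Real.pi) (n := 4)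
      (fun k _ => hg.intervalIntegrable _ _)
    rw [this]
    congr 1
    · push_cast; ring
  have e3 : ∀ k : ℕ, ∫ y in ((k : ℕ) : ℝ) * Real.pi..((k + 1 : ℕ) : ℝ) * Real.pi,
      Real.cos (y / 4) ^ 2 * h y =
      ∫ y in (0 : ℝ)..Real.pi, Real.cos ((y + (k : ℝ) * Real.pi) / 4) ^ 2 * h y := by
    intro k
    have := intervalIntegral.integral_comp_add_right (a := 0) (b := Real.pi)
      (fun y => Real.cos (y / 4) ^ 2 * h y) ((k : ℝ) * Real.pi)
    rw [zero_add] at this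
    rw [show ((k + 1 : ℕ) : ℝ) * Real.pi = Real.pi + (k : ℝ) * Real.pi by push_cast; ring, ← this]
    refine intervalIntegral.integral_congr fun x _ => ?_
    show Real.cos ((x + (k : ℝ) * Real.pi) / 4) ^ 2 * h (x + (k : ℝ) * Real.pi) = _
    rw [hp]
  rw [e1, e2, Finset.sum_congr rfl fun k _ => e3 k, ← intervalIntegral.integral_finsetSum]
  · have e4 : ∫ y in (0 : ℝ)..Real.pi,
        ∑ k ∈ Finset.range 4, Real.cos ((y + (k : ℝ) * Real.pi) / 4) ^ 2 * h y =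
        ∫ y in (0 : ℝ)..Real.pi, 2 * h y := by
      refine intervalIntegral.integral_congr fun x _ => ?_
      show ∑ k ∈ Finset.range 4, Real.cos ((x + (k : ℝ) * Real.pi) / 4) ^ 2 * h x = 2 * h x
      rw [← Finset.sum_mul, cos_sum]
    rw [e4, intervalIntegral.integral_const_mul]
    ring
  · intro k _
    exact Continuous.intervalIntegrable (by fun_prop) _ _

theorem int_Q : ∀ r : ℕ, ∫ x in (0 : ℝ)..Real.pi, Q 0 r x = Real.pi / 2 ^ r
  | 0 => by
    simp only [Q_zero, intervalIntegral.integral_const, smul_eq_mul, pow_zero]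
    ring
  | r + 1 => by
    have e : ∫ x in (0 : ℝ)..Real.pi, Q 0 (r + 1) x =
        ∫ x in (0 : ℝ)..Real.pi, Real.cos x ^ 2 * Q 0 r (4 * x) :=
      intervalIntegral.integral_congr fun x _ => Q_succ r x
    rw [e, int_step _ (Q_cont 0 r) (Q_add_pi r), int_Q r, pow_succ]
    field_simp

theorem lint_of_int {h : ℝ → ℝ} (hc : Continuous h) (h0 : ∀ x, 0 ≤ h x) {a : ℝ} (ha : 0 ≤ a) :
    ∫⁻ x in Icc 0 a, ENNReal.ofReal (h x) = ENNReal.ofReal (∫ x in (0 : ℝ)..a, h x) := by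
  rw [intervalIntegral.integral_of_le ha, ← integral_Icc_eq_integral_Ioc,
    ofReal_integral_eq_lintegral_ofReal]
  · exact hc.integrableOn_Icc
  · exact Filter.Eventually.of_forall h0

theorem small (r i : ℕ) :
    ∫⁻ x in Icc 0 ((1 / 4) ^ i * Real.pi), ENNReal.ofReal (Q 0 r x) ≤
      ENNReal.ofReal (Real.pi / 2 ^ r * (1 / 2) ^ i) := by
  have hpi := Real.pi_pos
  have ha : (0 : ℝ) ≤ (1 / 4) ^ i * Real.pi := by positivity
  rw [lint_of_int (Q_cont 0 r) (Q_nonneg 0 r) ha]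
  refine ENNReal.ofReal_le_ofReal ?_
  rcases le_total i r with hir | hir
  · obtain ⟨s, rfl⟩ := Nat.exists_eq_add_of_le hir
    have h1 : ∫ x in (0 : ℝ)..(1 / 4) ^ i * Real.pi, Q 0 (i + s) x ≤
        ∫ x in (0 : ℝ)..(1 / 4) ^ i * Real.pi, Q 0 s (4 ^ i * x) := by
      refine intervalIntegral.integral_mono_on ha ((Q_cont 0 _).intervalIntegrable _ _)
        (((Q_cont 0 s).comp (by fun_prop)).intervalIntegrable _ _) fun x _ => Q_le s i x
    have h2 := intervalIntegral.integral_comp_mul_left (a := 0) (b := (1 / 4) ^ i * Real.pi)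
      (Q 0 s) (show (4 : ℝ) ^ i ≠ 0 by positivity)
    rw [mul_zero, smul_eq_mul, ← mul_assoc, ← mul_pow, show (4 : ℝ) * (1 / 4) = 1 by norm_num,
      one_pow, one_mul, int_Q] at h2
    rw [h2] at h1
    refine h1.trans (le_of_eq ?_)
    have h4 : (4 : ℝ) ^ i = 2 ^ i * 2 ^ i := by rw [← mul_pow]; norm_num
    rw [h4, one_div, inv_pow, pow_add]
    field_simp
  · have h1 : ∫ x in (0 : ℝ)..(1 / 4) ^ i * Real.pi, Q 0 r x ≤
        ∫ x in (0 : ℝ)..(1 / 4) ^ i * Real.pi, (1 : ℝ) := by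
      refine intervalIntegral.integral_mono_on ha ((Q_cont 0 _).intervalIntegrable _ _)
        (continuous_const.intervalIntegrable _ _) fun x _ => Q_le_one 0 r x
    rw [intervalIntegral.integral_const, smul_eq_mul, mul_one, sub_zero] at h1
    refine h1.trans ?_
    have h4 : (1 / 4 : ℝ) ^ i = (1 / 2) ^ i * (1 / 2) ^ i := by rw [← mul_pow]; norm_num
    have h5 : (1 / 2 : ℝ) ^ i ≤ (1 / 2) ^ r :=
      pow_le_pow_of_le_one (by norm_num) (by norm_num) hir
    have h6 : Real.pi / 2 ^ r = Real.pi * (1 / 2) ^ r := by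
      rw [one_div, inv_pow]; rfl
    rw [h4, h6]
    have h7 : (0 : ℝ) ≤ (1 / 2) ^ i * Real.pi := by positivity
    nlinarith [mul_le_mul_of_nonneg_left h5 h7]

theorem sin_bound {q : ℝ} (hq : 0 < q) {x : ℝ} (hx : 0 < x) (hx2 : x ≤ Real.pi / 2) :
    (ENNReal.ofReal |Real.sin x|) ^ (-(2 * q)) ≤
      ∑' i : ℕ, ENNReal.ofReal ((2 * 4 ^ i) ^ (2 * q)) *
        (Icc 0 ((1 / 4) ^ i * Real.pi)).indicator (fun _ => (1 : ENNReal)) x := by
  have hpi := Real.pi_pos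
  obtain ⟨n, hn1, hn2⟩ := exists_nat_pow_near_of_lt_one (x := x / Real.pi) (y := (1 / 4 : ℝ))
    (by positivity) (by rw [div_le_one hpi]; linarith) (by norm_num) (by norm_num)
  refine le_trans ?_ (ENNReal.le_tsum n)
  have hmem : x ∈ Icc 0 ((1 / 4) ^ n * Real.pi) := ⟨hx.le, by rwa [div_le_iff₀ hpi] at hn2⟩
  rw [indicator_of_mem hmem, mul_one]
  have hs := Real.mul_le_sin hx.le hx2
  have h1 : (1 / 4 : ℝ) ^ (n + 1) * Real.pi < x := by rwa [lt_div_iff₀ hpi] at hn1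
  have h2 : 1 / (2 * (4 : ℝ) ^ n) ≤ Real.sin x := by
    refine le_trans ?_ hs
    have h3 : 2 / Real.pi * ((1 / 4 : ℝ) ^ (n + 1) * Real.pi) ≤ 2 / Real.pi * x :=
      mul_le_mul_of_nonneg_left h1.le (by positivity)
    refine le_trans (le_of_eq ?_) h3
    rw [one_div (4 : ℝ), inv_pow, pow_succ]
    field_simp
    norm_num
  have h4 : 0 < 1 / (2 * (4 : ℝ) ^ n) := by positivity
  have h5 : 0 < Real.sin x := lt_of_lt_of_le h4 h2
  rw [abs_of_pos h5, ENNReal.ofReal_rpow_of_pos h5]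
  refine ENNReal.ofReal_le_ofReal ?_
  have h6 := Real.rpow_le_rpow_of_nonpos h4 h2 (show -(2 * q) ≤ 0 by linarith)
  refine h6.trans (le_of_eq ?_)
  rw [one_div, Real.inv_rpow (by positivity), Real.rpow_neg (by positivity), inv_inv]

theorem half {q : ℝ} (hq : 0 < q) (hq4 : q < 1 / 4) (r : ℕ) :
    ∫⁻ x in Icc 0 (Real.pi / 2),
      ENNReal.ofReal (Q 0 r x) * (ENNReal.ofReal |Real.sin x|) ^ (-(2 * q)) ≤
      ENNReal.ofReal (2 ^ (2 * q) * Real.pi * (1 - 16 ^ q / 2)⁻¹ / 2 ^ r) := by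
  have hpi := Real.pi_pos
  have hQm : Measurable fun x => ENNReal.ofReal (Q 0 r x) :=
    (Q_cont 0 r).measurable.ennreal_ofReal
  have h1 : ∫⁻ x in Icc 0 (Real.pi / 2),
      ENNReal.ofReal (Q 0 r x) * (ENNReal.ofReal |Real.sin x|) ^ (-(2 * q)) ≤
      ∫⁻ x, ∑' i : ℕ, ENNReal.ofReal ((2 * 4 ^ i) ^ (2 * q)) *
        (Icc 0 ((1 / 4) ^ i * Real.pi)).indicator (fun x => ENNReal.ofReal (Q 0 r x)) x := by
    have h0 : ∫⁻ x in Icc 0 (Real.pi / 2),
      ENNReal.ofReal (Q 0 r x) * (ENNReal.ofReal |Real.sin x|) ^ (-(2 * q)) =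
      ∫⁻ x in Ioc 0 (Real.pi / 2),
      ENNReal.ofReal (Q 0 r x) * (ENNReal.ofReal |Real.sin x|) ^ (-(2 * q)) := by
      rw [Measure.restrict_congr_set Ioc_ae_eq_Icc]
    rw [h0]
    refine le_trans ?_ (setLIntegral_le_lintegral (Ioc 0 (Real.pi / 2)) _)
    refine setLIntegral_mono_ae' measurableSet_Ioc (Filter.Eventually.of_forall fun x hx => ?_)
    have h2 := mul_le_mul_right (sin_bound hq hx.1 hx.2) (ENNReal.ofReal (Q 0 r x))
    refine h2.trans (le_of_eq ?_)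
    rw [← ENNReal.tsum_mul_left]
    refine tsum_congr fun i => ?_
    by_cases hm : x ∈ Icc 0 ((1 / 4) ^ i * Real.pi)
    · rw [indicator_of_mem hm, indicator_of_mem hm, mul_one, mul_comm]
    · rw [indicator_of_notMem hm, indicator_of_notMem hm, mul_zero, mul_zero]
  refine h1.trans ?_
  rw [lintegral_tsum]
  swap
  · intro i
    exact ((hQm.indicator measurableSet_Icc).const_mul _).aemeasurable
  have h3 : ∀ i : ℕ, ∫⁻ x, ENNReal.ofReal ((2 * 4 ^ i) ^ (2 * q)) *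
        (Icc 0 ((1 / 4) ^ i * Real.pi)).indicator (fun x => ENNReal.ofReal (Q 0 r x)) x ≤
        ENNReal.ofReal (2 ^ (2 * q) * Real.pi / 2 ^ r * (16 ^ q / 2) ^ i) := by
    intro i
    rw [lintegral_const_mul _ (hQm.indicator measurableSet_Icc),
      lintegral_indicator measurableSet_Icc]
    refine (mul_le_mul_right (small r i) _).trans (le_of_eq ?_)
    rw [← ENNReal.ofReal_mul (by positivity)]
    congr 1
    have e1 : ((2 : ℝ) * 4 ^ i) ^ (2 * q) = 2 ^ (2 * q) * (16 ^ q) ^ i := by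
      rw [Real.mul_rpow (by norm_num) (by positivity)]
      congr 1
      calc ((4 : ℝ) ^ i) ^ (2 * q) = (4 : ℝ) ^ ((i : ℝ) * (2 * q)) := by
            rw [← Real.rpow_natCast, ← Real.rpow_mul (by norm_num)]
        _ = (16 : ℝ) ^ (q * i) := by
            rw [show (16 : ℝ) = 4 ^ (2 : ℝ) by norm_num, ← Real.rpow_mul (by norm_num)]
            congr 1
            ring
        _ = (16 ^ q) ^ i := by rw [Real.rpow_mul (by norm_num), Real.rpow_natCast]
    rw [e1, div_pow, div_pow, one_pow]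
    ring
  have hq16 : (16 : ℝ) ^ q < 2 := by
    have : (2 : ℝ) = 16 ^ (1 / 4 : ℝ) := by
      rw [show (16 : ℝ) = 2 ^ (4 : ℝ) by norm_num, ← Real.rpow_mul (by norm_num)]
      norm_num
    rw [this]
    exact Real.rpow_lt_rpow_of_exponent_lt (by norm_num) hq4
  have hb0 : (0 : ℝ) ≤ 16 ^ q / 2 := by positivity
  have hb1 : (16 : ℝ) ^ q / 2 < 1 := by linarith
  refine (ENNReal.tsum_le_tsum h3).trans ?_
  rw [← ENNReal.ofReal_tsum_of_nonneg]
  · rw [tsum_mul_left, tsum_geometric_of_lt_one hb0 hb1]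
    refine ENNReal.ofReal_le_ofReal (le_of_eq ?_)
    ring
  · intro i
    positivity
  · exact (summable_geometric_of_lt_one hb0 hb1).mul_left _

theorem sym (q : ℝ) (r : ℕ) :
    ∫⁻ x in Icc (Real.pi / 2) Real.pi,
      ENNReal.ofReal (Q 0 r x) * (ENNReal.ofReal |Real.sin x|) ^ (-(2 * q)) =
    ∫⁻ x in Icc 0 (Real.pi / 2),
      ENNReal.ofReal (Q 0 r x) * (ENNReal.ofReal |Real.sin x|) ^ (-(2 * q)) := by
  have hmp : MeasurePreserving (fun x : ℝ => Real.pi - x) volume volume :=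
    Measure.measurePreserving_sub_left volume Real.pi
  have he : MeasurableEmbedding (fun x : ℝ => Real.pi - x) :=
    (MeasurableEquiv.subLeft Real.pi).measurableEmbedding
  have h := hmp.setLIntegral_comp_preimage_emb he
    (fun x => ENNReal.ofReal (Q 0 r x) * (ENNReal.ofReal |Real.sin x|) ^ (-(2 * q)))
    (Icc (Real.pi / 2) Real.pi)
  rw [← h]
  have hpre : (fun x : ℝ => Real.pi - x) ⁻¹' Icc (Real.pi / 2) Real.pi = Icc 0 (Real.pi / 2) := by
    ext x
    simp only [mem_preimage, mem_Icc]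
    constructor <;> rintro ⟨h1, h2⟩ <;> constructor <;> linarith
  rw [hpre]
  refine lintegral_congr fun x => ?_
  rw [Q_pi_sub, Real.sin_pi_sub]

end SIN

theorem SIN_thm : Stmt_SIN := by
  intro q hq hq4
  have hpi := Real.pi_pos
  have hq16 : (16 : ℝ) ^ q < 2 := by
    have : (2 : ℝ) = 16 ^ (1 / 4 : ℝ) := by
      rw [show (16 : ℝ) = 2 ^ (4 : ℝ) by norm_num, ← Real.rpow_mul (by norm_num)]
      norm_num
    rw [this]
    exact Real.rpow_lt_rpow_of_exponent_lt (by norm_num) hq4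
  have hpos : 0 < (1 - (16 : ℝ) ^ q / 2)⁻¹ := inv_pos.2 (by linarith)
  refine ⟨2 * (2 ^ (2 * q) * Real.pi * (1 - 16 ^ q / 2)⁻¹), by positivity, fun r => ?_⟩
  have hu : Icc 0 Real.pi ⊆ Icc 0 (Real.pi / 2) ∪ Icc (Real.pi / 2) Real.pi := by
    intro x hx
    rcases le_total x (Real.pi / 2) with h | h
    · exact Or.inl ⟨hx.1, h⟩
    · exact Or.inr ⟨h, hx.2⟩
  refine (lintegral_mono_set hu).trans ((lintegral_union_le _ _ _).trans ?_)
  rw [SIN.sym]
  refine (add_le_add (SIN.half hq hq4 r) (SIN.half hq hq4 r)).trans (le_of_eq ?_)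
  rw [← ENNReal.ofReal_add (by positivity) (by positivity)]
  congr 1
  ring

end Pool.Agent.FCC
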