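import Pool.Agent.FCC.Stmts

/-!
# Four corner Cantor sets: a density with bounded discrete Cauchy transform
-/

namespace Pool.Agent.FCC

open MeasureTheory Set

namespace SUMM

theorem geoA (N : ℕ) : ∑ i ∈ Finset.range N, (6 : ℝ) / 4 ^ i ≤ 8 := by
  have h : ∀ N : ℕ, ∑ i ∈ Finset.range N, (6 : ℝ) / 4 ^ i = 8 - 8 / 4 ^ N := by
    intro N
    induction N with
    | zero => norm_num
    | succ N ih =>
      rw [Finset.sum_range_succ, ih, pow_succ]
      field_simp
      ring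
  rw [h N]
  have : (0 : ℝ) < 8 / 4 ^ N := by positivity
  linarith

theorem geoB (N : ℕ) : ∑ i ∈ Finset.range N, (i : ℝ) * (6 / 4 ^ i) ≤ 8 / 3 := by
  have h : ∀ N : ℕ, ∑ i ∈ Finset.range N, (i : ℝ) * (6 / 4 ^ i) =
      8 / 3 - (8 * N + 8 / 3) / 4 ^ N := by
    intro N
    induction N with
    | zero => norm_num
    | succ N ih =>
      rw [Finset.sum_range_succ, ih, pow_succ]
      push_cast
      field_simp
      ring
  rw [h N]
  have : (0 : ℝ) < (8 * N + 8 / 3) / 4 ^ N := by positivity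
  linarith

theorem sum_refl (k : ℕ) (f : ℕ → ℝ) :
    ∑ j ∈ Finset.range (k + 1), f (k - j) = ∑ i ∈ Finset.range (k + 1), f i := by
  have h := Finset.sum_range_reflect f (k + 1)
  rw [← h]
  exact Finset.sum_congr rfl fun j _ => by rw [Nat.add_sub_cancel]

theorem sum_shift (j n : ℕ) (f : ℕ → ℝ) :
    ∑ k ∈ Finset.Ico j n, f (k - j) = ∑ i ∈ Finset.range (n - j), f i := by
  rw [Finset.sum_Ico_eq_sum_range]
  exact Finset.sum_congr rfl fun i _ => by rw [Nat.add_sub_cancel_left]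

theorem tel (f : ℕ → ℂ) {j n : ℕ} (h : j ≤ n) :
    ∑ k ∈ Finset.Ico j n, (f (k + 1) - f k) = f n - f j := by
  induction n, h using Nat.le_induction with
  | base => simp
  | succ n hn ih =>
    rw [Finset.sum_Ico_succ_top hn, ih]
    ring

theorem av_sub (k : ℕ) {n : ℕ} (g h : Wd n → ℂ) (w : Wd n) :
    av k (fun v => g v - h v) w = av k g w - av k h w := by
  unfold av
  rw [Finset.sum_sub_distrib, sub_div]

theorem av_sum (k : ℕ) {n : ℕ} (s : Finset ℕ) (g : ℕ → Wd n → ℂ) (w : Wd n) :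
    av k (fun v => ∑ j ∈ s, g j v) w = ∑ j ∈ s, av k (g j) w := by
  unfold av
  rw [Finset.sum_comm, Finset.sum_div]

theorem Tj_sub (j : ℕ) {n : ℕ} (g h : Wd n → ℂ) (w : Wd n) :
    Tj j (fun v => g v - h v) w = Tj j g w - Tj j h w := by
  unfold Tj
  rw [← Finset.sum_sub_distrib]
  exact Finset.sum_congr rfl fun v _ => sub_div _ _ _

theorem Tj_const (j : ℕ) {n : ℕ} (h : Wd n → ℂ) (w : Wd n) (hh : ∀ v, agr j w v → h v = h w) :
    Tj j h w = h w * Tj j (fun _ => 1) w := by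
  unfold Tj
  rw [Finset.mul_sum]
  refine Finset.sum_congr rfl fun v hv => ?_
  simp only [Finset.mem_filter] at hv
  rw [hh v hv.2.1, mul_one_div]

theorem av_zero {n : ℕ} (g : Wd n → ℂ) (w : Wd n) : av 0 g w = (∑ v, g v) / 4 ^ n := by
  unfold av
  rw [Nat.sub_zero]
  congr 1
  refine Finset.sum_congr ?_ fun _ _ => rfl
  ext v
  simp [agr]

theorem m_eq (hK : Stmt_KER) (n k : ℕ) (hk : k < n) (w : Wd n) :
    av (k + 1) (T fun _ : Wd n => (1 : ℂ)) w - av k (T fun _ : Wd n => (1 : ℂ)) w =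
      ∑ j ∈ Finset.range (k + 1),
        (av (k + 1) (Tj j fun _ => 1) w - av k (Tj j fun _ => 1) w) := by
  obtain ⟨K1, K2, -, -⟩ := hK n
  have e : (T fun _ : Wd n => (1 : ℂ)) =
      fun v => ∑ j ∈ Finset.range n, Tj j (fun _ => 1) v := funext fun v => K1 _ v
  rw [e, av_sum, av_sum, ← Finset.sum_sub_distrib]
  symm
  refine Finset.sum_subset (Finset.range_subset_range.2 hk) fun j hj hj' => ?_
  rw [Finset.mem_range] at hj hj'
  rw [K2 (k + 1) j (by omega) hj w, K2 k j (by omega) hj w, sub_zero]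

theorem m_bd (hK : Stmt_KER) (n k : ℕ) (hk : k < n) (w : Wd n) :
    ‖av (k + 1) (T fun _ : Wd n => (1 : ℂ)) w - av k (T fun _ : Wd n => (1 : ℂ)) w‖ ≤ 8 := by
  rw [m_eq hK n k hk w]
  obtain ⟨-, -, K3, -⟩ := hK n
  refine (norm_sum_le _ _).trans ?_
  calc ∑ j ∈ Finset.range (k + 1),
        ‖av (k + 1) (Tj j fun _ => 1) w - av k (Tj j fun _ => 1) w‖
      ≤ ∑ j ∈ Finset.range (k + 1), (6 : ℝ) / 4 ^ (k - j) :=
        Finset.sum_le_sum fun j hj => K3 k j (by rw [Finset.mem_range] at hj; omega) hk w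
    _ = ∑ i ∈ Finset.range (k + 1), (6 : ℝ) / 4 ^ i := sum_refl k fun i => (6 : ℝ) / 4 ^ i
    _ ≤ 8 := geoA _

/-- The differences of a slowly varying sequence. -/
theorem step_bd (β : ℕ → ℝ) (n : ℕ) (ε : ℝ) (h : ∀ k < n, |β (k + 1) - β k| ≤ ε) {j k : ℕ}
    (hjk : j ≤ k) (hk : k ≤ n) : |β k - β j| ≤ ((k - j : ℕ) : ℝ) * ε := by
  induction k, hjk using Nat.le_induction with
  | base => simp
  | succ k hjk ih =>
    have h1 := ih (by omega)
    have h2 := h k (by omega)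
    have h3 : k + 1 - j = (k - j) + 1 := by omega
    have h4 : β (k + 1) - β j = (β (k + 1) - β k) + (β k - β j) := by ring
    rw [h3, h4]
    push_cast
    calc |(β (k + 1) - β k) + (β k - β j)| ≤ |β (k + 1) - β k| + |β k - β j| := abs_add_le _ _
      _ ≤ ε + ((k - j : ℕ) : ℝ) * ε := add_le_add h2 h1
      _ = (((k - j : ℕ) : ℝ) + 1) * ε := by ring

/-- The double sum with the weights `β j` instead of `β k`. -/
theorem exch (β : ℕ → ℝ) (n : ℕ) (ε : ℝ) (hε : 0 ≤ ε) (h : ∀ k < n, |β (k + 1) - β k| ≤ ε)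
    (d : ℕ → ℕ → ℂ) (hd : ∀ k j, j ≤ k → k < n → ‖d k j‖ ≤ 6 / 4 ^ (k - j)) :
    ‖∑ j ∈ Finset.range n, (β j : ℂ) * ∑ k ∈ Finset.Ico j n, d k j‖ ≤
      ‖∑ k ∈ Finset.range n, (β k : ℂ) * ∑ j ∈ Finset.range (k + 1), d k j‖ +
        n * (8 / 3 * ε) := by
  have e1 : ∑ j ∈ Finset.range n, (β j : ℂ) * ∑ k ∈ Finset.Ico j n, d k j =
      ∑ k ∈ Finset.range n, ∑ j ∈ Finset.range (k + 1), (β j : ℂ) * d k j := by
    rw [Finset.sum_congr rfl fun j _ => Finset.mul_sum _ _ _]
    rw [Finset.range_eq_Ico, Finset.sum_Ico_Ico_comm]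
    simp only [Finset.range_eq_Ico]
  have e2 : ∑ k ∈ Finset.range n, (β k : ℂ) * ∑ j ∈ Finset.range (k + 1), d k j =
      ∑ k ∈ Finset.range n, ∑ j ∈ Finset.range (k + 1), (β k : ℂ) * d k j :=
    Finset.sum_congr rfl fun j _ => Finset.mul_sum _ _ _
  have e3 : ∑ k ∈ Finset.range n, ∑ j ∈ Finset.range (k + 1), (β j : ℂ) * d k j =
      ∑ k ∈ Finset.range n, ∑ j ∈ Finset.range (k + 1), (β k : ℂ) * d k j -
      ∑ k ∈ Finset.range n, ∑ j ∈ Finset.range (k + 1), ((β k - β j : ℝ) : ℂ) * d k j := by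
    rw [← Finset.sum_sub_distrib]
    refine Finset.sum_congr rfl fun k _ => ?_
    rw [← Finset.sum_sub_distrib]
    refine Finset.sum_congr rfl fun j _ => ?_
    push_cast
    ring
  have h4 : ‖∑ k ∈ Finset.range n, ∑ j ∈ Finset.range (k + 1), ((β k - β j : ℝ) : ℂ) * d k j‖ ≤
      n * (8 / 3 * ε) := by
    refine (norm_sum_le _ _).trans ?_
    have h5 : ∀ k ∈ Finset.range n,
        ‖∑ j ∈ Finset.range (k + 1), ((β k - β j : ℝ) : ℂ) * d k j‖ ≤ 8 / 3 * ε := by
      intro k hk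
      rw [Finset.mem_range] at hk
      refine (norm_sum_le _ _).trans ?_
      calc ∑ j ∈ Finset.range (k + 1), ‖((β k - β j : ℝ) : ℂ) * d k j‖
          ≤ ∑ j ∈ Finset.range (k + 1), (((k - j : ℕ) : ℝ) * (6 / 4 ^ (k - j))) * ε := by
            refine Finset.sum_le_sum fun j hj => ?_
            have hj' : j ≤ k := by rw [Finset.mem_range] at hj; omega
            rw [norm_mul, Complex.norm_real, Real.norm_eq_abs]
            calc |β k - β j| * ‖d k j‖ ≤ (((k - j : ℕ) : ℝ) * ε) * (6 / 4 ^ (k - j)) :=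
                  mul_le_mul (step_bd β n ε h hj' hk.le) (hd k j hj' hk) (norm_nonneg _)
                    (by positivity)
              _ = (((k - j : ℕ) : ℝ) * (6 / 4 ^ (k - j))) * ε := by ring
        _ = (∑ i ∈ Finset.range (k + 1), (i : ℝ) * (6 / 4 ^ i)) * ε := by
            rw [← Finset.sum_mul, sum_refl k fun i => (i : ℝ) * (6 / 4 ^ i)]
        _ ≤ 8 / 3 * ε := mul_le_mul_of_nonneg_right (geoB _) hε
    calc ∑ k ∈ Finset.range n, ‖∑ j ∈ Finset.range (k + 1), ((β k - β j : ℝ) : ℂ) * d k j‖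
        ≤ ∑ _k ∈ Finset.range n, 8 / 3 * ε := Finset.sum_le_sum h5
      _ = n * (8 / 3 * ε) := by rw [Finset.sum_const, Finset.card_range, nsmul_eq_mul]
  rw [e1, e2, e3]
  exact (norm_sub_le _ _).trans (add_le_add le_rfl h4)

end SUMM

open SUMM in
theorem SUMM_thm : Stmt_AVP → Stmt_MAR → Stmt_KER → Stmt_SUMM := by
  intro hAVP hMAR hKER n hn
  obtain ⟨K1, K2, K3, K4⟩ := hKER n
  have hm1 : ∀ k < n, ∀ u v : Wd n, agr (k + 1) u v →
      av (k + 1) (T fun _ : Wd n => (1 : ℂ)) u - av k (T fun _ : Wd n => (1 : ℂ)) u =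
      av (k + 1) (T fun _ : Wd n => (1 : ℂ)) v - av k (T fun _ : Wd n => (1 : ℂ)) v := by
    intro k hk u v huv
    rw [(hAVP n (k + 1) hk).1 _ u v huv, (hAVP n k hk.le).1 _ u v (agr_mono (Nat.le_succ k) huv)]
  have hm2 : ∀ k < n, ∀ w : Wd n, av k (fun u =>
      av (k + 1) (T fun _ : Wd n => (1 : ℂ)) u - av k (T fun _ : Wd n => (1 : ℂ)) u) w = 0 := by
    intro k hk w
    rw [av_sub, (hAVP n k hk.le).2.2.1 _ (k + 1) w (Nat.le_succ k) hk,
      (hAVP n k hk.le).2.2.1 _ k w le_rfl hk.le, sub_self]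
  obtain ⟨β, hβ0, hβagr, hβ01, hβs, hβav, hβm⟩ := hMAR n 8
    (fun k u => av (k + 1) (T fun _ : Wd n => (1 : ℂ)) u - av k (T fun _ : Wd n => (1 : ℂ)) u)
    hn (by norm_num) hm1 hm2 (fun k hk w => m_bd hKER n k hk w)
  have hn0 : (0 : ℝ) < n := by exact_mod_cast hn
  have hsq : (0 : ℝ) < √(n : ℝ) := Real.sqrt_pos.2 hn0
  have hnn : (n : ℝ) * (1 / √(n : ℝ)) = √(n : ℝ) := by
    rw [mul_one_div, div_eq_iff hsq.ne', Real.mul_self_sqrt hn0.le]
  have hε : (0 : ℝ) ≤ 1 / √(n : ℝ) := by positivity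
  refine ⟨β n, fun w => hβ01 n le_rfl w, ?_, ?_⟩
  · -- the sum
    have hs : ∀ k ≤ n, ∑ w, (β k w : ℂ) = 4 ^ n / 2 := by
      intro k
      induction k with
      | zero =>
        intro _
        rw [Finset.sum_congr rfl fun w _ => by rw [hβ0 w], Finset.sum_const, Finset.card_univ,
          card_Wd, nsmul_eq_mul]
        push_cast
        ring
      | succ k ih =>
        intro hk
        have h1 := ih (by omega)
        have h2 : ∑ w, ((β (k + 1) w - β k w : ℝ) : ℂ) = 0 := by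
          have w0 : Wd n := fun _ => (true, true)
          have h3 := (hAVP n 0 (Nat.zero_le n)).2.2.1
            (fun v => ((β (k + 1) v - β k v : ℝ) : ℂ)) k w0 (Nat.zero_le k) (by omega)
          have h4 : av k (fun v : Wd n => ((β (k + 1) v - β k v : ℝ) : ℂ)) = fun _ => 0 :=
            funext fun w => hβav k hk w
          rw [h4, av_zero, av_zero, Finset.sum_const_zero, zero_div, eq_comm,
            div_eq_zero_iff] at h3
          rcases h3 with h3 | h3
          · exact h3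
          · exact absurd h3 (pow_ne_zero _ (by norm_num))
        have h5 : ∑ w, (β (k + 1) w : ℂ) = ∑ w, (β k w : ℂ) +
            ∑ w, ((β (k + 1) w - β k w : ℝ) : ℂ) := by
          rw [← Finset.sum_add_distrib]
          refine Finset.sum_congr rfl fun w _ => ?_
          push_cast
          ring
        rw [h5, h2, add_zero, h1]
    have h := hs n le_rfl
    have h' : ((∑ w, β n w : ℝ) : ℂ) = ((4 ^ n / 2 : ℝ) : ℂ) := by
      push_cast
      exact h
    exact_mod_cast h'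
  · -- the transform
    intro w
    have hT : T (fun v => (β n v : ℂ)) w = ∑ j ∈ Finset.range n,
        ((β j w : ℂ) * ∑ k ∈ Finset.Ico j n,
          (av (k + 1) (Tj j fun _ => 1) w - av k (Tj j fun _ => 1) w) +
        ∑ k ∈ Finset.Ico j n, Tj j (fun v => ((β (k + 1) v - β k v : ℝ) : ℂ)) w) := by
      rw [K1]
      refine Finset.sum_congr rfl fun j hj => ?_
      have hj' : j < n := Finset.mem_range.1 hj
      rw [tel (fun k => av k (Tj j fun _ => 1) w) hj'.le]
      have h1 : av n (Tj j fun _ : Wd n => (1 : ℂ)) w = Tj j (fun _ => 1) w :=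
        (hAVP n n le_rfl).2.1 _ w w rfl
      have h2 := K2 j j le_rfl hj' w
      have h3 := tel (fun k => Tj j (fun v => (β k v : ℂ)) w) hj'.le
      have h4 : ∀ k, Tj j (fun v => ((β (k + 1) v - β k v : ℝ) : ℂ)) w =
          Tj j (fun v => (β (k + 1) v : ℂ)) w - Tj j (fun v => (β k v : ℂ)) w := by
        intro k
        rw [← Tj_sub]
        simp only [Complex.ofReal_sub]
      rw [Finset.sum_congr rfl fun k _ => h4 k, h3, h1, h2, sub_zero]
      have h5 := Tj_const j (fun v => (β j v : ℂ)) w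
        (fun v hv => by rw [hβagr j hj'.le v w (agr_symm hv)])
      rw [← h5]
      ring
    have hE : ‖∑ j ∈ Finset.range n, ∑ k ∈ Finset.Ico j n,
        Tj j (fun v => ((β (k + 1) v - β k v : ℝ) : ℂ)) w‖ ≤ 8 * √(n : ℝ) := by
      refine (norm_sum_le _ _).trans ?_
      have h1 : ∀ j ∈ Finset.range n, ‖∑ k ∈ Finset.Ico j n,
          Tj j (fun v => ((β (k + 1) v - β k v : ℝ) : ℂ)) w‖ ≤ 8 * (1 / √(n : ℝ)) := by
        intro j hj
        refine (norm_sum_le _ _).trans ?_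
        calc ∑ k ∈ Finset.Ico j n, ‖Tj j (fun v => ((β (k + 1) v - β k v : ℝ) : ℂ)) w‖
            ≤ ∑ k ∈ Finset.Ico j n, (6 / 4 ^ (k - j)) * (1 / √(n : ℝ)) := by
              refine Finset.sum_le_sum fun k hk => ?_
              rw [Finset.mem_Ico] at hk
              have h := K4 k j hk.1 hk.2 (fun v => ((β (k + 1) v - β k v : ℝ) : ℂ))
                (1 / √(n : ℝ)) (fun v => by
                  rw [Complex.norm_real, Real.norm_eq_abs]; exact hβs k hk.2 v)
                (fun v => hβav k hk.2 v) w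
              refine h.trans (le_of_eq ?_)
              ring
          _ = (∑ i ∈ Finset.range (n - j), (6 : ℝ) / 4 ^ i) * (1 / √(n : ℝ)) := by
              rw [← Finset.sum_mul, sum_shift j n fun i => (6 : ℝ) / 4 ^ i]
          _ ≤ 8 * (1 / √(n : ℝ)) := mul_le_mul_of_nonneg_right (geoA _) hε
      calc ∑ j ∈ Finset.range n, ‖∑ k ∈ Finset.Ico j n,
            Tj j (fun v => ((β (k + 1) v - β k v : ℝ) : ℂ)) w‖
          ≤ ∑ _j ∈ Finset.range n, 8 * (1 / √(n : ℝ)) := Finset.sum_le_sum h1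
        _ = 8 * (n * (1 / √(n : ℝ))) := by
            rw [Finset.sum_const, Finset.card_range, nsmul_eq_mul]
            ring
        _ = 8 * √(n : ℝ) := by rw [hnn]
    have hX := exch (fun k => β k w) n (1 / √(n : ℝ)) hε (fun k hk => hβs k hk w)
      (fun k j => av (k + 1) (Tj j fun _ => 1) w - av k (Tj j fun _ => 1) w)
      (fun k j hjk hk => K3 k j hjk hk w)
    have hM : ‖∑ k ∈ Finset.range n, (β k w : ℂ) * ∑ j ∈ Finset.range (k + 1),
        (av (k + 1) (Tj j fun _ => 1) w - av k (Tj j fun _ => 1) w)‖ ≤ 2 * 8 * √(n : ℝ) := by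
      have h := hβm w
      rw [Finset.sum_congr rfl fun k hk => by rw [m_eq hKER n k (Finset.mem_range.1 hk) w]] at h
      exact h
    have hB : (n : ℝ) * (8 / 3 * (1 / √(n : ℝ))) = 8 / 3 * √(n : ℝ) := by
      rw [mul_left_comm, hnn]
    rw [hB] at hX
    rw [hT, Finset.sum_add_distrib]
    refine (norm_add_le _ _).trans ?_
    linarith

end Pool.Agent.FCC
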