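import Pool.Agent.FCC.Basic

/-!
# Four corner Cantor sets: statements
-/

namespace Pool.Agent.FCC

open MeasureTheory Set

/-- SAL: positive definiteness. -/
def Stmt_SAL : Prop := ∀ (a b : ℕ) (t : ℝ), a ≤ b →
  1 / 2 / 4 ^ (b - a) ≤ ∫ x in (0 : ℝ)..1, Q a b x * Q a b (t * x)

/-- FOU: the second moment bounds the energy of the Fourier transform. -/
def Stmt_FOU : Prop := ∀ (N : ℕ) (t : ℝ), 0 ≤ t → t ≤ 1 →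
  ∫ z in (0 : ℝ)..4 ^ N, Psi N z * Psi N (t * z) ≤ 128 * S N t

/-- BLK: energy in blocks. -/
def Stmt_BLK : Prop := ∀ (N : ℕ) (t : ℝ), 0 ≤ t → t ≤ 1 →
  (∀ m ≤ N, 4 ^ m * ∫ x in (0 : ℝ)..1, Q 0 m x * Q 0 m (t * x) ≤ 256 * S N t) ∧
  (∀ l R : ℕ, 1 ≤ l → R * l ≤ N →
    ∑ r ∈ Finset.Icc 1 R, 4 ^ (r * l) *
      ∫ x in (1 / 4 ^ l : ℝ)..1, Q 0 (r * l) x * Q 0 (r * l) (t * x) ≤ 256 * S N t)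

/-- TRA: the transfer inequality. -/
def Stmt_TRA : Prop := ∀ (q : ℝ) (l m : ℕ), 0 < q → q < 1 / 4 → l ≤ m →
  ∫⁻ x in Icc 0 Real.pi, wt q l m x ≤ ENNReal.ofReal (8 ^ (q * l)) *
    ∫⁻ x in Icc 0 Real.pi,
      ENNReal.ofReal (Q 0 (m - l) x) * (ENNReal.ofReal |Real.sin x|) ^ (-(2 * q))

/-- SIN: the negative moment of the sine. -/
def Stmt_SIN : Prop := ∀ q : ℝ, 0 < q → q < 1 / 4 → ∃ C : ℝ, 0 < C ∧ ∀ r : ℕ,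
  ∫⁻ x in Icc 0 Real.pi,
    ENNReal.ofReal (Q 0 r x) * (ENNReal.ofReal |Real.sin x|) ^ (-(2 * q)) ≤
      ENNReal.ofReal (C / 2 ^ r)

/-- AVG: the average over the directions. -/
def Stmt_AVG : Prop := ∀ q : ℝ, 0 < q → q < 1 / 4 → ∃ C : ℝ, 0 < C ∧ ∀ l m : ℕ, l ≤ m →
  ∫⁻ t in Icc (1 / 4 : ℝ) 1, ∫⁻ x in Icc (1 / 4 ^ l : ℝ) 1, wt q l m x * wt q l m (t * x) ≤
    ENNReal.ofReal (C * 64 ^ (q * l) / 4 ^ (m - l))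

/-- TAIL: directions with small second moment are rare. -/
def Stmt_TAIL : Prop := ∀ q : ℝ, 0 < q → q < 1 / 4 → ∃ C : ℝ, 0 < C ∧ ∀ k N : ℕ, 1 ≤ N →
  (volume {t : ℝ | t ∈ Icc (1 / 4 : ℝ) 1 ∧ S N t ≤ 4 * 4 ^ k}).toReal ≤
    C * (64 ^ k * (k + 1) / N) ^ q

/-- STOP: stopping intervals. -/
def Stmt_STOP : Prop := ∀ (N K : ℕ) (t : ℝ), 0 ≤ t → t ≤ 1 → 2 ≤ K → 4 * K < S N t →
  1 / (32 * (K : ℝ) ^ 2) ≤ (volume (A t N K)).toReal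

/-- VIT: a disjoint subfamily. -/
def Stmt_VIT : Prop := ∀ (N K : ℕ) (t : ℝ), 0 ≤ t → t ≤ 1 → 1 ≤ K →
  ∃ B : Finset (ℕ × ℤ), (∀ b ∈ B, b.1 ≤ N ∧ K ≤ cnt t b.1 b.2) ∧
    (B : Set (ℕ × ℤ)).PairwiseDisjoint Jst ∧
    (volume (A t N K)).toReal ≤ 20 * ∑ b ∈ B, (1 : ℝ) / 4 ^ b.1

/-- REC: the recursion for the length of the projection. -/
def Stmt_REC : Prop := ∀ (N K : ℕ) (t : ℝ) (B : Finset (ℕ × ℤ)), 0 ≤ t → t ≤ 1 →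
  (∀ b ∈ B, b.1 ≤ N ∧ K ≤ cnt t b.1 b.2) → (B : Set (ℕ × ℤ)).PairwiseDisjoint Jst →
  ∃ η : ℝ, K * ∑ b ∈ B, (1 : ℝ) / 4 ^ b.1 ≤ η ∧ η ≤ 1 ∧
    ∀ M : ℕ, L (N + M) t ≤ 5 * (∑ b ∈ B, (1 : ℝ) / 4 ^ b.1) + (1 - η) * L M t

/-- DICH: a large second moment makes the projections of later generations short. -/
def Stmt_DICH : Prop := ∀ (N K : ℕ) (t : ℝ), 0 ≤ t → t ≤ 1 → 2 ≤ K → 4 * K < S N t →
  ∀ n : ℕ, N * (640 * K * Real.log K + 1) ≤ n → L n t ≤ 7 / K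

/-- INT: the average length of the projections in the main range. -/
def Stmt_INT : Prop := ∀ q : ℝ, 0 < q → q < 1 / 4 → ∃ C : ℝ, 0 < C ∧ ∀ n : ℕ, 1 ≤ n →
  ∫ t in (1 / 4 : ℝ)..1, L n t ≤ C * (n : ℝ) ^ (-q)

/-- SCL: scaling of the direction. -/
def Stmt_SCL : Prop := ∀ (n k : ℕ) (s : ℝ), 0 ≤ s → s ≤ 1 → k ≤ n →
  L n (s / 4 ^ k) ≤ L (n - k) s / 2 ^ k

/-- RED: the average length of the projections. -/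
def Stmt_RED : Prop := ∀ q : ℝ, 0 < q → q < 1 / 4 → ∃ C : ℝ, 0 < C ∧ ∀ n : ℕ, 1 ≤ n →
  ∫ t in (0 : ℝ)..1, L n t ≤ C * (n : ℝ) ^ (-q)

/-- GEO: the sets and their squares. -/
def Stmt_GEO : Prop := ∀ n : ℕ,
  (E n = ⋃ w : Wd n, {z : ℂ | z.re ∈ Icc (px w) (px w + 1 / 4 ^ n) ∧
    z.im ∈ Icc (py w) (py w + 1 / 4 ^ n)}) ∧
  (∀ x, x ∈ cset n ↔ 1 - x ∈ cset n) ∧ IsCompact (cset n) ∧ IsCompact (E n) ∧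
  (∀ t, 0 ≤ t → P n t = {u | ∃ x ∈ cset n, ∃ y ∈ cset n, u = x + t * y})

/-- FAVL: the Favard length in terms of the main range. -/
def Stmt_FAVL : Prop := ∀ n : ℕ, Fav (E n) ≤ 4 * ∫ t in (0 : ℝ)..1, L n t

/-- DIST: distances of the centres. -/
def Stmt_DIST : Prop := ∀ (n j : ℕ) (v w : Wd n),
  (agr j v w → ‖cc v - cc w‖ ≤ √2 / 4 ^ j) ∧
  (¬ agr (j + 1) v w → 1 / (2 * 4 ^ j) ≤ ‖cc v - cc w‖)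

/-- AVP: properties of the averages. -/
def Stmt_AVP : Prop := ∀ (n k : ℕ), k ≤ n →
  (∀ (g : Wd n → ℂ) (v w : Wd n), agr k v w → av k g v = av k g w) ∧
  (∀ (g : Wd n → ℂ) (v w : Wd n), k = n → av k g w = g w) ∧
  (∀ (g : Wd n → ℂ) (l : ℕ) (w : Wd n), k ≤ l → l ≤ n → av k (av l g) w = av k g w) ∧
  (∀ (g : Wd n → ℂ) (l : ℕ) (w : Wd n), k ≤ l → l ≤ n → av l (av k g) w = av k g w) ∧
  (∀ (g h : Wd n → ℂ) (w : Wd n), (∀ u v, agr k u v → h u = h v) →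
    av k (fun v => h v * g v) w = h w * av k g w) ∧
  (∀ (g : Wd n → ℂ) (w : Wd n) (z : ℂ) (r : ℝ), (∀ v, agr k w v → ‖g v - z‖ ≤ r) →
    ‖av k g w - z‖ ≤ r) ∧
  (∀ (g h : Wd n → ℂ) (w : Wd n), av k (fun v => g v + h v) w = av k g w + av k h w) ∧
  (∀ (g : Wd n → ℂ) (w : Wd n), av k (fun v => ((g v).re : ℂ)) w = ((av k g w).re : ℂ))

/-- MAR: the change of measure. -/
def Stmt_MAR : Prop := ∀ (n : ℕ) (M : ℝ) (m : ℕ → Wd n → ℂ), 1 ≤ n → 0 < M →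
  (∀ k < n, ∀ u v : Wd n, agr (k + 1) u v → m k u = m k v) →
  (∀ k < n, ∀ w : Wd n, av k (m k) w = 0) →
  (∀ k < n, ∀ w : Wd n, ‖m k w‖ ≤ M) →
  ∃ β : ℕ → Wd n → ℝ, (∀ w, β 0 w = 1 / 2) ∧
    (∀ k ≤ n, ∀ u v : Wd n, agr k u v → β k u = β k v) ∧
    (∀ k ≤ n, ∀ w, 0 ≤ β k w ∧ β k w ≤ 1) ∧
    (∀ k < n, ∀ w, |β (k + 1) w - β k w| ≤ 1 / √n) ∧
    (∀ k < n, ∀ w, av k (fun v => ((β (k + 1) v - β k v : ℝ) : ℂ)) w = 0) ∧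
    (∀ w, ‖∑ k ∈ Finset.range n, (β k w : ℂ) * m k w‖ ≤ 2 * M * √n)

/-- KER: the kernel estimates. -/
def Stmt_KER : Prop := ∀ n : ℕ,
  (∀ (g : Wd n → ℂ) (w : Wd n), T g w = ∑ j ∈ Finset.range n, Tj j g w) ∧
  (∀ k j : ℕ, k ≤ j → j < n → ∀ w : Wd n, av k (Tj j fun _ => 1) w = 0) ∧
  (∀ k j : ℕ, j ≤ k → k < n → ∀ w : Wd n,
    ‖av (k + 1) (Tj j fun _ => 1) w - av k (Tj j fun _ => 1) w‖ ≤ 6 / 4 ^ (k - j)) ∧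
  (∀ k j : ℕ, j ≤ k → k < n → ∀ (δ : Wd n → ℂ) (ε : ℝ), (∀ v, ‖δ v‖ ≤ ε) →
    (∀ v, av k δ v = 0) → ∀ w : Wd n, ‖Tj j δ w‖ ≤ 6 * ε / 4 ^ (k - j))

/-- SUMM: a density with bounded discrete Cauchy transform. -/
def Stmt_SUMM : Prop := ∀ n : ℕ, 1 ≤ n → ∃ b : Wd n → ℝ, (∀ w, 0 ≤ b w ∧ b w ≤ 1) ∧
  ∑ w, b w = 4 ^ n / 2 ∧ ∀ w, ‖T (fun v => (b v : ℂ)) w‖ ≤ 27 * √n

/-- MAXP: the maximum principle. -/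
def Stmt_MAXP : Prop := ∀ (K : Set ℂ) (ι : Type) [Fintype ι] (a c : ι → ℂ) (Λ : ℝ),
  IsCompact K → 0 < Λ → (∀ i, c i ∈ interior K) →
  (∀ z ∈ frontier K, ‖∑ i, a i / (z - c i)‖ ≤ Λ) → ‖∑ i, a i‖ / Λ ≤ gam K

/-- CAP: the analytic capacity of the `n`-th generation. -/
def Stmt_CAP : Prop := ∀ n : ℕ, 1 ≤ n → 1 / (62 * √n) ≤ gam (E n)

/-- MAIN: the theorem. -/
def Stmt_MAIN : Prop :=
  (∀ q : ℝ, 0 < q → q < 1 / 4 → ∃ C : ℝ, 0 < C ∧ ∀ n : ℕ, 1 ≤ n →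
    Fav (E n) ≤ C * (n : ℝ) ^ (-q)) ∧
  (∃ c : ℝ, 0 < c ∧ ∀ n : ℕ, 1 ≤ n → c / √n ≤ gam (E n)) ∧
  (∀ ε : ℝ, 0 < ε → ∃ c : ℝ, 0 < c ∧ ∀ n : ℕ, 1 ≤ n →
    c * Fav (E n) ^ (2 + ε) ≤ gam (E n))

end Pool.Agent.FCC
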