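import Pool.Agent.FCC.Stmts

/-!
# TAIL: directions with small second moment are rare
-/

namespace Pool.Agent.FCC

open MeasureTheory Set

namespace TAIL

theorem Q_nonneg (a b : ℕ) (x : ℝ) : 0 ≤ Q a b x :=
  Finset.prod_nonneg fun _ _ => sq_nonneg _

theorem continuous_Q (a b : ℕ) : Continuous (Q a b) := by
  unfold Q
  fun_prop

theorem Q_split {a b c : ℕ} (hab : a ≤ b) (hbc : b ≤ c) (x : ℝ) :
    Q a c x = Q a b x * Q b c x := by
  unfold Q
  exact (Finset.prod_Ico_consecutive _ hab hbc).symm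

theorem Q_scale (l m : ℕ) (y : ℝ) : Q l m ((1 / 4 ^ l : ℝ) * y) = Q 0 (m - l) y := by
  unfold Q
  rw [Finset.prod_Ico_eq_prod_range, Finset.prod_Ico_eq_prod_range]
  refine Finset.prod_congr (by rw [Nat.sub_zero]) fun i _ => ?_
  congr 2
  rw [pow_add, Nat.zero_add]
  have : (4 : ℝ) ^ l ≠ 0 := by positivity
  field_simp

theorem continuous_QQ (a b c d : ℕ) (t : ℝ) : Continuous fun x => Q a b x * Q c d (t * x) :=
  (continuous_Q a b).mul ((continuous_Q c d).comp (continuous_const.mul continuous_id))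

theorem measurable_wt (q : ℝ) (l m : ℕ) : Measurable (wt q l m) := by
  unfold wt
  exact ((continuous_Q l m).measurable.ennreal_ofReal).mul
    (((continuous_Q 0 l).measurable.ennreal_ofReal).pow_const _)

/-- The initial piece of the integral. -/
theorem initial (l m : ℕ) (t : ℝ) :
    ∫ x in (0 : ℝ)..(1 / 4 ^ l), Q l m x * Q l m (t * x) =
      (1 / 4 ^ l) * ∫ y in (0 : ℝ)..1, Q 0 (m - l) y * Q 0 (m - l) (t * y) := by
  have h := intervalIntegral.mul_integral_comp_mul_left (a := 0) (b := 1)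
    (f := fun x => Q l m x * Q l m (t * x)) (1 / 4 ^ l : ℝ)
  rw [mul_zero, mul_one] at h
  rw [← h]
  congr 1
  refine intervalIntegral.integral_congr fun y _ => ?_
  show Q l m ((1 / 4 ^ l : ℝ) * y) * Q l m (t * ((1 / 4 ^ l : ℝ) * y)) = _
  rw [show t * ((1 / 4 ^ l : ℝ) * y) = (1 / 4 ^ l : ℝ) * (t * y) by ring, Q_scale, Q_scale]

/-- The mass of the block. -/
theorem mass (hS : Stmt_SAL) (hB : Stmt_BLK) {k l m N : ℕ} {t : ℝ} (ht0 : 0 ≤ t) (ht1 : t ≤ 1)
    (hl : l = k + 6) (hlm : l ≤ m) (hm : m ≤ N) (hs : S N t ≤ 4 * 4 ^ k) :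
    4 ^ l / 4 ≤ 4 ^ m * ∫ x in (1 / 4 ^ l : ℝ)..1, Q l m x * Q l m (t * x) := by
  have h1 := hS l m t hlm
  have h2 := (hB N t ht0 ht1).1 (m - l) (by omega)
  have h3 : (∫ x in (0 : ℝ)..1, Q l m x * Q l m (t * x)) =
      (∫ x in (0 : ℝ)..(1 / 4 ^ l), Q l m x * Q l m (t * x)) +
        ∫ x in (1 / 4 ^ l : ℝ)..1, Q l m x * Q l m (t * x) :=
    (intervalIntegral.integral_add_adjacent_intervals
      ((continuous_QQ l m l m t).intervalIntegrable _ _)
      ((continuous_QQ l m l m t).intervalIntegrable _ _)).symm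
  rw [h3, initial] at h1
  obtain ⟨d, rfl⟩ := Nat.exists_eq_add_of_le hlm
  rw [Nat.add_sub_cancel_left] at h1 h2
  set I0 := ∫ y in (0 : ℝ)..1, Q 0 d y * Q 0 d (t * y) with hI0
  set I1 := ∫ x in (1 / 4 ^ l : ℝ)..1, Q l (l + d) x * Q l (l + d) (t * x) with hI1
  have h4 : 4 ^ d * I0 ≤ 4 ^ l / 4 := by
    refine h2.trans ?_
    rw [hl, pow_add]
    have : (256 : ℝ) * S N t ≤ 256 * (4 * 4 ^ k) := by linarith
    refine this.trans (le_of_eq ?_)
    ring
  have hl4 : (0 : ℝ) < 4 ^ l := by positivity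
  have hd4 : (0 : ℝ) < 4 ^ d := by positivity
  have h5 : (4 : ℝ) ^ (l + d) * (1 / 2 / 4 ^ d) ≤ 4 ^ (l + d) * (1 / 4 ^ l * I0 + I1) :=
    mul_le_mul_of_nonneg_left h1 (by positivity)
  have h6 : (4 : ℝ) ^ (l + d) * (1 / 2 / 4 ^ d) = 4 ^ l / 2 := by
    rw [pow_add]; field_simp
  have h7 : (4 : ℝ) ^ (l + d) * (1 / 4 ^ l * I0 + I1) = 4 ^ d * I0 + 4 ^ (l + d) * I1 := by
    rw [pow_add]; field_simp
  rw [h6, h7] at h5
  linarith

/-- The elementary inequality. -/
theorem elem {q δ : ℝ} (hq : 0 < q) (hδ : 0 < δ) (u : ℝ) (hu : 0 ≤ u) :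
    1 ≤ ENNReal.ofReal (u / δ) + ENNReal.ofReal (δ ^ q) * (ENNReal.ofReal u) ^ (-q) := by
  rcases le_or_gt δ u with h | h
  · have : (1 : ENNReal) ≤ ENNReal.ofReal (u / δ) := by
      rw [← ENNReal.ofReal_one]
      exact ENNReal.ofReal_le_ofReal ((one_le_div hδ).2 h)
    exact this.trans le_self_add
  · refine le_trans ?_ le_add_self
    rcases hu.eq_or_lt with h0 | h0
    · rw [← h0, ENNReal.ofReal_zero, ENNReal.zero_rpow_of_neg (by linarith), ENNReal.mul_top]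
      · exact le_top
      · exact (ENNReal.ofReal_pos.2 (Real.rpow_pos_of_pos hδ q)).ne'
    · rw [ENNReal.ofReal_rpow_of_pos h0, ← ENNReal.ofReal_mul (by positivity), ← ENNReal.ofReal_one]
      apply ENNReal.ofReal_le_ofReal
      rw [Real.rpow_neg h0.le, ← div_eq_mul_inv, ← Real.div_rpow hδ.le h0.le]
      exact Real.one_le_rpow ((one_le_div h0).2 h.le) hq.le

/-- The pointwise inequality. -/
theorem pointwise {q δ : ℝ} (hq : 0 < q) (hδ : 0 < δ) {l m : ℕ} (hlm : l ≤ m) (x y : ℝ) :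
    ENNReal.ofReal (Q l m x * Q l m y) ≤ ENNReal.ofReal (1 / δ * (Q 0 m x * Q 0 m y)) +
      ENNReal.ofReal (δ ^ q) * (wt q l m x * wt q l m y) := by
  have h1 := elem hq hδ (Q 0 l x * Q 0 l y) (mul_nonneg (Q_nonneg _ _ _) (Q_nonneg _ _ _))
  have h2 := mul_le_mul_right h1 (ENNReal.ofReal (Q l m x * Q l m y))
  rw [mul_one] at h2
  refine h2.trans (le_of_eq ?_)
  rw [mul_add]
  congr 1
  · rw [← ENNReal.ofReal_mul (mul_nonneg (Q_nonneg _ _ _) (Q_nonneg _ _ _)),
      Q_split (Nat.zero_le l) hlm x, Q_split (Nat.zero_le l) hlm y]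
    congr 1
    ring
  · unfold wt
    rw [ENNReal.ofReal_mul (Q_nonneg 0 l x), ENNReal.mul_rpow_of_ne_top ENNReal.ofReal_ne_top
      ENNReal.ofReal_ne_top, ENNReal.ofReal_mul (Q_nonneg l m x)]
    ring

theorem ofReal_int (a b c d l : ℕ) (t r : ℝ) (hr : 0 ≤ r) :
    ENNReal.ofReal (r * ∫ x in (1 / 4 ^ l : ℝ)..1, Q a b x * Q c d (t * x)) =
      ENNReal.ofReal r * ∫⁻ x in Icc (1 / 4 ^ l : ℝ) 1, ENNReal.ofReal (Q a b x * Q c d (t * x)) := by
  have hl : (1 / 4 ^ l : ℝ) ≤ 1 := by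
    rw [div_le_one (by positivity)]
    exact one_le_pow₀ (by norm_num)
  rw [ENNReal.ofReal_mul hr, intervalIntegral.integral_of_le hl, ← integral_Icc_eq_integral_Ioc,
    ofReal_integral_eq_lintegral_ofReal]
  · exact ((continuous_QQ a b c d t).continuousOn.integrableOn_Icc)
  · exact Filter.Eventually.of_forall fun x => mul_nonneg (Q_nonneg _ _ _) (Q_nonneg _ _ _)

/-- The weighted integral. -/
noncomputable def J (q : ℝ) (l m : ℕ) (t : ℝ) : ENNReal :=
  ENNReal.ofReal (4 ^ m) * ∫⁻ x in Icc (1 / 4 ^ l : ℝ) 1, wt q l m x * wt q l m (t * x)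

theorem measurable_J (q : ℝ) (l m : ℕ) : Measurable (J q l m) := by
  unfold J
  refine Measurable.const_mul ?_ _
  refine Measurable.lintegral_prod_right'
    (f := fun p : ℝ × ℝ => wt q l m p.2 * wt q l m (p.1 * p.2)) ?_
  exact ((measurable_wt q l m).comp measurable_snd).mul
    ((measurable_wt q l m).comp (measurable_fst.mul measurable_snd))

/-- One block. -/
theorem block {q δ : ℝ} (hq : 0 < q) (hδ : 0 < δ) {l m : ℕ} (hlm : l ≤ m) (t : ℝ) :
    ENNReal.ofReal (4 ^ m * ∫ x in (1 / 4 ^ l : ℝ)..1, Q l m x * Q l m (t * x)) ≤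
      ENNReal.ofReal (1 / δ * (4 ^ m * ∫ x in (1 / 4 ^ l : ℝ)..1, Q 0 m x * Q 0 m (t * x))) +
        ENNReal.ofReal (δ ^ q) * J q l m t := by
  have h4 : (0 : ℝ) ≤ 4 ^ m := by positivity
  have e1 : (1 / δ * (4 ^ m * ∫ x in (1 / 4 ^ l : ℝ)..1, Q 0 m x * Q 0 m (t * x))) =
      (4 ^ m * (1 / δ)) * ∫ x in (1 / 4 ^ l : ℝ)..1, Q 0 m x * Q 0 m (t * x) := by ring
  rw [e1, ofReal_int _ _ _ _ _ _ _ h4, ofReal_int _ _ _ _ _ _ _ (by positivity)]
  unfold J
  have hm : Measurable fun x : ℝ => ENNReal.ofReal (1 / δ * (Q 0 m x * Q 0 m (t * x))) :=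
    ((continuous_const.mul (continuous_QQ 0 m 0 m t)).measurable).ennreal_ofReal
  have hm2 : Measurable fun x : ℝ => ENNReal.ofReal (Q 0 m x * Q 0 m (t * x)) :=
    ((continuous_QQ 0 m 0 m t).measurable).ennreal_ofReal
  have hm3 : Measurable fun x : ℝ => wt q l m x * wt q l m (t * x) :=
    (measurable_wt q l m).mul ((measurable_wt q l m).comp (measurable_const.mul measurable_id))
  have h1 : ∫⁻ x in Icc (1 / 4 ^ l : ℝ) 1, ENNReal.ofReal (Q l m x * Q l m (t * x)) ≤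
      ∫⁻ x in Icc (1 / 4 ^ l : ℝ) 1, (ENNReal.ofReal (1 / δ * (Q 0 m x * Q 0 m (t * x))) +
        ENNReal.ofReal (δ ^ q) * (wt q l m x * wt q l m (t * x))) :=
    lintegral_mono fun x => pointwise hq hδ hlm x (t * x)
  rw [lintegral_add_left hm, lintegral_const_mul _ hm3] at h1
  have h2 : ∫⁻ x in Icc (1 / 4 ^ l : ℝ) 1, ENNReal.ofReal (1 / δ * (Q 0 m x * Q 0 m (t * x))) =
      ENNReal.ofReal (1 / δ) * ∫⁻ x in Icc (1 / 4 ^ l : ℝ) 1,
        ENNReal.ofReal (Q 0 m x * Q 0 m (t * x)) := by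
    rw [← lintegral_const_mul _ hm2]
    refine lintegral_congr fun x => ?_
    rw [ENNReal.ofReal_mul (by positivity)]
  rw [h2] at h1
  have h3 := mul_le_mul_right h1 (ENNReal.ofReal (4 ^ m))
  refine h3.trans (le_of_eq ?_)
  rw [ENNReal.ofReal_mul h4, mul_add]
  ring

/-- The inequality for a bad direction. -/
theorem bad (hS : Stmt_SAL) (hB : Stmt_BLK) {q : ℝ} (hq : 0 < q) {k l N R : ℕ} {t : ℝ}
    (ht0 : 0 ≤ t) (ht1 : t ≤ 1) (hl : l = k + 6) (hR : 1 ≤ R) (hRl : R * l ≤ N)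
    (hs : S N t ≤ 4 * 4 ^ k) :
    ENNReal.ofReal (R * 4 ^ l / 8) ≤
      ENNReal.ofReal ((2 / R : ℝ) ^ q) * ∑ r ∈ Finset.Icc 1 R, J q l (r * l) t := by
  have hR0 : (0 : ℝ) < R := by exact_mod_cast hR
  have hδ : (0 : ℝ) < 2 / R := by positivity
  have h2 := (hB N t ht0 ht1).2 l R (by omega) hRl
  have hlr : ∀ r ∈ Finset.Icc 1 R, l ≤ r * l ∧ r * l ≤ N := by
    intro r hr
    rw [Finset.mem_Icc] at hr
    refine ⟨Nat.le_mul_of_pos_left l (by omega), le_trans (Nat.mul_le_mul_right l hr.2) hRl⟩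
  have h3 : ∑ r ∈ Finset.Icc 1 R, ENNReal.ofReal (4 ^ l / 4) ≤
      ∑ r ∈ Finset.Icc 1 R, (ENNReal.ofReal (1 / (2 / R) * (4 ^ (r * l) *
        ∫ x in (1 / 4 ^ l : ℝ)..1, Q 0 (r * l) x * Q 0 (r * l) (t * x))) +
          ENNReal.ofReal ((2 / R : ℝ) ^ q) * J q l (r * l) t) := by
    refine Finset.sum_le_sum fun r hr => ?_
    refine le_trans (ENNReal.ofReal_le_ofReal ?_) (block hq hδ (hlr r hr).1 t)
    exact mass hS hB ht0 ht1 hl (hlr r hr).1 (hlr r hr).2 hs
  rw [Finset.sum_add_distrib, ← Finset.mul_sum, Finset.sum_const, Nat.card_Icc,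
    Nat.add_sub_cancel, nsmul_eq_mul] at h3
  have hl1 : (1 / 4 ^ l : ℝ) ≤ 1 := by
    rw [div_le_one (by positivity)]
    exact one_le_pow₀ (by norm_num)
  have h4 : ∑ r ∈ Finset.Icc 1 R, ENNReal.ofReal (1 / (2 / R) * (4 ^ (r * l) *
        ∫ x in (1 / 4 ^ l : ℝ)..1, Q 0 (r * l) x * Q 0 (r * l) (t * x))) ≤
      ENNReal.ofReal (R * 4 ^ l / 8) := by
    rw [← ENNReal.ofReal_sum_of_nonneg]
    · apply ENNReal.ofReal_le_ofReal
      rw [← Finset.mul_sum]
      have h5 : (1 / (2 / R) : ℝ) = R / 2 := by field_simp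
      rw [h5]
      have h6 : (R / 2 : ℝ) * ∑ r ∈ Finset.Icc 1 R, 4 ^ (r * l) *
          ∫ x in (1 / 4 ^ l : ℝ)..1, Q 0 (r * l) x * Q 0 (r * l) (t * x) ≤
          (R / 2 : ℝ) * (256 * S N t) := mul_le_mul_of_nonneg_left h2 (by positivity)
      refine h6.trans ?_
      have h7 : (256 : ℝ) * S N t ≤ 4 ^ l / 4 := by
        rw [hl, pow_add]
        have : (256 : ℝ) * S N t ≤ 256 * (4 * 4 ^ k) := by linarith
        refine this.trans (le_of_eq ?_)
        ring
      calc (R / 2 : ℝ) * (256 * S N t) ≤ (R / 2 : ℝ) * (4 ^ l / 4) :=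
            mul_le_mul_of_nonneg_left h7 (by positivity)
        _ = R * 4 ^ l / 8 := by ring
    · intro r _
      refine mul_nonneg (by positivity) (mul_nonneg (by positivity) ?_)
      exact intervalIntegral.integral_nonneg hl1 fun x _ =>
        mul_nonneg (Q_nonneg _ _ _) (Q_nonneg _ _ _)
  have h5 : (R : ENNReal) * ENNReal.ofReal (4 ^ l / 4) =
      ENNReal.ofReal (R * 4 ^ l / 8) + ENNReal.ofReal (R * 4 ^ l / 8) := by
    rw [← ENNReal.ofReal_add (by positivity) (by positivity), ← ENNReal.ofReal_natCast,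
      ← ENNReal.ofReal_mul (by positivity)]
    congr 1
    ring
  rw [h5] at h3
  have h6 := h3.trans (add_le_add_left h4 _)
  exact (ENNReal.add_le_add_iff_left ENNReal.ofReal_ne_top).1 h6

end TAIL

theorem TAIL_thm : Stmt_SAL → Stmt_BLK → Stmt_AVG → Stmt_TAIL := by
  intro hS hB hA q hq hq4
  obtain ⟨C, hC, hAv⟩ := hA q hq hq4
  refine ⟨6 + 8 * C * (24 * 64 ^ 6), by positivity, fun k N hN => ?_⟩
  have hN0 : (0 : ℝ) < N := by exact_mod_cast hN
  set X : ℝ := 64 ^ k * (k + 1) / N with hX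
  have hX0 : 0 < X := by positivity
  have hXq : 0 < X ^ q := Real.rpow_pos_of_pos hX0 q
  set Bd : Set ℝ := {t : ℝ | t ∈ Icc (1 / 4 : ℝ) 1 ∧ S N t ≤ 4 * 4 ^ k} with hBd
  have hBm : MeasurableSet Bd := by
    have : Bd = Icc (1 / 4 : ℝ) 1 ∩ (S N) ⁻¹' (Iic (4 * 4 ^ k)) := rfl
    rw [this]
    exact measurableSet_Icc.inter (measurable_S _ measurableSet_Iic)
  have hBs : Bd ⊆ Icc (1 / 4 : ℝ) 1 := fun t ht => ht.1
  have hB1 : (volume Bd).toReal ≤ 1 := by
    have h : volume Bd ≤ volume (Icc (1 / 4 : ℝ) 1) := measure_mono hBs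
    rw [Real.volume_Icc] at h
    calc (volume Bd).toReal ≤ (ENNReal.ofReal (1 - 1 / 4)).toReal :=
          ENNReal.toReal_mono ENNReal.ofReal_ne_top h
      _ ≤ 1 := by rw [ENNReal.toReal_ofReal (by norm_num)]; norm_num
  rcases lt_or_ge N (k + 6) with hNl | hNl
  · -- small N
    have h1 : (1 / 6 : ℝ) ≤ X := by
      rw [hX, le_div_iff₀ hN0]
      have h64 : (1 : ℝ) ≤ 64 ^ k := one_le_pow₀ (by norm_num)
      have hNk : (N : ℝ) ≤ k + 6 := by exact_mod_cast hNl.le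
      have hk0 : (0 : ℝ) ≤ k := Nat.cast_nonneg k
      nlinarith
    have h2 : (1 / 6 : ℝ) ≤ X ^ q := by
      calc (1 / 6 : ℝ) = (1 / 6 : ℝ) ^ (1 : ℝ) := (Real.rpow_one _).symm
        _ ≤ (1 / 6 : ℝ) ^ q :=
            Real.rpow_le_rpow_of_exponent_ge (by norm_num) (by norm_num) (by linarith)
        _ ≤ X ^ q := Real.rpow_le_rpow (by norm_num) h1 hq.le
    calc (volume Bd).toReal ≤ 1 := hB1
      _ ≤ 6 * X ^ q := by linarith
      _ ≤ (6 + 8 * C * (24 * 64 ^ 6)) * X ^ q :=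
          mul_le_mul_of_nonneg_right (by nlinarith [mul_pos hC (by norm_num : (0:ℝ) < 24 * 64 ^ 6)])
            hXq.le
  · -- large N
    set l := k + 6 with hl
    set R := N / l with hR
    have hl0 : 0 < l := by omega
    have hR1 : 1 ≤ R := (Nat.one_le_div_iff hl0).2 hNl
    have hRl : R * l ≤ N := Nat.div_mul_le_self N l
    have hR0 : (0 : ℝ) < R := by exact_mod_cast hR1
    have hl4 : (0 : ℝ) < 4 ^ l := by positivity
    have key : ENNReal.ofReal (R * 4 ^ l / 8) * volume Bd ≤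
        ENNReal.ofReal (((2 / R : ℝ) ^ q) * (R * (C * 64 ^ (q * l) * 4 ^ l))) := by
      calc ENNReal.ofReal (R * 4 ^ l / 8) * volume Bd
          = ∫⁻ _ in Bd, ENNReal.ofReal (R * 4 ^ l / 8) := by rw [setLIntegral_const]
        _ ≤ ∫⁻ t in Bd, ENNReal.ofReal ((2 / R : ℝ) ^ q) *
              ∑ r ∈ Finset.Icc 1 R, TAIL.J q l (r * l) t := by
            refine setLIntegral_mono' hBm fun t ht => ?_
            exact TAIL.bad hS hB hq (by linarith [ht.1.1]) ht.1.2 rfl hR1 hRl ht.2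
        _ ≤ ∫⁻ t in Icc (1 / 4 : ℝ) 1, ENNReal.ofReal ((2 / R : ℝ) ^ q) *
              ∑ r ∈ Finset.Icc 1 R, TAIL.J q l (r * l) t := lintegral_mono_set hBs
        _ = ENNReal.ofReal ((2 / R : ℝ) ^ q) *
              ∑ r ∈ Finset.Icc 1 R, ∫⁻ t in Icc (1 / 4 : ℝ) 1, TAIL.J q l (r * l) t := by
            rw [lintegral_const_mul' _ _ ENNReal.ofReal_ne_top, lintegral_finsetSum]
            intro r _
            exact TAIL.measurable_J q l (r * l)
        _ ≤ ENNReal.ofReal ((2 / R : ℝ) ^ q) *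
              ∑ r ∈ Finset.Icc 1 R, ENNReal.ofReal (C * 64 ^ (q * l) * 4 ^ l) := by
            refine mul_le_mul_right (Finset.sum_le_sum fun r hr => ?_) _
            rw [Finset.mem_Icc] at hr
            have hlm : l ≤ r * l := Nat.le_mul_of_pos_left l (by omega)
            unfold TAIL.J
            rw [lintegral_const_mul' _ _ ENNReal.ofReal_ne_top]
            refine (mul_le_mul_right (hAv l (r * l) hlm) _).trans ?_
            rw [← ENNReal.ofReal_mul (by positivity)]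
            apply ENNReal.ofReal_le_ofReal
            apply le_of_eq
            have h4 : (4 : ℝ) ^ (r * l) = 4 ^ l * 4 ^ (r * l - l) := by
              rw [← pow_add]
              congr 1
              omega
            rw [h4]
            have : (4 : ℝ) ^ (r * l - l) ≠ 0 := by positivity
            field_simp
        _ = ENNReal.ofReal (((2 / R : ℝ) ^ q) * (R * (C * 64 ^ (q * l) * 4 ^ l))) := by
            rw [Finset.sum_const, Nat.card_Icc, Nat.add_sub_cancel, nsmul_eq_mul,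
              ← ENNReal.ofReal_natCast, ← ENNReal.ofReal_mul (by positivity),
              ← ENNReal.ofReal_mul (by positivity)]
    have hfin : volume Bd ≠ ⊤ :=
      ne_top_of_le_ne_top (by rw [Real.volume_Icc]; exact ENNReal.ofReal_ne_top)
        (measure_mono hBs)
    have key2 : (R * 4 ^ l / 8) * (volume Bd).toReal ≤
        ((2 / R : ℝ) ^ q) * (R * (C * 64 ^ (q * l) * 4 ^ l)) := by
      have h := ENNReal.toReal_mono ENNReal.ofReal_ne_top key
      rwa [ENNReal.toReal_mul, ENNReal.toReal_ofReal (by positivity),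
        ENNReal.toReal_ofReal (by positivity)] at h
    have key3 : (volume Bd).toReal ≤ 8 * C * ((2 / R : ℝ) ^ q * 64 ^ (q * l)) := by
      have h8 : (0 : ℝ) < R * 4 ^ l / 8 := by positivity
      rw [← mul_le_mul_iff_right₀ h8]
      refine key2.trans (le_of_eq ?_)
      ring
    have hpow : (2 / R : ℝ) ^ q * 64 ^ (q * l) = (2 / R * 64 ^ l) ^ q := by
      rw [Real.mul_rpow (by positivity) (by positivity), mul_comm q (l : ℝ),
        Real.rpow_mul (by norm_num), Real.rpow_natCast]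
    have hbase : (2 / R * 64 ^ l : ℝ) ≤ (24 * 64 ^ 6) * X := by
      have hRN : (N : ℝ) ≤ 12 * (k + 1) * R := by
        have h1 : N < (R + 1) * l := by
          rw [hR, mul_comm]
          exact Nat.lt_mul_div_succ N hl0
        have h2 : (N : ℝ) < (R + 1) * l := by exact_mod_cast h1
        have h3 : (l : ℝ) ≤ 6 * (k + 1) := by
          rw [hl]; push_cast
          have hk0 : (0 : ℝ) ≤ k := Nat.cast_nonneg k
          linarith
        have h4 : (R + 1 : ℝ) ≤ 2 * R := by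
          have : (1 : ℝ) ≤ R := by exact_mod_cast hR1
          linarith
        calc (N : ℝ) ≤ (R + 1) * l := h2.le
          _ ≤ (2 * R) * (6 * (k + 1)) := mul_le_mul h4 h3 (by positivity) (by positivity)
          _ = 12 * (k + 1) * R := by ring
      have h64 : (64 : ℝ) ^ l = 64 ^ k * 64 ^ 6 := by rw [hl, pow_add]
      rw [h64, hX]
      rw [div_mul_eq_mul_div, mul_div_assoc', div_le_div_iff₀ hR0 hN0]
      have h65 : (0 : ℝ) ≤ 2 * (64 ^ k * 64 ^ 6) := by positivity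
      calc (2 * (64 ^ k * 64 ^ 6) : ℝ) * N ≤ 2 * (64 ^ k * 64 ^ 6) * (12 * (k + 1) * R) :=
            mul_le_mul_of_nonneg_left hRN h65
        _ = 24 * 64 ^ 6 * (64 ^ k * (k + 1)) * R := by ring
    have hcon : ((24 * 64 ^ 6) * X) ^ q ≤ (24 * 64 ^ 6) * X ^ q := by
      rw [Real.mul_rpow (by positivity) hX0.le]
      refine mul_le_mul_of_nonneg_right ?_ hXq.le
      calc ((24 * 64 ^ 6 : ℝ)) ^ q ≤ (24 * 64 ^ 6 : ℝ) ^ (1 : ℝ) :=
            Real.rpow_le_rpow_of_exponent_le (by norm_num) (by linarith)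
        _ = 24 * 64 ^ 6 := Real.rpow_one _
    calc (volume Bd).toReal ≤ 8 * C * ((2 / R : ℝ) ^ q * 64 ^ (q * l)) := key3
      _ = 8 * C * (2 / R * 64 ^ l : ℝ) ^ q := by rw [hpow]
      _ ≤ 8 * C * ((24 * 64 ^ 6) * X) ^ q :=
          mul_le_mul_of_nonneg_left (Real.rpow_le_rpow (by positivity) hbase hq.le)
            (by positivity)
      _ ≤ 8 * C * ((24 * 64 ^ 6) * X ^ q) := mul_le_mul_of_nonneg_left hcon (by positivity)
      _ ≤ (6 + 8 * C * (24 * 64 ^ 6)) * X ^ q := by nlinarith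

end Pool.Agent.FCC
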