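import Pool.Agent.FCC.Stmts

/-!
# Four corner Cantor sets: the transfer inequality
-/

namespace Pool.Agent.FCC

open MeasureTheory Set

namespace TRA

/-- The weight with the sine factor. -/
noncomputable def vv (q : ℝ) (l m : ℕ) (x : ℝ) : ENNReal :=
  wt q l m x * (ENNReal.ofReal |Real.sin x|) ^ (-(2 * q))

theorem Q_nonneg (a b : ℕ) (x : ℝ) : 0 ≤ Q a b x :=
  Finset.prod_nonneg fun _ _ => sq_nonneg _

theorem Q_cont (a b : ℕ) : Continuous (Q a b) := by
  unfold Q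
  fun_prop

theorem Q_succ (l m : ℕ) (x : ℝ) : Q (l + 1) (m + 1) x = Q l m (4 * x) := by
  unfold Q
  rw [← Finset.prod_Ico_add' (fun j : ℕ => Real.cos (4 ^ j * x) ^ 2) l m 1]
  refine Finset.prod_congr rfl fun j _ => ?_
  rw [pow_succ]
  ring_nf

theorem Q_zero_succ (l : ℕ) (x : ℝ) : Q 0 (l + 1) x = Real.cos x ^ 2 * Q 0 l (4 * x) := by
  rw [← Q_succ 0 l x]
  unfold Q
  rw [Finset.prod_eq_prod_Ico_succ_bot (Nat.succ_pos l)]
  simp

theorem Q_zero_zero (x : ℝ) : Q 0 0 x = 1 := by simp [Q]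

theorem Q_per (a b : ℕ) (x : ℝ) (k : ℕ) : Q a b (x + k * Real.pi) = Q a b x := by
  unfold Q
  refine Finset.prod_congr rfl fun j _ => ?_
  have h : (4 : ℝ) ^ j * (x + k * Real.pi) = 4 ^ j * x + ((4 ^ j * k : ℕ) : ℝ) * Real.pi := by
    push_cast
    ring
  rw [h, Real.cos_add_nat_mul_pi, mul_pow, ← pow_mul]
  simp [mul_comm _ 2, pow_mul]

theorem abs_sin_per (x : ℝ) (k : ℕ) : |Real.sin (x + k * Real.pi)| = |Real.sin x| := by
  rw [Real.sin_add_nat_mul_pi, abs_mul, abs_pow]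
  simp

theorem vv_per (q : ℝ) (l m : ℕ) (x : ℝ) (k : ℕ) : vv q l m (x + k * Real.pi) = vv q l m x := by
  unfold vv wt
  rw [Q_per, Q_per, abs_sin_per]

theorem vv_meas (q : ℝ) (l m : ℕ) : Measurable (vv q l m) := by
  unfold vv wt
  have h1 : Measurable fun x => ENNReal.ofReal (Q l m x) :=
    ((Q_cont l m).measurable).ennreal_ofReal
  have h2 : Measurable fun x => ENNReal.ofReal (Q 0 l x) :=
    ((Q_cont 0 l).measurable).ennreal_ofReal
  have h3 : Measurable fun x => ENNReal.ofReal |Real.sin x| :=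
    ((continuous_abs.comp Real.continuous_sin).measurable).ennreal_ofReal
  exact (h1.mul (h2.pow_const _)).mul (h3.pow_const _)

theorem wt_le (q : ℝ) (hq : 0 < q) (l m : ℕ) (x : ℝ) : wt q l m x ≤ vv q l m x := by
  unfold vv
  have h : (1 : ENNReal) ≤ (ENNReal.ofReal |Real.sin x|) ^ (-(2 * q)) := by
    rw [ENNReal.rpow_neg, ENNReal.one_le_inv]
    refine ENNReal.rpow_le_one ?_ (by positivity)
    rw [← ENNReal.ofReal_one]
    exact ENNReal.ofReal_le_ofReal (Real.abs_sin_le_one x)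
  calc wt q l m x = wt q l m x * 1 := (mul_one _).symm
    _ ≤ _ := by gcongr

theorem wt_succ (q : ℝ) (l m : ℕ) (x : ℝ) : wt q (l + 1) (m + 1) x =
    (ENNReal.ofReal |Real.cos x|) ^ (-(2 * q)) * wt q l m (4 * x) := by
  unfold wt
  rw [Q_succ, Q_zero_succ, ENNReal.ofReal_mul (sq_nonneg _),
    ENNReal.mul_rpow_of_ne_top ENNReal.ofReal_ne_top ENNReal.ofReal_ne_top]
  have h : (ENNReal.ofReal (Real.cos x ^ 2)) ^ (-q) =
      (ENNReal.ofReal |Real.cos x|) ^ (-(2 * q)) := by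
    rw [← sq_abs, ENNReal.ofReal_pow (abs_nonneg _), ← ENNReal.rpow_natCast,
      ← ENNReal.rpow_mul]
    congr 1
    push_cast
    ring
  rw [h]
  ring

theorem vv_succ (q : ℝ) (l m : ℕ) (x : ℝ) (hx : Real.cos (2 * x) ≠ 0) :
    vv q (l + 1) (m + 1) x = (4 : ENNReal) ^ (2 * q) *
      ((ENNReal.ofReal |Real.cos (2 * x)|) ^ (2 * q) * vv q l m (4 * x)) := by
  have hs : Real.sin (4 * x) = 4 * (Real.sin x * (Real.cos x * Real.cos (2 * x))) := by
    have : (4 : ℝ) * x = 2 * (2 * x) := by ring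
    rw [this, Real.sin_two_mul, Real.sin_two_mul]
    ring
  have h4 : ENNReal.ofReal |Real.sin (4 * x)| = 4 * (ENNReal.ofReal |Real.sin x| *
      (ENNReal.ofReal |Real.cos x| * ENNReal.ofReal |Real.cos (2 * x)|)) := by
    rw [hs, abs_mul, abs_mul, abs_mul, ENNReal.ofReal_mul (abs_nonneg _),
      ENNReal.ofReal_mul (abs_nonneg _), ENNReal.ofReal_mul (abs_nonneg _)]
    congr 1
    rw [abs_of_pos (by norm_num : (0 : ℝ) < 4)]
    norm_num
  have hc0 : ENNReal.ofReal |Real.cos (2 * x)| ≠ 0 := by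
    rw [Ne, ENNReal.ofReal_eq_zero, not_le]
    exact abs_pos.mpr hx
  have hcc : (ENNReal.ofReal |Real.cos (2 * x)|) ^ (2 * q) *
      (ENNReal.ofReal |Real.cos (2 * x)|) ^ (-(2 * q)) = 1 := by
    rw [← ENNReal.rpow_add _ _ hc0 ENNReal.ofReal_ne_top]
    simp
  have h44 : (4 : ENNReal) ^ (2 * q) * (4 : ENNReal) ^ (-(2 * q)) = 1 := by
    rw [← ENNReal.rpow_add _ _ (by norm_num) (by norm_num)]
    simp
  unfold vv
  rw [wt_succ, h4, ENNReal.mul_rpow_of_ne_top (by norm_num)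
    (ENNReal.mul_ne_top ENNReal.ofReal_ne_top
      (ENNReal.mul_ne_top ENNReal.ofReal_ne_top ENNReal.ofReal_ne_top)),
    ENNReal.mul_rpow_of_ne_top ENNReal.ofReal_ne_top
      (ENNReal.mul_ne_top ENNReal.ofReal_ne_top ENNReal.ofReal_ne_top),
    ENNReal.mul_rpow_of_ne_top ENNReal.ofReal_ne_top ENNReal.ofReal_ne_top]
  calc _ = ((4 : ENNReal) ^ (2 * q) * (4 : ENNReal) ^ (-(2 * q))) *
        ((ENNReal.ofReal |Real.cos (2 * x)|) ^ (2 * q) *
      (ENNReal.ofReal |Real.cos (2 * x)|) ^ (-(2 * q))) *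
      ((ENNReal.ofReal |Real.cos x|) ^ (-(2 * q)) * wt q l m (4 * x) *
        (ENNReal.ofReal |Real.sin x|) ^ (-(2 * q))) := by
        rw [hcc, h44, one_mul, one_mul]
    _ = _ := by ring

theorem lint_shift (h : ℝ → ENNReal) (a b c : ℝ) :
    ∫⁻ x in Ico (a + c) (b + c), h x = ∫⁻ x in Ico a b, h (x + c) := by
  rw [← lintegral_indicator measurableSet_Ico, ← lintegral_indicator measurableSet_Ico,
    ← lintegral_add_right_eq_self _ c]
  refine lintegral_congr fun x => ?_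
  simp only [indicator, mem_Ico]
  congr 1
  simp

theorem lint_four (h : ℝ → ENNReal) (n : ℕ) :
    ∫⁻ x in Ico 0 (n * Real.pi), h x =
      ∑ k ∈ Finset.range n, ∫⁻ x in Ico 0 Real.pi, h (x + k * Real.pi) := by
  induction n with
  | zero => simp
  | succ n ih =>
    rw [Finset.sum_range_succ, ← ih, ← lint_shift h 0 Real.pi (n * Real.pi)]
    have hpi := Real.pi_pos
    have h1 : Ico (0 : ℝ) ((n + 1 : ℕ) * Real.pi) =
        Ico 0 (n * Real.pi) ∪ Ico (0 + n * Real.pi) (Real.pi + n * Real.pi) := by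
      rw [zero_add, Ico_union_Ico_eq_Ico (by positivity) (by linarith)]
      congr 1
      push_cast
      ring
    rw [h1, lintegral_union measurableSet_Ico]
    rw [zero_add]
    exact Ico_disjoint_Ico_same

theorem lint_scale (G : ℝ → ENNReal) :
    ∫⁻ x in Ico 0 Real.pi, G (4 * x) =
      ENNReal.ofReal (1 / 4) * ∫⁻ y in Ico 0 ((4 : ℕ) * Real.pi), G y := by
  have hm : MeasurableEmbedding fun x : ℝ => 4 * x :=
    (Homeomorph.mulLeft₀ (4 : ℝ) (by norm_num)).measurableEmbedding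
  have h1 := hm.lintegral_map (μ := volume) ((Ico 0 ((4 : ℕ) * Real.pi)).indicator G)
  rw [Real.map_volume_mul_left (by norm_num), lintegral_smul_measure,
    lintegral_indicator measurableSet_Ico] at h1
  rw [← lintegral_indicator measurableSet_Ico]
  have h2 : |(4 : ℝ)⁻¹| = 1 / 4 := by
    rw [abs_of_pos (by norm_num)]
    norm_num
  rw [h2, smul_eq_mul] at h1
  rw [h1]
  refine lintegral_congr fun x => ?_
  simp only [indicator, mem_Ico]
  have : (0 ≤ x ∧ x < Real.pi) ↔ (0 ≤ 4 * x ∧ 4 * x < ((4 : ℕ) : ℝ) * Real.pi) := by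
    push_cast
    constructor
    · rintro ⟨h, h'⟩
      exact ⟨by linarith, by linarith⟩
    · rintro ⟨h, h'⟩
      exact ⟨by linarith, by linarith⟩
  by_cases hx : 0 ≤ x ∧ x < Real.pi
  · rw [if_pos hx, if_pos (this.mp hx)]
  · rw [if_neg hx, if_neg fun h => hx (this.mpr h)]

theorem conc (q : ℝ) (hq : 0 < q) (hq1 : q ≤ 1) (c s : ℝ) (hc : 0 ≤ c) (hs : 0 ≤ s)
    (h : c + s = 1) : c ^ q + s ^ q ≤ 2 * (1 / 2) ^ q := by
  have h1 := (Real.concaveOn_rpow hq.le hq1).2 (mem_Ici.mpr hc) (mem_Ici.mpr hs)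
    (by norm_num : (0 : ℝ) ≤ 1 / 2) (by norm_num : (0 : ℝ) ≤ 1 / 2) (by norm_num)
  simp only [smul_eq_mul] at h1
  have h2 : 1 / 2 * c + 1 / 2 * s = 1 / 2 := by linarith
  rw [h2] at h1
  linarith

theorem cs_le (q : ℝ) (hq : 0 < q) (hq1 : q ≤ 1) (y : ℝ) :
    (ENNReal.ofReal |Real.cos y|) ^ (2 * q) + (ENNReal.ofReal |Real.sin y|) ^ (2 * q) ≤
      ENNReal.ofReal (2 * (1 / 2) ^ q) := by
  rw [ENNReal.ofReal_rpow_of_nonneg (abs_nonneg _) (by positivity),
    ENNReal.ofReal_rpow_of_nonneg (abs_nonneg _) (by positivity),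
    ← ENNReal.ofReal_add (by positivity) (by positivity)]
  refine ENNReal.ofReal_le_ofReal ?_
  have h := conc q hq hq1 (Real.cos y ^ 2) (Real.sin y ^ 2) (sq_nonneg _) (sq_nonneg _)
    (Real.cos_sq_add_sin_sq y)
  have h2 : ∀ z : ℝ, |z| ^ (2 * q) = (z ^ 2) ^ q := by
    intro z
    rw [Real.rpow_mul (abs_nonneg z)]
    congr 1
    rw [← sq_abs z]
    norm_cast
  rw [h2, h2]
  exact h

theorem transfer (q : ℝ) (hq : 0 < q) (hq1 : q ≤ 1) (v : ℝ → ENNReal) (hv : Measurable v)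
    (hp : ∀ x, ∀ k : ℕ, v (x + k * Real.pi) = v x) :
    ∫⁻ x in Ico 0 Real.pi, (ENNReal.ofReal |Real.cos (2 * x)|) ^ (2 * q) * v (4 * x) ≤
      ENNReal.ofReal ((1 / 2) ^ q) * ∫⁻ x in Ico 0 Real.pi, v x := by
  have h1 := lint_scale fun y => (ENNReal.ofReal |Real.cos (y / 2)|) ^ (2 * q) * v y
  have h2 : ∀ x : ℝ, 4 * x / 2 = 2 * x := fun x => by ring
  simp only [h2] at h1
  rw [h1, lint_four]
  have hmc : Measurable fun x : ℝ => (ENNReal.ofReal |Real.cos (x / 2)|) ^ (2 * q) := by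
    have : Measurable fun x : ℝ => ENNReal.ofReal |Real.cos (x / 2)| := by
      refine Measurable.ennreal_ofReal ?_
      exact (by fun_prop : Continuous fun x : ℝ => |Real.cos (x / 2)|).measurable
    exact this.pow_const _
  have e0 : ∀ x : ℝ, |Real.cos ((x + (0 : ℕ) * Real.pi) / 2)| = |Real.cos (x / 2)| := by
    intro x
    simp
  have e1 : ∀ x : ℝ, |Real.cos ((x + (1 : ℕ) * Real.pi) / 2)| = |Real.sin (x / 2)| := by
    intro x
    have : (x + (1 : ℕ) * Real.pi) / 2 = x / 2 + Real.pi / 2 := by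
      push_cast
      ring
    rw [this, Real.cos_add_pi_div_two, abs_neg]
  have e2 : ∀ x : ℝ, |Real.cos ((x + (2 : ℕ) * Real.pi) / 2)| = |Real.cos (x / 2)| := by
    intro x
    have : (x + (2 : ℕ) * Real.pi) / 2 = x / 2 + Real.pi := by
      push_cast
      ring
    rw [this, Real.cos_add_pi, abs_neg]
  have e3 : ∀ x : ℝ, |Real.cos ((x + (3 : ℕ) * Real.pi) / 2)| = |Real.sin (x / 2)| := by
    intro x
    have : (x + (3 : ℕ) * Real.pi) / 2 = (x / 2 + Real.pi / 2) + Real.pi := by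
      push_cast
      ring
    rw [this, Real.cos_add_pi, Real.cos_add_pi_div_two, abs_neg, abs_neg]
  simp only [Finset.sum_range_succ, Finset.sum_range_zero, zero_add, hp, e0, e1, e2, e3]
  have hcv : Measurable fun x : ℝ => (ENNReal.ofReal |Real.cos (x / 2)|) ^ (2 * q) * v x :=
    hmc.mul hv
  have h3 : (∫⁻ x in Ico 0 Real.pi, (ENNReal.ofReal |Real.cos (x / 2)|) ^ (2 * q) * v x) +
      (∫⁻ x in Ico 0 Real.pi, (ENNReal.ofReal |Real.sin (x / 2)|) ^ (2 * q) * v x) ≤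
      ENNReal.ofReal (2 * (1 / 2) ^ q) * ∫⁻ x in Ico 0 Real.pi, v x := by
    rw [← lintegral_add_left hcv, ← lintegral_const_mul' _ _ ENNReal.ofReal_ne_top]
    refine lintegral_mono fun x => ?_
    show _ * v x + _ * v x ≤ _ * v x
    rw [← add_mul]
    gcongr
    exact cs_le q hq hq1 (x / 2)
  calc _ = ENNReal.ofReal (1 / 4) * (2 *
        ((∫⁻ x in Ico 0 Real.pi, (ENNReal.ofReal |Real.cos (x / 2)|) ^ (2 * q) * v x) +
      (∫⁻ x in Ico 0 Real.pi, (ENNReal.ofReal |Real.sin (x / 2)|) ^ (2 * q) * v x))) := by ring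
    _ ≤ ENNReal.ofReal (1 / 4) * (2 *
        (ENNReal.ofReal (2 * (1 / 2) ^ q) * ∫⁻ x in Ico 0 Real.pi, v x)) := by gcongr
    _ = ENNReal.ofReal ((1 / 2) ^ q) * ∫⁻ x in Ico 0 Real.pi, v x := by
      have h5 : (2 : ENNReal) = ENNReal.ofReal 2 := by norm_num
      rw [h5, ← mul_assoc, ← mul_assoc, ← ENNReal.ofReal_mul (by norm_num),
        ← ENNReal.ofReal_mul (by norm_num)]
      congr 2
      ring

theorem ae_cos : ∀ᵐ x : ℝ, Real.cos (2 * x) ≠ 0 := by
  have hc : (range fun k : ℤ => ((2 * (k : ℝ) + 1) * Real.pi / 2) / 2).Countable :=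
    countable_range _
  filter_upwards [hc.ae_notMem volume] with x hx h
  rw [Real.cos_eq_zero_iff] at h
  obtain ⟨k, hk⟩ := h
  exact hx ⟨k, by simp only; linarith⟩

theorem step (q : ℝ) (hq : 0 < q) (hq1 : q ≤ 1) (l m : ℕ) :
    ∫⁻ x in Ico 0 Real.pi, vv q (l + 1) (m + 1) x ≤
      ENNReal.ofReal (8 ^ q) * ∫⁻ x in Ico 0 Real.pi, vv q l m x := by
  have h1 : ∫⁻ x in Ico 0 Real.pi, vv q (l + 1) (m + 1) x =
      (4 : ENNReal) ^ (2 * q) * ∫⁻ x in Ico 0 Real.pi,
        (ENNReal.ofReal |Real.cos (2 * x)|) ^ (2 * q) * vv q l m (4 * x) := by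
    rw [← lintegral_const_mul' _ _ (ENNReal.rpow_ne_top_of_nonneg (by positivity) (by norm_num))]
    refine lintegral_congr_ae (ae_restrict_of_ae ?_)
    filter_upwards [ae_cos] with x hx
    exact vv_succ q l m x hx
  rw [h1]
  calc _ ≤ (4 : ENNReal) ^ (2 * q) *
        (ENNReal.ofReal ((1 / 2) ^ q) * ∫⁻ x in Ico 0 Real.pi, vv q l m x) := by
        gcongr
        exact transfer q hq hq1 _ (vv_meas q l m) (vv_per q l m)
    _ = _ := by
      rw [← mul_assoc]
      congr 1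
      have h4 : (4 : ENNReal) = ENNReal.ofReal 4 := by norm_num
      rw [h4, ENNReal.ofReal_rpow_of_nonneg (by norm_num) (by positivity),
        ← ENNReal.ofReal_mul (by positivity)]
      congr 1
      rw [Real.rpow_mul (by norm_num), ← Real.mul_rpow (by positivity) (by norm_num)]
      norm_num

theorem main (q : ℝ) (hq : 0 < q) (hq1 : q ≤ 1) (l : ℕ) : ∀ m : ℕ, l ≤ m →
    ∫⁻ x in Ico 0 Real.pi, vv q l m x ≤
      ENNReal.ofReal (8 ^ (q * l)) * ∫⁻ x in Ico 0 Real.pi, vv q 0 (m - l) x := by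
  induction l with
  | zero =>
    intro m _
    simp
  | succ l ih =>
    intro m hm
    obtain ⟨m, rfl⟩ : ∃ k, m = k + 1 := ⟨m - 1, by omega⟩
    calc _ ≤ ENNReal.ofReal (8 ^ q) * ∫⁻ x in Ico 0 Real.pi, vv q l m x := step q hq hq1 l m
      _ ≤ ENNReal.ofReal (8 ^ q) * (ENNReal.ofReal (8 ^ (q * l)) *
          ∫⁻ x in Ico 0 Real.pi, vv q 0 (m - l) x) := by
        gcongr
        exact ih m (by omega)
      _ = _ := by
        rw [← mul_assoc, ← ENNReal.ofReal_mul (by positivity),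
          ← Real.rpow_add (by norm_num)]
        congr 2
        · push_cast
          ring_nf
        · ext x
          congr 1
          omega

end TRA

theorem TRA_thm : Stmt_TRA := by
  intro q l m hq hq4 hlm
  have h := TRA.main q hq (by linarith) l m hlm
  rw [setLIntegral_congr (Ico_ae_eq_Icc (μ := volume)),
    setLIntegral_congr (Ico_ae_eq_Icc (μ := volume))] at h
  calc _ ≤ ∫⁻ x in Icc 0 Real.pi, TRA.vv q l m x :=
        lintegral_mono fun x => TRA.wt_le q hq l m x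
    _ ≤ _ := h
    _ = _ := by
      congr 1
      refine lintegral_congr fun x => ?_
      unfold TRA.vv wt
      rw [TRA.Q_zero_zero]
      simp

end Pool.Agent.FCC
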